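import Pool.Agent.Helper85.Cap.Defs

/-!
Module I2 of MP_14a161_gt (helper90): the Klain function of `muab a b`.
-/
set_option autoImplicit false
open MeasureTheory Metric Set
open scoped ENNReal
open Pool.Agent.Helper85.Herm

namespace Pool.Agent.Helper85.Cap

theorem I2_int_exp : ∫ X in Ioi (0:ℝ), Real.exp (-X) = 1 := by
  simpa using integral_exp_neg_Ioi_zero

theorem I2_intOn_exp : IntegrableOn (fun X : ℝ => Real.exp (-X)) (Ioi 0) := by
  have := integrableOn_exp_neg_Ioi (0:ℝ)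
  exact this

theorem I2_intOn_xexp : IntegrableOn (fun X : ℝ => X * Real.exp (-X)) (Ioi 0) := by
  have h := Real.GammaIntegral_convergent (s := 2) (by norm_num)
  refine h.congr_fun ?_ measurableSet_Ioi
  intro x hx
  have hx' : (0:ℝ) < x := hx
  norm_num
  ring

theorem I2_int_xexp : ∫ X in Ioi (0:ℝ), X * Real.exp (-X) = 1 := by
  have h := Real.Gamma_eq_integral (s := 2) (by norm_num)
  have h2 : Real.Gamma 2 = 1 := by
    simpa using Real.Gamma_two
  rw [h2] at h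
  rw [h]
  refine setIntegral_congr_fun measurableSet_Ioi ?_
  intro x hx
  norm_num
  ring

/-- inner integral -/
theorem I2_inner (A q : ℝ) (hA : 0 ≤ A) (hq : 0 < q) :
    ∫ Y in Ioi (0:ℝ), |A - q * Y| * Real.exp (-Y) = A - q + 2 * q * Real.exp (-(A / q)) := by
  -- |x| = x + 2 max(-x) 0
  set c := A / q with hc
  have hc0 : 0 ≤ c := by positivity
  have hqc : q * c = A := by rw [hc]; field_simp
  have h1 : ∀ Y : ℝ, |A - q * Y| * Real.exp (-Y) = (A * Real.exp (-Y) - q * (Y * Real.exp (-Y)))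
      + (Ioi c).indicator (fun Y => 2 * (q * Y - A) * Real.exp (-Y)) Y := by
    intro Y
    by_cases hY : c < Y
    · have : A - q * Y ≤ 0 := by nlinarith
      rw [abs_of_nonpos this, indicator_of_mem (show Y ∈ Ioi c from hY)]
      ring
    · have : 0 ≤ A - q * Y := by nlinarith
      rw [abs_of_nonneg this, indicator_of_notMem (show Y ∉ Ioi c from hY)]
      ring
  have hint2 : IntegrableOn (fun Y => 2 * (q * Y - A) * Real.exp (-Y)) (Ioi 0) := by
    have h0 : IntegrableOn (fun Y => 2 * q * (Y * Real.exp (-Y)) - 2 * A * Real.exp (-Y)) (Ioi 0) :=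
      (I2_intOn_xexp.const_mul (2 * q)).sub (I2_intOn_exp.const_mul (2 * A))
    refine h0.congr_fun ?_ measurableSet_Ioi
    intro x _
    simp only
    ring
  have hint3 : IntegrableOn (fun Y => 2 * (q * Y - A) * Real.exp (-Y)) (Ioi c) :=
    hint2.mono_set (Ioi_subset_Ioi hc0)
  have h3 : ∫ Y in Ioi c, 2 * (q * Y - A) * Real.exp (-Y) = 2 * q * Real.exp (-c) := by
    have hder : ∀ x ∈ Ici c, HasDerivAt (fun Y => -(2 * (q * Y - A + q) * Real.exp (-Y)))
        (2 * (q * x - A) * Real.exp (-x)) x := by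
      intro x _
      have e1 : HasDerivAt (fun Y : ℝ => Real.exp (-Y)) (-Real.exp (-x)) x := by
        have := (hasDerivAt_neg x).exp
        rwa [mul_neg, mul_one] at this
      have e2 : HasDerivAt (fun Y : ℝ => 2 * (q * Y - A + q)) (2 * q) x := by
        have := (((hasDerivAt_id x).const_mul q).sub_const A).add_const q |>.const_mul 2
        simpa using this
      have h5 := (e2.mul e1).neg
      have h6 : -(2 * q * Real.exp (-x) + 2 * (q * x - A + q) * -Real.exp (-x)) =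
          2 * (q * x - A) * Real.exp (-x) := by ring
      rw [h6] at h5
      exact h5
    have hlim : Filter.Tendsto (fun Y => -(2 * (q * Y - A + q) * Real.exp (-Y))) Filter.atTop
        (nhds 0) := by
      have t1 : Filter.Tendsto (fun Y : ℝ => Y * Real.exp (-Y)) Filter.atTop (nhds 0) := by
        simpa using Real.tendsto_pow_mul_exp_neg_atTop_nhds_zero 1
      have t2 : Filter.Tendsto (fun Y : ℝ => Real.exp (-Y)) Filter.atTop (nhds 0) :=
        Real.tendsto_exp_neg_atTop_nhds_zero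
      have := ((t1.const_mul (2 * q)).add (t2.const_mul (2 * (q - A)))).neg
      simp only [mul_zero, add_zero, neg_zero] at this
      refine this.congr ?_
      intro Y
      ring
    have := integral_Ioi_of_hasDerivAt_of_tendsto' hder hint3 hlim
    rw [this, hqc]
    ring
  simp_rw [h1]
  rw [integral_add, integral_sub, integral_const_mul, integral_const_mul, I2_int_exp, I2_int_xexp,
    setIntegral_indicator measurableSet_Ioi]
  · rw [show Ioi (0:ℝ) ∩ Ioi c = Ioi c by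
      rw [Ioi_inter_Ioi, sup_eq_right.2 hc0], h3]
    ring
  · exact I2_intOn_exp.const_mul A
  · exact I2_intOn_xexp.const_mul q
  · exact (I2_intOn_exp.const_mul A).sub (I2_intOn_xexp.const_mul q)
  · exact (hint2.integrable.indicator measurableSet_Ioi)

theorem I2_outer (p q : ℝ) (hp : 0 ≤ p) (hq : 0 ≤ q) (hpq : p + q = 1) :
    ∫ X in Ioi (0:ℝ), ∫ Y in Ioi (0:ℝ), |p * X - q * Y| * Real.exp (-Y) * Real.exp (-X)
      = p ^ 2 + q ^ 2 := by
  rcases hq.eq_or_lt with h0 | hq'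
  · subst h0
    have hp1 : p = 1 := by linarith
    subst hp1
    have : ∀ X ∈ Ioi (0:ℝ), ∫ Y in Ioi (0:ℝ), |1 * X - 0 * Y| * Real.exp (-Y) * Real.exp (-X)
        = X * Real.exp (-X) := by
      intro X hX
      have hX' : (0:ℝ) < X := hX
      have : ∀ Y, |1 * X - 0 * Y| * Real.exp (-Y) * Real.exp (-X) =
          (X * Real.exp (-X)) * Real.exp (-Y) := by
        intro Y
        rw [show 1 * X - 0 * Y = X by ring, abs_of_pos hX']
        ring
      simp_rw [this]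
      rw [integral_const_mul, I2_int_exp, mul_one]
    rw [setIntegral_congr_fun measurableSet_Ioi this, I2_int_xexp]
    norm_num
  · have : ∀ X ∈ Ioi (0:ℝ), ∫ Y in Ioi (0:ℝ), |p * X - q * Y| * Real.exp (-Y) * Real.exp (-X)
        = p * (X * Real.exp (-X)) - q * Real.exp (-X) + 2 * q * Real.exp (-((1/q) * X)) := by
      intro X hX
      have hX' : (0:ℝ) < X := hX
      rw [integral_mul_const, I2_inner (p * X) q (by positivity) hq']
      have e1 : Real.exp (-(1/q * X)) = Real.exp (-(p * X / q)) * Real.exp (-X) := by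
        rw [← Real.exp_add]
        congr 1
        have : p = 1 - q := by linarith
        rw [this]
        field_simp
        ring
      rw [e1]
      ring
    rw [setIntegral_congr_fun measurableSet_Ioi this]
    have hint3 : IntegrableOn (fun X : ℝ => Real.exp (-((1/q) * X))) (Ioi 0) := by
      have := exp_neg_integrableOn_Ioi 0 (show (0:ℝ) < 1/q by positivity)
      refine this.congr_fun ?_ measurableSet_Ioi
      intro x _
      simp
    have h3 : ∫ X in Ioi (0:ℝ), Real.exp (-((1/q) * X)) = q := by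
      have hq2 : (0:ℝ) < 1 / q := by positivity
      have := integral_comp_mul_left_Ioi (fun y => Real.exp (-y)) 0 hq2
      rw [mul_zero, I2_int_exp] at this
      rw [this]
      simp
    rw [integral_add, integral_sub, integral_const_mul, integral_const_mul, integral_const_mul,
      I2_int_exp, I2_int_xexp, h3]
    · have : p = 1 - q := by linarith
      rw [this]; ring
    · exact I2_intOn_xexp.const_mul p
    · exact I2_intOn_exp.const_mul q
    · exact (I2_intOn_xexp.const_mul p).sub (I2_intOn_exp.const_mul q)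
    · exact hint3.const_mul (2 * q)


theorem I2_rad2 (φ : ℝ → ℝ) :
    ∫ z : ℝ × ℝ, φ (z.1 ^ 2 + z.2 ^ 2) = Real.pi * ∫ X in Ioi (0:ℝ), φ X := by
  rw [← integral_comp_polarCoord_symm]
  have h1 : ∀ p : ℝ × ℝ, p.1 • φ ((polarCoord.symm p).1 ^ 2 + (polarCoord.symm p).2 ^ 2) =
      (p.1 * φ (p.1 ^ 2)) * (1 : ℝ) := by
    intro p
    have : (p.1 * Real.cos p.2) ^ 2 + (p.1 * Real.sin p.2) ^ 2 = p.1 ^ 2 := by
      have := Real.sin_sq_add_cos_sq p.2
      nlinarith [this]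
    simp only [polarCoord_symm_apply, this, smul_eq_mul, mul_one]
  simp_rw [h1]
  have h2 : polarCoord.target = Ioi (0:ℝ) ×ˢ Ioo (-Real.pi) Real.pi := rfl
  rw [h2, Measure.volume_eq_prod, setIntegral_prod_mul (fun r : ℝ => r * φ (r ^ 2)) (fun _ => (1:ℝ))]
  have h3 : ∫ _ in Ioo (-Real.pi) Real.pi, (1:ℝ) = 2 * Real.pi := by
    simp only [integral_const, MeasurableSet.univ, measureReal_restrict_apply, univ_inter, smul_eq_mul, mul_one]
    rw [Real.volume_real_Ioo_of_le (by linarith [Real.pi_pos])]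
    ring
  rw [h3]
  have h4 := integral_comp_rpow_Ioi_of_pos (g := φ) (p := 2) (by norm_num)
  have h5 : ∫ x in Ioi (0:ℝ), (2 * x ^ ((2:ℝ) - 1)) • φ (x ^ (2:ℝ)) =
      2 * ∫ x in Ioi (0:ℝ), x * φ (x ^ 2) := by
    rw [← integral_const_mul]
    refine setIntegral_congr_fun measurableSet_Ioi ?_
    intro x hx
    norm_num
    ring
  rw [← h4, h5]
  ring

theorem I2_rad4 (F : ℝ → ℝ → ℝ) :
    ∫ z : ℝ × ℝ, ∫ w : ℝ × ℝ, F (z.1 ^ 2 + z.2 ^ 2) (w.1 ^ 2 + w.2 ^ 2) =
      Real.pi ^ 2 * ∫ X in Ioi (0:ℝ), ∫ Y in Ioi (0:ℝ), F X Y := by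
  have h : ∀ z : ℝ × ℝ, ∫ w : ℝ × ℝ, F (z.1 ^ 2 + z.2 ^ 2) (w.1 ^ 2 + w.2 ^ 2) =
      Real.pi * ∫ Y in Ioi (0:ℝ), F (z.1 ^ 2 + z.2 ^ 2) Y := fun z =>
    I2_rad2 (fun Y => F (z.1 ^ 2 + z.2 ^ 2) Y)
  rw [integral_congr_ae (Filter.Eventually.of_forall h),
    I2_rad2 (fun X => Real.pi * ∫ Y in Ioi (0:ℝ), F X Y), integral_const_mul]
  ring

/-- product splitting of `C2` -/
theorem I2_split : ∃ Φ : C2 ≃ᵐ (ℝ × ℝ) × (ℝ × ℝ), MeasurePreserving Φ volume volume ∧
    ∀ x : C2, Φ x = ((x 0, x 1), (x 2, x 3)) := by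
  let e1 : C2 ≃ᵐ (Fin 4 → ℝ) := (MeasurableEquiv.toLp 2 (Fin 4 → ℝ)).symm
  have m1 : MeasurePreserving e1 volume volume :=
    (EuclideanSpace.volume_preserving_symm_measurableEquiv_toLp (Fin 4))
  let e2 : (Fin 4 → ℝ) ≃ᵐ (Fin 2 ⊕ Fin 2 → ℝ) :=
    (MeasurableEquiv.piCongrLeft (fun _ => ℝ) (finSumFinEquiv (m := 2) (n := 2))).symm
  have m2 : MeasurePreserving e2 volume volume :=
    (volume_measurePreserving_piCongrLeft (fun _ => ℝ) (finSumFinEquiv (m := 2) (n := 2))).symm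
  let e3 : (Fin 2 ⊕ Fin 2 → ℝ) ≃ᵐ (Fin 2 → ℝ) × (Fin 2 → ℝ) :=
    MeasurableEquiv.sumPiEquivProdPi (fun _ => ℝ)
  have m3 : MeasurePreserving e3 volume volume :=
    volume_measurePreserving_sumPiEquivProdPi (fun _ => ℝ)
  let e4 : (Fin 2 → ℝ) × (Fin 2 → ℝ) ≃ᵐ (ℝ × ℝ) × (ℝ × ℝ) :=
    MeasurableEquiv.prodCongr MeasurableEquiv.finTwoArrow MeasurableEquiv.finTwoArrow
  have m4 : MeasurePreserving e4 volume volume := by
    have := (volume_preserving_finTwoArrow ℝ).prod (volume_preserving_finTwoArrow ℝ)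
    exact this
  refine ⟨((e1.trans e2).trans e3).trans e4, ?_, ?_⟩
  · exact m4.comp (m3.comp (m2.comp m1))
  · intro x
    rfl

theorem I2_c2 (F : ℝ → ℝ → ℝ)
    (hF : Integrable (fun z : (ℝ × ℝ) × (ℝ × ℝ) => F (z.1.1 ^ 2 + z.1.2 ^ 2)
      (z.2.1 ^ 2 + z.2.2 ^ 2))) :
    ∫ x : C2, F (x 0 ^ 2 + x 1 ^ 2) (x 2 ^ 2 + x 3 ^ 2) =
      Real.pi ^ 2 * ∫ X in Ioi (0:ℝ), ∫ Y in Ioi (0:ℝ), F X Y := by
  obtain ⟨Φ, hΦ, hΦx⟩ := I2_split
  have := hΦ.integral_comp Φ.measurableEmbedding (fun z : (ℝ × ℝ) × (ℝ × ℝ) =>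
    F (z.1.1 ^ 2 + z.1.2 ^ 2) (z.2.1 ^ 2 + z.2.2 ^ 2))
  simp only [hΦx] at this
  rw [this, ← I2_rad4, Measure.volume_eq_prod, integral_prod _ hF]

theorem I2_integrable (p q : ℝ) (hp : 0 ≤ p) (hq : 0 ≤ q) (hpq : p + q = 1) :
    Integrable (fun z : (ℝ × ℝ) × (ℝ × ℝ) =>
      |p * (z.1.1 ^ 2 + z.1.2 ^ 2) - q * (z.2.1 ^ 2 + z.2.2 ^ 2)| *
        Real.exp (-(z.2.1 ^ 2 + z.2.2 ^ 2)) * Real.exp (-(z.1.1 ^ 2 + z.1.2 ^ 2))) := by
  have g : Integrable (fun x : ℝ => Real.exp (-(1/2) * x ^ 2)) :=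
    integrable_exp_neg_mul_sq (by norm_num)
  have g2 : Integrable (fun z : ℝ × ℝ => Real.exp (-(1/2) * z.1 ^ 2) *
    Real.exp (-(1/2) * z.2 ^ 2)) := g.mul_prod g
  have g4 : Integrable (fun z : (ℝ × ℝ) × (ℝ × ℝ) => (Real.exp (-(1/2) * z.1.1 ^ 2) *
    Real.exp (-(1/2) * z.1.2 ^ 2)) * (Real.exp (-(1/2) * z.2.1 ^ 2) *
    Real.exp (-(1/2) * z.2.2 ^ 2))) := g2.mul_prod g2
  refine (g4.const_mul 2).mono' ?_ ?_
  · apply Continuous.aestronglyMeasurable
    fun_prop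
  · refine Filter.Eventually.of_forall fun z => ?_
    set X := z.1.1 ^ 2 + z.1.2 ^ 2 with hX
    set Y := z.2.1 ^ 2 + z.2.2 ^ 2 with hY
    have hX0 : 0 ≤ X := by positivity
    have hY0 : 0 ≤ Y := by positivity
    have e1 : Real.exp (-(1/2) * z.1.1 ^ 2) * Real.exp (-(1/2) * z.1.2 ^ 2) *
        (Real.exp (-(1/2) * z.2.1 ^ 2) * Real.exp (-(1/2) * z.2.2 ^ 2)) =
        Real.exp ((X + Y) / 2) * (Real.exp (-Y) * Real.exp (-X)) := by
      rw [← Real.exp_add, ← Real.exp_add, ← Real.exp_add, ← Real.exp_add, ← Real.exp_add]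
      congr 1
      rw [hX, hY]; ring
    rw [e1, Real.norm_of_nonneg (by positivity)]
    have h1 : |p * X - q * Y| ≤ X + Y := by
      rw [abs_le]
      constructor <;> nlinarith
    have h2 : X + Y ≤ 2 * Real.exp ((X + Y) / 2) := by
      have := Real.add_one_le_exp ((X + Y) / 2)
      linarith
    have h3 : 0 ≤ Real.exp (-Y) * Real.exp (-X) := by positivity
    calc |p * X - q * Y| * Real.exp (-Y) * Real.exp (-X)
        = |p * X - q * Y| * (Real.exp (-Y) * Real.exp (-X)) := by ring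
      _ ≤ (2 * Real.exp ((X + Y) / 2)) * (Real.exp (-Y) * Real.exp (-X)) :=
        mul_le_mul_of_nonneg_right (h1.trans h2) h3
      _ = _ := by ring

theorem I2_basis (b : OrthonormalBasis (Fin 4) ℝ C2) (p q : ℝ) (hp : 0 ≤ p) (hq : 0 ≤ q)
    (hpq : p + q = 1) :
    ∫ w : C2, |p * ((inner ℝ (b 0) w : ℝ) ^ 2 + (inner ℝ (b 1) w : ℝ) ^ 2) -
      q * ((inner ℝ (b 2) w : ℝ) ^ 2 + (inner ℝ (b 3) w : ℝ) ^ 2)| * Real.exp (-‖w‖ ^ 2) =
      Real.pi ^ 2 * (p ^ 2 + q ^ 2) := by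
  have h1 := I2_c2 (fun X Y => |p * X - q * Y| * Real.exp (-Y) * Real.exp (-X))
    (I2_integrable p q hp hq hpq)
  rw [I2_outer p q hp hq hpq] at h1
  rw [← h1]
  have h2 := (b.measurePreserving_repr).integral_comp
    b.repr.toHomeomorph.measurableEmbedding (fun x : EuclideanSpace ℝ (Fin 4) =>
      |p * (x 0 ^ 2 + x 1 ^ 2) - q * (x 2 ^ 2 + x 3 ^ 2)| * Real.exp (-(x 2 ^ 2 + x 3 ^ 2)) *
        Real.exp (-(x 0 ^ 2 + x 1 ^ 2)))
  rw [← h2]
  congr 1
  funext w
  have h3 : ‖w‖ ^ 2 = (b.repr w) 0 ^ 2 + (b.repr w) 1 ^ 2 + (b.repr w) 2 ^ 2 +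
      (b.repr w) 3 ^ 2 := by
    rw [← b.repr.norm_map w, EuclideanSpace.norm_sq_eq, Fin.sum_univ_four]
    simp only [Real.norm_eq_abs, sq_abs]
  simp only [b.repr_apply_apply] at h3 ⊢
  rw [h3, mul_assoc, ← Real.exp_add]
  congr 2
  ring

/-- orthogonal complex structures -/
structure I2_CS (u : C2 → C2) : Prop where
  add : ∀ x y, u (x + y) = u x + u y
  smul : ∀ (c : ℝ) x, u (c • x) = c • u x
  inn : ∀ x y, (inner ℝ (u x) (u y) : ℝ) = inner ℝ x y
  sq : ∀ x, u (u x) = -x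

namespace I2_CS
variable {u : C2 → C2} (h : I2_CS u)
include h

theorem skew (x y : C2) : (inner ℝ (u x) y : ℝ) = - inner ℝ x (u y) := by
  rw [← h.inn (u x) y, h.sq, inner_neg_left]

theorem self (x : C2) : (inner ℝ (u x) x : ℝ) = 0 := by
  have := h.skew x x
  rw [real_inner_comm] at this
  have h2 : (inner ℝ x (u x) : ℝ) = inner ℝ (u x) x := real_inner_comm _ _
  linarith

theorem norm (x : C2) : ‖u x‖ = ‖x‖ := by
  have := h.inn x x
  rw [real_inner_self_eq_norm_sq, real_inner_self_eq_norm_sq] at this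
  exact (sq_eq_sq₀ (norm_nonneg _) (norm_nonneg _)).1 this

omit h in
theorem compl (v : C2) : ∃ v' : C2, ‖v'‖ = 1 ∧ (inner ℝ v' v : ℝ) = 0 ∧
    (inner ℝ v' (u v) : ℝ) = 0 := by
  let S : Submodule ℝ C2 := Submodule.span ℝ {v, u v}
  have hS : Module.finrank ℝ S ≤ 2 := by
    have := finrank_span_finset_le_card (R := ℝ) ({v, u v} : Finset C2)
    have h2 : ({v, u v} : Finset C2).card ≤ 2 := Finset.card_le_two
    have h3 : ((({v, u v} : Finset C2) : Set C2)) = {v, u v} := by simp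
    simp only [h3] at this
    exact this.trans h2
  have hS2 : Module.finrank ℝ S + Module.finrank ℝ Sᗮ = 4 := by
    rw [Submodule.finrank_add_finrank_orthogonal]
    simp
  have hpos : 0 < Module.finrank ℝ Sᗮ := by omega
  have : Nontrivial Sᗮ := Module.finrank_pos_iff.1 hpos
  obtain ⟨⟨y, hy⟩, hy0⟩ := exists_ne (0 : Sᗮ)
  have hy0' : y ≠ 0 := fun h => hy0 (Subtype.ext h)
  have hyn : ‖y‖ ≠ 0 := norm_ne_zero_iff.2 hy0'
  refine ⟨‖y‖⁻¹ • y, ?_, ?_, ?_⟩
  · rw [norm_smul, norm_inv, norm_norm, inv_mul_cancel₀ hyn]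
  · rw [real_inner_smul_left]
    have := (Submodule.mem_orthogonal S y).1 hy v (Submodule.subset_span (by simp))
    rw [real_inner_comm] at this
    rw [this, mul_zero]
  · rw [real_inner_smul_left]
    have := (Submodule.mem_orthogonal S y).1 hy (u v) (Submodule.subset_span (by simp))
    rw [real_inner_comm] at this
    rw [this, mul_zero]

theorem onb (v0 v2 : C2) (h0 : ‖v0‖ = 1) (h2 : ‖v2‖ = 1) (h20 : (inner ℝ v2 v0 : ℝ) = 0)
    (h21 : (inner ℝ v2 (u v0) : ℝ) = 0) : ∃ b : OrthonormalBasis (Fin 4) ℝ C2,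
    b 0 = v0 ∧ b 1 = u v0 ∧ b 2 = v2 ∧ b 3 = u v2 := by
  let v : Fin 4 → C2 := ![v0, u v0, v2, u v2]
  have h20' : (inner ℝ v0 v2 : ℝ) = 0 := by rw [real_inner_comm]; exact h20
  have h21' : (inner ℝ (u v0) v2 : ℝ) = 0 := by rw [real_inner_comm]; exact h21
  have h01 : (inner ℝ (u v0) v0 : ℝ) = 0 := h.self v0
  have h01' : (inner ℝ v0 (u v0) : ℝ) = 0 := by rw [real_inner_comm]; exact h01
  have h23 : (inner ℝ (u v2) v2 : ℝ) = 0 := h.self v2
  have h23' : (inner ℝ v2 (u v2) : ℝ) = 0 := by rw [real_inner_comm]; exact h23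
  have h03 : (inner ℝ (u v2) v0 : ℝ) = 0 := by rw [h.skew, h21, neg_zero]
  have h03' : (inner ℝ v0 (u v2) : ℝ) = 0 := by rw [real_inner_comm]; exact h03
  have h13 : (inner ℝ (u v0) (u v2) : ℝ) = 0 := by rw [h.inn]; exact h20'
  have h13' : (inner ℝ (u v2) (u v0) : ℝ) = 0 := by rw [h.inn]; exact h20
  have hv : Orthonormal ℝ v := by
    constructor
    · intro i
      fin_cases i
      · exact h0
      · exact (h.norm v0).trans h0
      · exact h2
      · exact (h.norm v2).trans h2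
    · intro i j hij
      fin_cases i <;> fin_cases j
      · exact absurd rfl hij
      · exact h01'
      · exact h20'
      · exact h03'
      · exact h01
      · exact absurd rfl hij
      · exact h21'
      · exact h13
      · exact h20
      · exact h21
      · exact absurd rfl hij
      · exact h23'
      · exact h03
      · exact h13'
      · exact h23
      · exact absurd rfl hij
  obtain ⟨b, hb⟩ := Orthonormal.exists_orthonormalBasis_extension_of_card_eq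
    (𝕜 := ℝ) (E := C2) (ι := Fin 4) (by simp) (v := v) (s := univ)
    (hv.comp (fun i : (univ : Set (Fin 4)) => (i : Fin 4)) Subtype.val_injective)
  exact ⟨b, hb 0 (mem_univ _), hb 1 (mem_univ _), hb 2 (mem_univ _), hb 3 (mem_univ _)⟩

theorem decomp (e f : C2) (he : ‖e‖ = 1) (hf : ‖f‖ = 1) (hef : (inner ℝ e f : ℝ) = 0) :
    |(inner ℝ (u e) f : ℝ)| ≤ 1 ∧ ∃ b : OrthonormalBasis (Fin 4) ℝ C2, ∀ w : C2,
      (inner ℝ e w : ℝ) * inner ℝ f (u w) - (inner ℝ f w : ℝ) * inner ℝ e (u w) =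
      ((1 + inner ℝ (u e) f) / 2) * ((inner ℝ (b 0) w : ℝ) ^ 2 + (inner ℝ (b 1) w : ℝ) ^ 2) -
      ((1 - inner ℝ (u e) f) / 2) * ((inner ℝ (b 2) w : ℝ) ^ 2 + (inner ℝ (b 3) w : ℝ) ^ 2) := by
  set t : ℝ := inner ℝ (u e) f with ht
  have hue : ‖u e‖ = 1 := (h.norm e).trans he
  have huf : ‖u f‖ = 1 := (h.norm f).trans hf
  have ht1 : |t| ≤ 1 := by
    have := abs_real_inner_le_norm (u e) f
    rwa [hue, hf, one_mul] at this
  refine ⟨ht1, ?_⟩
  have heuf : (inner ℝ e (u f) : ℝ) = -t := by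
    have := h.skew e f; rw [ht, this, neg_neg]
  have hufe : (inner ℝ (u f) e : ℝ) = -t := by rw [real_inner_comm]; exact heuf
  have htl : -1 ≤ t := (abs_le.1 ht1).1
  have htr : t ≤ 1 := (abs_le.1 ht1).2
  set g1 := e - u f with hg1
  set g3 := e + u f with hg3
  have ug1 : u g1 = u e + f := by
    rw [hg1, sub_eq_add_neg, h.add, show -(u f) = (-1:ℝ) • u f by simp, h.smul, h.sq]; simp
  have ug3 : u g3 = u e - f := by
    rw [hg3, h.add, h.sq, sub_eq_add_neg]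
  have n1 : ‖g1‖ ^ 2 = 2 + 2 * t := by
    rw [hg1, norm_sub_sq_real, he, huf, heuf]; ring
  have n3 : ‖g3‖ ^ 2 = 2 - 2 * t := by
    rw [hg3, norm_add_sq_real, he, huf, heuf]; ring
  have i31 : (inner ℝ g3 g1 : ℝ) = 0 := by
    rw [hg1, hg3, inner_add_left, inner_sub_right, inner_sub_right,
      real_inner_self_eq_norm_sq, real_inner_self_eq_norm_sq, he, huf, hufe, heuf]
    ring
  have i3u1 : (inner ℝ g3 (u g1) : ℝ) = 0 := by
    rw [ug1, hg3, inner_add_left, inner_add_right, inner_add_right, hef, h.inn,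
      h.self f, real_inner_comm (u e) e, h.self e, real_inner_comm e f, hef]
    ring
  -- unit vectors
  have key : ∃ v0 v2 : C2, ‖v0‖ = 1 ∧ ‖v2‖ = 1 ∧ (inner ℝ v2 v0 : ℝ) = 0 ∧
      (inner ℝ v2 (u v0) : ℝ) = 0 ∧ g1 = ‖g1‖ • v0 ∧ g3 = ‖g3‖ • v2 := by
    by_cases c1 : g1 = 0
    · have c3 : g3 ≠ 0 := by
        intro c3
        rw [c1, norm_zero] at n1
        rw [c3, norm_zero] at n3
        linarith
      have hn : ‖g3‖ ≠ 0 := norm_ne_zero_iff.2 c3
      have hv2 : ‖‖g3‖⁻¹ • g3‖ = 1 := by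
        rw [norm_smul, norm_inv, norm_norm, inv_mul_cancel₀ hn]
      obtain ⟨v0, a1, a2, a3⟩ := compl (u := u) (‖g3‖⁻¹ • g3)
      refine ⟨v0, ‖g3‖⁻¹ • g3, a1, hv2, ?_, ?_, ?_, ?_⟩
      · rw [real_inner_comm]; exact a2
      · have := h.skew (‖g3‖⁻¹ • g3) v0
        rw [real_inner_comm, a3] at this
        linarith
      · rw [c1]; simp
      · rw [smul_smul, mul_inv_cancel₀ hn, one_smul]
    · have hn1 : ‖g1‖ ≠ 0 := norm_ne_zero_iff.2 c1
      have hv0 : ‖‖g1‖⁻¹ • g1‖ = 1 := by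
        rw [norm_smul, norm_inv, norm_norm, inv_mul_cancel₀ hn1]
      by_cases c3 : g3 = 0
      · obtain ⟨v2, a1, a2, a3⟩ := compl (u := u) (‖g1‖⁻¹ • g1)
        refine ⟨‖g1‖⁻¹ • g1, v2, hv0, a1, a2, a3, ?_, ?_⟩
        · rw [smul_smul, mul_inv_cancel₀ hn1, one_smul]
        · rw [c3]; simp
      · have hn : ‖g3‖ ≠ 0 := norm_ne_zero_iff.2 c3
        have hv2 : ‖‖g3‖⁻¹ • g3‖ = 1 := by
          rw [norm_smul, norm_inv, norm_norm, inv_mul_cancel₀ hn]
        refine ⟨‖g1‖⁻¹ • g1, ‖g3‖⁻¹ • g3, hv0, hv2, ?_, ?_, ?_, ?_⟩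
        · rw [real_inner_smul_left, real_inner_smul_right, i31]; simp
        · rw [h.smul, real_inner_smul_left, real_inner_smul_right, i3u1]; simp
        · rw [smul_smul, mul_inv_cancel₀ hn1, one_smul]
        · rw [smul_smul, mul_inv_cancel₀ hn, one_smul]
  obtain ⟨v0, v2, a0, a2, b1, b2, d1, d3⟩ := key
  obtain ⟨b, hb0, hb1, hb2, hb3⟩ := h.onb v0 v2 a0 a2 b1 b2
  refine ⟨b, fun w => ?_⟩
  rw [hb0, hb1, hb2, hb3]
  have q0 : (inner ℝ g1 w : ℝ) = ‖g1‖ * inner ℝ v0 w := by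
    conv_lhs => rw [d1]
    rw [real_inner_smul_left]
  have q1 : (inner ℝ (u g1) w : ℝ) = ‖g1‖ * inner ℝ (u v0) w := by
    conv_lhs => rw [d1]
    rw [h.smul, real_inner_smul_left]
  have q2 : (inner ℝ g3 w : ℝ) = ‖g3‖ * inner ℝ v2 w := by
    conv_lhs => rw [d3]
    rw [real_inner_smul_left]
  have q3 : (inner ℝ (u g3) w : ℝ) = ‖g3‖ * inner ℝ (u v2) w := by
    conv_lhs => rw [d3]
    rw [h.smul, real_inner_smul_left]
  have r0 : (inner ℝ g1 w : ℝ) = inner ℝ e w - inner ℝ (u f) w := by rw [hg1, inner_sub_left]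
  have r1 : (inner ℝ (u g1) w : ℝ) = inner ℝ (u e) w + inner ℝ f w := by
    rw [ug1, inner_add_left]
  have r2 : (inner ℝ g3 w : ℝ) = inner ℝ e w + inner ℝ (u f) w := by rw [hg3, inner_add_left]
  have r3 : (inner ℝ (u g3) w : ℝ) = inner ℝ (u e) w - inner ℝ f w := by
    rw [ug3, inner_sub_left]
  have s1 : (inner ℝ f (u w) : ℝ) = - inner ℝ (u f) w := by rw [h.skew, neg_neg]
  have s2 : (inner ℝ e (u w) : ℝ) = - inner ℝ (u e) w := by rw [h.skew, neg_neg]
  have m1 : (1 + t) / 2 * ((inner ℝ v0 w : ℝ) ^ 2 + (inner ℝ (u v0) w : ℝ) ^ 2) =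
      ((inner ℝ g1 w : ℝ) ^ 2 + (inner ℝ (u g1) w : ℝ) ^ 2) / 4 := by
    rw [q0, q1]
    have : (‖g1‖ * (inner ℝ v0 w : ℝ)) ^ 2 + (‖g1‖ * (inner ℝ (u v0) w : ℝ)) ^ 2 =
      ‖g1‖ ^ 2 * ((inner ℝ v0 w : ℝ) ^ 2 + (inner ℝ (u v0) w : ℝ) ^ 2) := by ring
    rw [this, n1]; ring
  have m3 : (1 - t) / 2 * ((inner ℝ v2 w : ℝ) ^ 2 + (inner ℝ (u v2) w : ℝ) ^ 2) =
      ((inner ℝ g3 w : ℝ) ^ 2 + (inner ℝ (u g3) w : ℝ) ^ 2) / 4 := by
    rw [q2, q3]
    have : (‖g3‖ * (inner ℝ v2 w : ℝ)) ^ 2 + (‖g3‖ * (inner ℝ (u v2) w : ℝ)) ^ 2 =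
      ‖g3‖ ^ 2 * ((inner ℝ v2 w : ℝ) ^ 2 + (inner ℝ (u v2) w : ℝ) ^ 2) := by ring
    rw [this, n3]; ring
  rw [m1, m3, r0, r1, r2, r3, s1, s2]
  ring

end I2_CS

/-- area of the shadow of a flat body -/
theorem I2_area_flat {u : C2 → C2} (e f : C2) (D : Set (ℝ × ℝ)) (K : Body)
    (hK : pts K = (fun p : ℝ × ℝ => p.1 • e + p.2 • f) '' D) (w : C2) :
    area u K w = |(inner ℝ e w : ℝ) * inner ℝ f (u w) - (inner ℝ f w : ℝ) * inner ℝ e (u w)| *
      (volume D).toReal := by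
  unfold area
  rw [hK, image_image]
  let L : (ℝ × ℝ) →ₗ[ℝ] (ℝ × ℝ) :=
    { toFun := fun p => (p.1 * (inner ℝ e w : ℝ) + p.2 * (inner ℝ f w : ℝ),
        p.1 * (inner ℝ e (u w) : ℝ) + p.2 * (inner ℝ f (u w) : ℝ))
      map_add' := by
        intro x y
        simp only [Prod.fst_add, Prod.snd_add, Prod.mk_add_mk]
        congr 1 <;> ring
      map_smul' := by
        intro c x
        simp only [Prod.smul_fst, Prod.smul_snd, smul_eq_mul, Prod.smul_mk, RingHom.id_apply]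
        congr 1 <;> ring }
  have h1 : (fun x : ℝ × ℝ => ((inner ℝ (x.1 • e + x.2 • f) w : ℝ),
      (inner ℝ (x.1 • e + x.2 • f) (u w) : ℝ))) = L := by
    funext x
    simp only [inner_add_left, real_inner_smul_left]
    rfl
  rw [h1, Measure.addHaar_image_linearMap, ENNReal.toReal_mul,
    ENNReal.toReal_ofReal (abs_nonneg _)]
  congr 2
  have hdet : LinearMap.det L = Matrix.det !![(inner ℝ e w : ℝ), inner ℝ f w;
      inner ℝ e (u w), inner ℝ f (u w)] := by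
    rw [← LinearMap.det_toMatrix (Module.Basis.finTwoProd ℝ)]
    congr 1
    ext i j
    fin_cases i <;> fin_cases j <;>
      simp [LinearMap.toMatrix_apply, L, Module.Basis.finTwoProd]
  rw [hdet, Matrix.det_fin_two_of]

theorem I2_Mu_flat {u : C2 → C2} (h : I2_CS u) (e f : C2) (he : ‖e‖ = 1) (hf : ‖f‖ = 1)
    (hef : (inner ℝ e f : ℝ) = 0) (D : Set (ℝ × ℝ)) (K : Body)
    (hK : pts K = (fun p : ℝ × ℝ => p.1 • e + p.2 • f) '' D) :
    Mu u K = (1 + (inner ℝ (u e) f : ℝ) ^ 2) / 4 * (volume D).toReal := by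
  obtain ⟨ht, b, hb⟩ := h.decomp e f he hf hef
  have h1 : ∀ w : C2, area u K w * Real.exp (-‖w‖ ^ 2) =
      (volume D).toReal * (|((1 + inner ℝ (u e) f) / 2) * ((inner ℝ (b 0) w : ℝ) ^ 2 +
        (inner ℝ (b 1) w : ℝ) ^ 2) - ((1 - inner ℝ (u e) f) / 2) *
        ((inner ℝ (b 2) w : ℝ) ^ 2 + (inner ℝ (b 3) w : ℝ) ^ 2)| * Real.exp (-‖w‖ ^ 2)) := by
    intro w
    rw [I2_area_flat e f D K hK w, hb w]
    ring
  unfold Mu
  simp_rw [h1]
  have h2 := abs_le.1 ht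
  rw [integral_const_mul, I2_basis b _ _ (by linarith [h2.1]) (by linarith [h2.2]) (by ring)]
  have := Real.pi_ne_zero
  field_simp
  ring

theorem I2_CS_J : I2_CS J where
  add x y := by
    ext i
    fin_cases i <;> simp [J] <;> ring
  smul c x := by
    ext i
    fin_cases i <;> simp [J]
  inn x y := by
    simp [J, PiLp.inner_apply, Fin.sum_univ_four]
    ring
  sq x := by
    ext i
    fin_cases i <;> simp [J]

theorem I2_CS_Uq (α : ℝ) : I2_CS (Uq α) where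
  add x y := by
    ext i
    fin_cases i <;> simp [Uq, Iq, Kq] <;> ring
  smul c x := by
    ext i
    fin_cases i <;> simp [Uq, Iq, Kq] <;> ring
  inn x y := by
    simp [Uq, Iq, Kq, PiLp.inner_apply, Fin.sum_univ_four]
    have := Real.sin_sq_add_cos_sq α
    have h : Real.cos α ^ 2 = 1 - Real.sin α ^ 2 := by linarith
    ring_nf
    rw [h]
    ring
  sq x := by
    have := Real.sin_sq_add_cos_sq α
    have h : Real.cos α ^ 2 = 1 - Real.sin α ^ 2 := by linarith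
    ext i
    fin_cases i <;> simp [Uq, Iq, Kq] <;> ring_nf <;> rw [h] <;> ring

theorem muab_klain (a b : ℝ) : HasKlain a b (muab a b) := by
  intro e f he hf hef D K hK
  set V := (volume D).toReal with hV
  have h1 : Mu J K = (1 + (kahler e f) ^ 2) / 4 * V :=
    I2_Mu_flat I2_CS_J e f he hf hef D K hK
  set i : ℝ := inner ℝ (Iq e) f with hi
  set k : ℝ := inner ℝ (Kq e) f with hk
  have h2 : ∀ α, Mu (Uq α) K = (1 + (Real.cos α * i + Real.sin α * k) ^ 2) / 4 * V := by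
    intro α
    rw [I2_Mu_flat (I2_CS_Uq α) e f he hf hef D K hK]
    have : (inner ℝ (Uq α e) f : ℝ) = Real.cos α * i + Real.sin α * k := by
      unfold Uq
      rw [inner_add_left, real_inner_smul_left, real_inner_smul_left]
    rw [this]
  have h3 : kahler e f ^ 2 + i ^ 2 + k ^ 2 = 1 := by
    have e1 : (inner ℝ e f : ℝ) ^ 2 + (kahler e f ^ 2 + i ^ 2 + k ^ 2) = ‖e‖ ^ 2 * ‖f‖ ^ 2 := by
      rw [hi, hk, EuclideanSpace.norm_sq_eq, EuclideanSpace.norm_sq_eq]
      simp [kahler, J, Iq, Kq, PiLp.inner_apply, Fin.sum_univ_four]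
      ring
    rw [hef, he, hf] at e1
    linarith
  have h4 : MLag K = (1 + (i ^ 2 + k ^ 2) / 2) / 4 * V := by
    unfold MLag
    have e1 : ∀ α, Mu (Uq α) K = (1 / 4 * V) * (1 : ℝ) + ((i ^ 2 * V / 4) * Real.cos α ^ 2 +
        ((k ^ 2 * V / 4) * Real.sin α ^ 2 + (i * k * V / 2) * (Real.sin α * Real.cos α))) := by
      intro α
      rw [h2]; ring
    simp_rw [e1]
    rw [intervalIntegral.integral_add, intervalIntegral.integral_add, intervalIntegral.integral_add,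
      intervalIntegral.integral_const_mul, intervalIntegral.integral_const_mul,
      intervalIntegral.integral_const_mul, intervalIntegral.integral_const_mul,
      integral_sin_sq, integral_cos_sq, integral_sin_mul_cos₁]
    · simp
      have := Real.pi_ne_zero
      field_simp
    all_goals
      apply Continuous.intervalIntegrable
      fun_prop
  unfold muab
  rw [h1, h4]
  have h5 : |kahler e f| ^ 2 = kahler e f ^ 2 := sq_abs _
  rw [h5]
  have h6 : i ^ 2 + k ^ 2 = 1 - kahler e f ^ 2 := by linarith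
  rw [h6]
  ring

end Pool.Agent.Helper85.Cap
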