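import Mathlib
/-!
Module H: continuity of Haar measure on convex bodies (Hausdorff metric).
-/
set_option autoImplicit false
open MeasureTheory Metric Set Filter Topology
open scoped ENNReal

namespace Pool.Agent.Helper85.Cap

theorem H_center_mem {V : Type*} [NormedAddCommGroup V] [NormedSpace ℝ V]
    (A' : Set V) (hA'c : Convex ℝ A') (hA'cl : IsClosed A') (hne : A'.Nonempty)
    (A : Set V) (c : V) (ρ ρ' : ℝ) (hρ : 0 < ρ) (hρ' : ρ' < ρ) (hρ'0 : 0 ≤ ρ')
    (hb : closedBall c ρ ⊆ A) (hA : ∀ x ∈ A, ∃ y ∈ A', dist x y ≤ ρ') : c ∈ A' := by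
  by_contra hc
  obtain ⟨φ, u, h1, h2⟩ := geometric_hahn_banach_closed_point hA'c hA'cl hc
  have hφ : φ ≠ 0 := by
    rintro rfl
    obtain ⟨a, ha⟩ := hne
    have := h1 a ha
    simp at this h2
    linarith
  have hφ0 : 0 < ‖φ‖ := norm_pos_iff.2 hφ
  have key : ∀ w : V, ‖w‖ = 1 → φ w ≤ ‖φ‖ * ρ' / ρ := by
    intro w hw
    have hmem : c + ρ • w ∈ closedBall c ρ := by
      rw [mem_closedBall, dist_eq_norm, add_sub_cancel_left, norm_smul, hw, mul_one,
        Real.norm_of_nonneg hρ.le]
    obtain ⟨y, hy, hd⟩ := hA _ (hb hmem)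
    have h3 := h1 y hy
    have h4 : φ (c + ρ • w) - φ y ≤ ‖φ‖ * ρ' := by
      rw [← map_sub]
      calc φ (c + ρ • w - y) ≤ ‖φ (c + ρ • w - y)‖ := le_abs_self _
        _ ≤ ‖φ‖ * ‖c + ρ • w - y‖ := φ.le_opNorm _
        _ ≤ ‖φ‖ * ρ' := by
          rw [← dist_eq_norm]
          exact mul_le_mul_of_nonneg_left hd hφ0.le
    rw [map_add, map_smul, smul_eq_mul] at h4
    rw [le_div_iff₀ hρ]
    linarith
  have h5 : ‖φ‖ ≤ ‖φ‖ * ρ' / ρ := by
    refine ContinuousLinearMap.opNorm_le_of_unit_norm (by positivity) ?_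
    intro w hw
    rw [Real.norm_eq_abs, abs_le]
    constructor
    · have := key (-w) (by rw [norm_neg, hw])
      rw [map_neg] at this
      linarith
    · exact key w hw
  rw [le_div_iff₀ hρ] at h5
  have h6 : ‖φ‖ * ρ' < ‖φ‖ * ρ := mul_lt_mul_of_pos_left hρ' hφ0
  linarith

theorem H_sub {V : Type*} [NormedAddCommGroup V] [NormedSpace ℝ V]
    (K L : ConvexBody V) (δ : ℝ) (h : dist L K < δ) :
    (L : Set V) ⊆ cthickening δ (K : Set V) := by
  intro x hx
  have h' : hausdorffDist (L : Set V) K < δ := by rwa [ConvexBody.hausdorffDist_coe]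
  obtain ⟨y, hy, hd⟩ := exists_dist_lt_of_hausdorffDist_lt hx h' ConvexBody.hausdorffEDist_ne_top
  exact mem_cthickening_of_dist_le x y δ _ hy hd.le

theorem H_sup {V : Type*} [NormedAddCommGroup V] [NormedSpace ℝ V]
    (K L : ConvexBody V) (δ : ℝ) (hδ : 0 < δ) (h : dist L K < δ) :
    {c : V | closedBall c δ ⊆ (K : Set V)} ⊆ (L : Set V) := by
  intro c hc
  refine H_center_mem (L : Set V) L.convex L.isCompact.isClosed L.nonempty (K : Set V) c δ
    ((dist L K + δ) / 2) hδ (by linarith) (by have := dist_nonneg (x := L) (y := K); linarith) hc ?_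
  intro x hx
  have h' : hausdorffDist (K : Set V) L < (dist L K + δ) / 2 := by
    rw [ConvexBody.hausdorffDist_coe, dist_comm]; linarith
  obtain ⟨y, hy, hd⟩ := exists_dist_lt_of_hausdorffDist_lt hx h' ConvexBody.hausdorffEDist_ne_top
  exact ⟨y, hy, hd.le⟩

theorem H_interior {V : Type*} [NormedAddCommGroup V] (K : Set V) :
    interior K = ⋃ n : ℕ, {c : V | closedBall c (1 / ((n : ℝ) + 1)) ⊆ K} := by
  ext x
  simp only [mem_iUnion, mem_setOf_eq]
  constructor
  · intro hx
    rw [mem_interior_iff_mem_nhds, Metric.mem_nhds_iff] at hx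
    obtain ⟨ε, hε, hs⟩ := hx
    obtain ⟨n, hn⟩ := exists_nat_one_div_lt hε
    exact ⟨n, (closedBall_subset_ball hn).trans hs⟩
  · rintro ⟨n, hn⟩
    rw [mem_interior_iff_mem_nhds]
    exact mem_of_superset (closedBall_mem_nhds x (by positivity)) hn

theorem H_tendsto {V : Type*} [NormedAddCommGroup V] [NormedSpace ℝ V]
    [FiniteDimensional ℝ V] [MeasurableSpace V] [BorelSpace V] (μ : Measure V)
    [μ.IsAddHaarMeasure] (K : ConvexBody V) :
    Tendsto (fun L : ConvexBody V => μ (L : Set V)) (𝓝 K) (𝓝 (μ (K : Set V))) := by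
  rw [tendsto_order]
  constructor
  · intro a ha
    have h1 : μ (interior (K : Set V)) = μ (K : Set V) := by
      refine measure_interior_of_null_frontier ?_
      exact Convex.addHaar_frontier μ K.convex
    rw [← h1, H_interior, Monotone.measure_iUnion] at ha
    · obtain ⟨n, hn⟩ := lt_iSup_iff.1 ha
      have hpos : (0 : ℝ) < 1 / ((n : ℝ) + 1) := by positivity
      filter_upwards [Metric.ball_mem_nhds K hpos] with L hL
      exact hn.trans_le (measure_mono (H_sup K L _ hpos hL))
    · intro m n hmn c hc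
      refine (closedBall_subset_closedBall ?_).trans hc
      exact one_div_le_one_div_of_le (by positivity) (by exact_mod_cast Nat.succ_le_succ hmn)
  · intro a ha
    have h1 : Tendsto (fun δ : ℝ => μ (cthickening δ (K : Set V))) (𝓝 0) (𝓝 (μ (K : Set V))) := by
      haveI : ProperSpace V := FiniteDimensional.proper ℝ V
      exact tendsto_measure_cthickening_of_isCompact K.isCompact
    have h2 := (tendsto_order.1 h1).2 a ha
    obtain ⟨ε, hε, hs⟩ := Metric.eventually_nhds_iff.1 h2
    have h3 : μ (cthickening (ε / 2) (K : Set V)) < a := by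
      apply hs
      rw [Real.dist_eq, sub_zero, abs_of_pos (by linarith)]
      linarith
    filter_upwards [Metric.ball_mem_nhds K (half_pos hε)] with L hL
    exact (measure_mono (H_sub K L _ hL)).trans_lt h3

/-! ### Module H -/
theorem continuous_volume_convexBody {V : Type*} [NormedAddCommGroup V] [NormedSpace ℝ V]
    [FiniteDimensional ℝ V] [MeasurableSpace V] [BorelSpace V] (μ : Measure V)
    [μ.IsAddHaarMeasure] : Continuous (fun K : ConvexBody V => (μ (K : Set V)).toReal) := by
  rw [continuous_iff_continuousAt]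
  intro K
  refine (ENNReal.tendsto_toReal ?_).comp (H_tendsto μ K)
  exact K.isCompact.measure_lt_top.ne

end Pool.Agent.Helper85.Cap
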