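import Pool.Agent.Helper85.Cap.Defs
import Pool.Agent.Helper85.Cap.H
/-!
Module I1: valuation, continuity, invariance and homogeneity of `muab`.
-/
set_option autoImplicit false
open MeasureTheory Metric Set Filter Topology
open scoped ENNReal Pointwise
open Pool.Agent.Helper85.Herm

namespace Pool.Agent.Helper85.Cap

theorem I1_normJ (x : C2) : ‖J x‖ = ‖x‖ := by
  rw [EuclideanSpace.norm_eq, EuclideanSpace.norm_eq]
  congr 1
  simp [J, Fin.sum_univ_four]
  ring

theorem I1_normUq (α : ℝ) (x : C2) : ‖Uq α x‖ = ‖x‖ := by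
  rw [EuclideanSpace.norm_eq, EuclideanSpace.norm_eq]
  congr 1
  simp [Uq, Iq, Kq, Fin.sum_univ_four]
  have := Real.cos_sq_add_sin_sq α
  linear_combination (x 0 ^ 2 + x 1 ^ 2 + x 2 ^ 2 + x 3 ^ 2) * this

theorem I1_contJ : Continuous J := by
  unfold J
  fun_prop

theorem I1_contIq : Continuous Iq := by
  unfold Iq
  fun_prop

theorem I1_contKq : Continuous Kq := by
  unfold Kq
  fun_prop

theorem I1_contUq : Continuous (fun p : ℝ × C2 => Uq p.1 p.2) := by
  unfold Uq
  have := I1_contIq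
  have := I1_contKq
  fun_prop

/-- the linear map `x ↦ (⟨x, q₁⟩, ⟨x, q₂⟩)` -/
noncomputable def I1_P (q : C2 × C2) : C2 →ₗ[ℝ] ℝ × ℝ where
  toFun x := ((inner ℝ x q.1 : ℝ), (inner ℝ x q.2 : ℝ))
  map_add' x y := by simp [inner_add_left]
  map_smul' c x := by simp [inner_smul_left]

theorem I1_P_apply (q : C2 × C2) (x : C2) :
    I1_P q x = ((inner ℝ x q.1 : ℝ), (inner ℝ x q.2 : ℝ)) := rfl

theorem I1_P_norm (q : C2 × C2) (x : C2) : ‖I1_P q x‖ ≤ ‖x‖ * ‖q‖ := by
  rw [I1_P_apply, Prod.norm_def]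
  refine max_le ?_ ?_
  · exact (norm_inner_le_norm x q.1).trans
      (mul_le_mul_of_nonneg_left (norm_fst_le q) (norm_nonneg _))
  · exact (norm_inner_le_norm x q.2).trans
      (mul_le_mul_of_nonneg_left (norm_snd_le q) (norm_nonneg _))

theorem I1_P_sub (q q' : C2 × C2) (x x' : C2) :
    I1_P q x - I1_P q' x' = I1_P q (x - x') + I1_P (q - q') x' := by
  simp only [I1_P_apply, Prod.mk_sub_mk, Prod.mk_add_mk, Prod.fst_sub, Prod.snd_sub,
    inner_sub_left, inner_sub_right]
  refine Prod.ext ?_ ?_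
  · simp only
    ring
  · simp only
    ring

theorem I1_P_cont (q : C2 × C2) : Continuous (I1_P q) := by
  have : (fun x => I1_P q x) = fun x : C2 => ((inner ℝ x q.1 : ℝ), (inner ℝ x q.2 : ℝ)) := rfl
  change Continuous (fun x => I1_P q x)
  rw [this]
  fun_prop

/-- image of a body -/
noncomputable def I1_img (K : Body) (q : C2 × C2) : ConvexBody (ℝ × ℝ) where
  carrier := I1_P q '' pts K
  convex' := K.convex.linear_image (I1_P q)
  isCompact' := K.isCompact.image (I1_P_cont q)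
  nonempty' := K.nonempty.image _

noncomputable def I1_ar (K : Body) (q : C2 × C2) : ℝ := (volume (I1_P q '' pts K)).toReal

theorem I1_area (u : C2 → C2) (K : Body) (w : C2) : area u K w = I1_ar K (w, u w) := rfl

theorem I1_bdd (K : Body) : ∃ R : ℝ, 0 ≤ R ∧ ∀ x ∈ pts K, ‖x‖ ≤ R := by
  obtain ⟨R, hR⟩ := K.isBounded.exists_norm_le
  refine ⟨max R 0, le_max_right _ _, fun x hx => (hR x hx).trans (le_max_left _ _)⟩

theorem I1_near (K L : Body) (δ : ℝ) (h : dist K L < δ) (x : C2) (hx : x ∈ pts K) :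
    ∃ y ∈ pts L, dist x y < δ := by
  have h' : hausdorffDist (K : Set C2) L < δ := by rwa [ConvexBody.hausdorffDist_coe]
  exact exists_dist_lt_of_hausdorffDist_lt hx h' ConvexBody.hausdorffEDist_ne_top

theorem I1_img_continuous : Continuous (fun t : Body × (C2 × C2) => I1_img t.1 t.2) := by
  rw [continuous_iff_continuousAt]
  rintro ⟨K₀, q₀⟩
  obtain ⟨R, hR0, hR⟩ := I1_bdd K₀
  rw [Metric.continuousAt_iff]
  intro ε hε
  set C : ℝ := ‖q₀‖ + 1 + R + 1 with hC
  have hCpos : 0 < C := by positivity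
  refine ⟨min 1 (ε / C), lt_min one_pos (div_pos hε hCpos), ?_⟩
  rintro ⟨K, q⟩ hd
  set δ : ℝ := min 1 (ε / C) with hδ
  have hδpos : 0 < δ := lt_min one_pos (div_pos hε hCpos)
  have hd1 : dist K K₀ < δ := (le_max_left _ _).trans_lt hd
  have hd2 : dist q q₀ < δ := (le_max_right _ _).trans_lt hd
  rw [dist_eq_norm] at hd2
  have hq : ‖q‖ ≤ ‖q₀‖ + 1 := by
    have h1 : ‖q‖ ≤ ‖q₀‖ + ‖q - q₀‖ := by
      have := norm_add_le q₀ (q - q₀)
      rwa [add_sub_cancel] at this
    have h2 : δ ≤ 1 := min_le_left _ _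
    linarith
  have hkey : ∀ x x₀ : C2, x₀ ∈ pts K₀ → dist x x₀ < δ →
      dist (I1_P q x) (I1_P q₀ x₀) ≤ (‖q₀‖ + 1 + R) * δ := by
    intro x x₀ hx₀ hxx
    rw [dist_eq_norm] at hxx ⊢
    rw [I1_P_sub]
    calc ‖I1_P q (x - x₀) + I1_P (q - q₀) x₀‖ ≤ ‖I1_P q (x - x₀)‖ + ‖I1_P (q - q₀) x₀‖ :=
          norm_add_le _ _
      _ ≤ ‖x - x₀‖ * ‖q‖ + ‖x₀‖ * ‖q - q₀‖ := add_le_add (I1_P_norm _ _) (I1_P_norm _ _)
      _ ≤ δ * (‖q₀‖ + 1) + R * δ := by
          refine add_le_add ?_ ?_
          · exact mul_le_mul hxx.le hq (norm_nonneg _) hδpos.le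
          · exact mul_le_mul (hR _ hx₀) hd2.le (norm_nonneg _) hR0
      _ = (‖q₀‖ + 1 + R) * δ := by ring
  have h3 : dist (I1_img K q) (I1_img K₀ q₀) ≤ (‖q₀‖ + 1 + R) * δ := by
    rw [← ConvexBody.hausdorffDist_coe]
    refine hausdorffDist_le_of_mem_dist (by positivity) ?_ ?_
    · rintro _ ⟨x, hx, rfl⟩
      obtain ⟨x₀, hx₀, hxx⟩ := I1_near K K₀ δ hd1 x hx
      exact ⟨_, ⟨x₀, hx₀, rfl⟩, hkey x x₀ hx₀ hxx⟩
    · rintro _ ⟨x₀, hx₀, rfl⟩
      obtain ⟨x, hx, hxx⟩ := I1_near K₀ K δ (by rwa [dist_comm]) x₀ hx₀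
      refine ⟨_, ⟨x, hx, rfl⟩, ?_⟩
      rw [dist_comm]
      exact hkey x x₀ hx₀ (by rwa [dist_comm])
  calc dist (I1_img K q) (I1_img K₀ q₀) ≤ (‖q₀‖ + 1 + R) * δ := h3
    _ < C * δ := by
        refine mul_lt_mul_of_pos_right ?_ hδpos
        rw [hC]; linarith
    _ ≤ C * (ε / C) := mul_le_mul_of_nonneg_left (min_le_right _ _) hCpos.le
    _ = ε := mul_div_cancel₀ ε hCpos.ne'

theorem I1_ar_continuous : Continuous (fun t : Body × (C2 × C2) => I1_ar t.1 t.2) :=
  (continuous_volume_convexBody (V := ℝ × ℝ) volume).comp I1_img_continuous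

theorem I1_ar_comp {T : Type*} [TopologicalSpace T] (κ : T → Body) (y z : T → C2)
    (hκ : Continuous κ) (hy : Continuous y) (hz : Continuous z) :
    Continuous (fun t => I1_ar (κ t) (y t, z t)) :=
  Continuous.comp (g := fun t : Body × (C2 × C2) => I1_ar t.1 t.2)
    (f := fun t => (κ t, (y t, z t))) I1_ar_continuous (hκ.prodMk (hy.prodMk hz))

theorem I1_area_nonneg (u : C2 → C2) (K : Body) (w : C2) : 0 ≤ area u K w :=
  ENNReal.toReal_nonneg

theorem I1_ar_nonneg (K : Body) (q : C2 × C2) : 0 ≤ I1_ar K q := ENNReal.toReal_nonneg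

theorem I1_vol_closedBall (r : ℝ) (hr : 0 ≤ r) :
    (volume (closedBall (0 : ℝ × ℝ) r)).toReal = 4 * r ^ 2 := by
  have h1 : closedBall (0 : ℝ × ℝ) r = closedBall (0 : ℝ) r ×ˢ closedBall (0 : ℝ) r := by
    rw [closedBall_prod_same]
    rfl
  rw [h1, Measure.volume_eq_prod, Measure.prod_prod, Real.volume_closedBall,
    ← ENNReal.ofReal_mul (by positivity), ENNReal.toReal_ofReal (by positivity)]
  ring

theorem I1_ar_le (K : Body) (R : ℝ) (hR0 : 0 ≤ R) (hR : ∀ x ∈ pts K, ‖x‖ ≤ R) (q : C2 × C2) :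
    I1_ar K q ≤ 4 * R ^ 2 * ‖q‖ ^ 2 := by
  have h1 : I1_P q '' pts K ⊆ closedBall (0 : ℝ × ℝ) (R * ‖q‖) := by
    rintro _ ⟨x, hx, rfl⟩
    rw [mem_closedBall_zero_iff]
    exact (I1_P_norm q x).trans (mul_le_mul_of_nonneg_right (hR x hx) (norm_nonneg _))
  have h2 := ENNReal.toReal_mono (measure_closedBall_lt_top (μ := volume)
    (x := (0 : ℝ × ℝ)) (r := R * ‖q‖)).ne (measure_mono h1)
  rw [I1_vol_closedBall _ (by positivity)] at h2
  unfold I1_ar
  linarith [mul_pow R ‖q‖ 2]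

theorem I1_area_le (u : C2 → C2) (hu : ∀ w, ‖u w‖ = ‖w‖) (K : Body) (R : ℝ) (hR0 : 0 ≤ R)
    (hR : ∀ x ∈ pts K, ‖x‖ ≤ R) (w : C2) : area u K w ≤ 4 * R ^ 2 * ‖w‖ ^ 2 := by
  have h1 := I1_ar_le K R hR0 hR (w, u w)
  rw [Prod.norm_def, hu, max_self] at h1
  exact h1

theorem I1_gauss : Integrable (fun w : C2 => ‖w‖ ^ 2 * Real.exp (-‖w‖ ^ 2)) := by
  have h1 : Integrable (fun w : C2 => Real.exp (-(1 / 2) * ‖w‖ ^ 2)) := by
    have h2 := GaussianFourier.integrable_cexp_neg_mul_sq_norm_add (V := C2) (b := (1 / 2 : ℂ))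
      (by norm_num) 0 0
    refine (h2.norm).congr (Eventually.of_forall fun w => ?_)
    simp only [zero_mul, add_zero]
    rw [Complex.norm_exp]
    congr 1
    have : (-(1 / 2 : ℂ) * (‖w‖ : ℂ) ^ 2) = ((-(1 / 2) * ‖w‖ ^ 2 : ℝ) : ℂ) := by
      push_cast
      ring
    rw [this, Complex.ofReal_re]
  refine (h1.const_mul 2).mono' (by fun_prop) (Eventually.of_forall fun w => ?_)
  rw [Real.norm_of_nonneg (by positivity)]
  have h3 : ‖w‖ ^ 2 ≤ 2 * Real.exp (‖w‖ ^ 2 / 2) := by
    have := Real.add_one_le_exp (‖w‖ ^ 2 / 2)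
    linarith
  calc ‖w‖ ^ 2 * Real.exp (-‖w‖ ^ 2) ≤ 2 * Real.exp (‖w‖ ^ 2 / 2) * Real.exp (-‖w‖ ^ 2) :=
        mul_le_mul_of_nonneg_right h3 (Real.exp_pos _).le
    _ = 2 * Real.exp (-(1 / 2) * ‖w‖ ^ 2) := by
        rw [mul_assoc, ← Real.exp_add]
        congr 2
        ring

theorem I1_Mu_cont {T : Type*} [TopologicalSpace T] [FirstCountableTopology T] (κ : T → Body)
    (hκ : Continuous κ) (U : T → C2 → C2) (hU : Continuous (fun p : T × C2 => U p.1 p.2))
    (hn : ∀ t w, ‖U t w‖ = ‖w‖) : Continuous (fun t => Mu (U t) (κ t)) := by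
  unfold Mu
  refine continuous_const.mul ?_
  rw [continuous_iff_continuousAt]
  intro t₀
  obtain ⟨R, hR0, hR⟩ := I1_bdd (κ t₀)
  have hjoint : Continuous (fun p : T × C2 => area (U p.1) (κ p.1) p.2) := by
    simp only [I1_area]
    exact I1_ar_comp (fun p : T × C2 => κ p.1) (fun p => p.2) (fun p => U p.1 p.2)
      (hκ.comp continuous_fst) continuous_snd hU
  refine continuousAt_of_dominated
    (bound := fun w : C2 => 4 * (R + 1) ^ 2 * (‖w‖ ^ 2 * Real.exp (-‖w‖ ^ 2))) ?_ ?_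
    (I1_gauss.const_mul _) ?_
  · refine Eventually.of_forall fun t => ?_
    refine Continuous.aestronglyMeasurable ?_
    have : Continuous (fun w => area (U t) (κ t) w) :=
      Continuous.comp (g := fun p : T × C2 => area (U p.1) (κ p.1) p.2)
        (f := fun w : C2 => (t, w)) hjoint (continuous_const.prodMk continuous_id)
    fun_prop
  · have h1 : ∀ᶠ t in 𝓝 t₀, dist (κ t) (κ t₀) < 1 :=
      (hκ.tendsto t₀) (Metric.ball_mem_nhds _ one_pos)
    filter_upwards [h1] with t ht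
    refine Eventually.of_forall fun w => ?_
    have hR' : ∀ x ∈ pts (κ t), ‖x‖ ≤ R + 1 := by
      intro x hx
      obtain ⟨y, hy, hd⟩ := I1_near _ _ 1 ht x hx
      rw [dist_eq_norm] at hd
      have h2 := norm_add_le y (x - y)
      rw [add_sub_cancel] at h2
      have h3 := hR y hy
      linarith
    have h4 := I1_area_le (U t) (hn t) (κ t) (R + 1) (by linarith) hR' w
    rw [Real.norm_of_nonneg (mul_nonneg (I1_area_nonneg _ _ _) (Real.exp_pos _).le)]
    calc area (U t) (κ t) w * Real.exp (-‖w‖ ^ 2)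
        ≤ 4 * (R + 1) ^ 2 * ‖w‖ ^ 2 * Real.exp (-‖w‖ ^ 2) :=
          mul_le_mul_of_nonneg_right h4 (Real.exp_pos _).le
      _ = 4 * (R + 1) ^ 2 * (‖w‖ ^ 2 * Real.exp (-‖w‖ ^ 2)) := by ring
  · refine Eventually.of_forall fun w => ?_
    have : Continuous (fun t => area (U t) (κ t) w) :=
      Continuous.comp (g := fun p : T × C2 => area (U p.1) (κ p.1) p.2)
        (f := fun t : T => (t, w)) hjoint (continuous_id.prodMk continuous_const)
    exact (this.mul continuous_const).continuousAt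

theorem I1_area_continuous (u : C2 → C2) (hu : Continuous u) (K : Body) :
    Continuous (area u K) := by
  have : Continuous (fun w => I1_ar K (w, u w)) :=
    I1_ar_comp (fun _ => K) (fun w => w) u continuous_const continuous_id hu
  exact this

theorem area_continuous (u : C2 →ₗᵢ[ℝ] C2) (K : Body) : Continuous (area u K) :=
  I1_area_continuous u u.continuous K

theorem I1_area_integrable (u : C2 → C2) (hu : Continuous u) (hn : ∀ w, ‖u w‖ = ‖w‖) (K : Body) :
    Integrable (fun w : C2 => area u K w * Real.exp (-‖w‖ ^ 2)) := by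
  obtain ⟨R, hR0, hR⟩ := I1_bdd K
  have hc := I1_area_continuous u hu K
  refine (I1_gauss.const_mul (4 * R ^ 2)).mono' (Continuous.aestronglyMeasurable (by fun_prop))
    (Eventually.of_forall fun w => ?_)
  have h4 := I1_area_le u hn K R hR0 hR w
  rw [Real.norm_of_nonneg (mul_nonneg (I1_area_nonneg _ _ _) (Real.exp_pos _).le)]
  calc area u K w * Real.exp (-‖w‖ ^ 2)
      ≤ 4 * R ^ 2 * ‖w‖ ^ 2 * Real.exp (-‖w‖ ^ 2) :=
        mul_le_mul_of_nonneg_right h4 (Real.exp_pos _).le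
    _ = 4 * R ^ 2 * (‖w‖ ^ 2 * Real.exp (-‖w‖ ^ 2)) := by ring

theorem area_integrable (u : C2 →ₗᵢ[ℝ] C2) (K : Body) :
    Integrable (fun w : C2 => area u K w * Real.exp (-‖w‖ ^ 2)) :=
  I1_area_integrable u u.continuous u.norm_map K

theorem Mu_continuous_alpha (K : Body) : Continuous (fun α => Mu (Uq α) K) :=
  I1_Mu_cont (fun _ => K) continuous_const Uq I1_contUq I1_normUq

theorem I1_Mu_joint : Continuous (fun p : Body × ℝ => Mu (Uq p.2) p.1) :=
  I1_Mu_cont (T := Body × ℝ) (fun p => p.1) continuous_fst (fun p => Uq p.2)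
    (Continuous.comp (g := fun p : ℝ × C2 => Uq p.1 p.2)
      (f := fun t : (Body × ℝ) × C2 => (t.1.2, t.2)) I1_contUq
      ((continuous_snd.comp continuous_fst).prodMk continuous_snd))
    (fun t w => I1_normUq t.2 w)

theorem I1_MuJ_cont : Continuous (fun K : Body => Mu J K) :=
  I1_Mu_cont (T := Body) (fun K => K) continuous_id (fun _ => J)
    (Continuous.comp (g := J) (f := fun t : Body × C2 => t.2) I1_contJ continuous_snd)
    (fun _ w => I1_normJ w)

theorem I1_MLag_cont : Continuous MLag := by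
  unfold MLag
  refine continuous_const.mul ?_
  exact intervalIntegral.continuous_parametric_intervalIntegral_of_continuous
    (f := fun K α => Mu (Uq α) K) I1_Mu_joint continuous_const

theorem muab_continuous (a b : ℝ) : Continuous (muab a b) := by
  unfold muab
  have := I1_MuJ_cont
  have := I1_MLag_cont
  fun_prop

/-! ### the valuation property -/

theorem I1_inter_image (q : C2 × C2) (K L M : Body) (hM : pts M = pts K ∪ pts L) :
    I1_P q '' (pts K ∩ pts L) = (I1_P q '' pts K) ∩ (I1_P q '' pts L) := by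
  apply Subset.antisymm (image_inter_subset _ _ _)
  rintro z ⟨⟨x, hx, hxz⟩, ⟨y, hy, hyz⟩⟩
  have hseg : segment ℝ x y ⊆ pts K ∪ pts L := by
    rw [← hM]
    refine M.convex.segment_subset ?_ ?_
    · change x ∈ pts M
      rw [hM]; exact Or.inl hx
    · change y ∈ pts M
      rw [hM]; exact Or.inr hy
  have hpre : IsPreconnected (segment ℝ x y) := (convex_segment x y).isPreconnected
  obtain ⟨m, hm, hmK, hmL⟩ := isPreconnected_closed_iff.1 hpre (pts K) (pts L)
    K.isCompact.isClosed L.isCompact.isClosed hseg ⟨x, left_mem_segment ℝ x y, hx⟩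
    ⟨y, right_mem_segment ℝ x y, hy⟩
  refine ⟨m, ⟨hmK, hmL⟩, ?_⟩
  obtain ⟨s, t, _, _, hst, rfl⟩ := hm
  rw [map_add, map_smul, map_smul, hxz, hyz, ← add_smul, hst, one_smul]

theorem I1_ar_fin (K : Body) (q : C2 × C2) : volume (I1_P q '' pts K) ≠ ∞ :=
  (K.isCompact.image (I1_P_cont q)).measure_lt_top.ne

theorem I1_ar_val (K L M I : Body) (hM : pts M = pts K ∪ pts L) (hI : pts I = pts K ∩ pts L)
    (q : C2 × C2) : I1_ar M q + I1_ar I q = I1_ar K q + I1_ar L q := by
  unfold I1_ar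
  rw [← ENNReal.toReal_add (I1_ar_fin M q) (I1_ar_fin I q),
    ← ENNReal.toReal_add (I1_ar_fin K q) (I1_ar_fin L q)]
  congr 1
  rw [hI, I1_inter_image q K L M hM, hM, image_union]
  exact measure_union_add_inter _ (L.isCompact.image (I1_P_cont q)).measurableSet

theorem I1_Mu_val (u : C2 → C2) (hu : Continuous u) (hn : ∀ w, ‖u w‖ = ‖w‖) (K L M I : Body)
    (hM : pts M = pts K ∪ pts L) (hI : pts I = pts K ∩ pts L) :
    Mu u M + Mu u I = Mu u K + Mu u L := by
  unfold Mu
  rw [← mul_add, ← mul_add,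
    ← integral_add (I1_area_integrable u hu hn M) (I1_area_integrable u hu hn I),
    ← integral_add (I1_area_integrable u hu hn K) (I1_area_integrable u hu hn L)]
  congr 2
  funext w
  rw [← add_mul, ← add_mul, I1_area, I1_area, I1_area, I1_area, I1_ar_val K L M I hM hI]

theorem I1_contUq' (α : ℝ) : Continuous (Uq α) :=
  Continuous.comp (g := fun p : ℝ × C2 => Uq p.1 p.2) (f := fun x : C2 => (α, x)) I1_contUq
    (continuous_const.prodMk continuous_id)

theorem I1_MLag_val (K L M I : Body)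
    (hM : pts M = pts K ∪ pts L) (hI : pts I = pts K ∩ pts L) :
    MLag M + MLag I = MLag K + MLag L := by
  unfold MLag
  rw [← mul_add, ← mul_add,
    ← intervalIntegral.integral_add ((Mu_continuous_alpha M).intervalIntegrable _ _)
      ((Mu_continuous_alpha I).intervalIntegrable _ _),
    ← intervalIntegral.integral_add ((Mu_continuous_alpha K).intervalIntegrable _ _)
      ((Mu_continuous_alpha L).intervalIntegrable _ _)]
  congr 2
  funext α
  exact I1_Mu_val (Uq α) (I1_contUq' α) (I1_normUq α) K L M I hM hI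

theorem muab_valuation (a b : ℝ) : Valuation (muab a b) := by
  intro K L M I hM hI
  have h1 := I1_Mu_val J I1_contJ I1_normJ K L M I hM hI
  have h2 := I1_MLag_val K L M I hM hI
  unfold muab
  linear_combination (3 * b - 2 * a) * h1 + 2 * (2 * a - b) * h2

/-! ### translation invariance -/

theorem muab_translation (a b : ℝ) : TranslationInvariant (muab a b) := by
  intro K L v hL
  have h0 : ∀ q : C2 × C2, I1_ar L q = I1_ar K q := by
    intro q
    unfold I1_ar
    congr 1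
    have h1 : I1_P q '' pts L = (fun z => z + I1_P q v) '' (I1_P q '' pts K) := by
      rw [hL, image_image, image_image]
      refine image_congr fun x _ => ?_
      rw [map_add]
    rw [h1, image_add_right, measure_preimage_add_right]
  have h1 : ∀ u : C2 → C2, Mu u L = Mu u K := by
    intro u
    unfold Mu
    simp only [I1_area, h0]
  unfold muab MLag
  simp only [h1]

/-! ### homogeneity -/

theorem muab_homogeneous (a b : ℝ) : Homogeneous2 (muab a b) := by
  intro c hc K L hL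
  have h0 : ∀ q : C2 × C2, I1_ar L q = c ^ 2 * I1_ar K q := by
    intro q
    unfold I1_ar
    have h1 : I1_P q '' pts L = c • (I1_P q '' pts K) := by
      rw [hL, ← image_smul, image_image, image_image]
      refine image_congr fun x _ => ?_
      rw [map_smul]
    rw [h1, Measure.addHaar_smul, ENNReal.toReal_mul, ENNReal.toReal_ofReal (abs_nonneg _)]
    have : Module.finrank ℝ (ℝ × ℝ) = 2 := by simp
    rw [this, abs_of_nonneg (by positivity)]
  have h1 : ∀ u : C2 → C2, Mu u L = c ^ 2 * Mu u K := by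
    intro u
    unfold Mu
    simp only [I1_area, h0, mul_assoc]
    rw [integral_const_mul]
    ring
  have h2 : MLag L = c ^ 2 * MLag K := by
    unfold MLag
    simp only [h1]
    rw [intervalIntegral.integral_const_mul]
    ring
  unfold muab
  rw [h1, h2]
  ring

/-! ### unitary invariance -/

theorem I1_area_unitary (g : C2 ≃ₗᵢ[ℝ] C2) (u u' : C2 → C2) (h : ∀ w, u (g w) = g (u' w))
    (K L : Body) (hL : pts L = g '' pts K) (w : C2) : area u L (g w) = area u' K w := by
  unfold area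
  rw [hL, image_image]
  congr 2
  refine image_congr fun x _ => ?_
  rw [h, LinearIsometryEquiv.inner_map_map, LinearIsometryEquiv.inner_map_map]

theorem I1_Mu_unitary (g : C2 ≃ₗᵢ[ℝ] C2) (u u' : C2 → C2) (h : ∀ w, u (g w) = g (u' w))
    (K L : Body) (hL : pts L = g '' pts K) : Mu u L = Mu u' K := by
  unfold Mu
  congr 1
  have h1 := g.measurePreserving.integral_comp g.toHomeomorph.measurableEmbedding
    (fun w : C2 => area u L w * Real.exp (-‖w‖ ^ 2))
  rw [← h1]
  congr 1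
  funext w
  rw [I1_area_unitary g u u' h K L hL, LinearIsometryEquiv.norm_map]

noncomputable def I1_Iql : C2 →ₗ[ℝ] C2 where
  toFun := Iq
  map_add' x y := by
    ext i
    fin_cases i <;> simp [Iq] <;> ring
  map_smul' c x := by
    ext i
    fin_cases i <;> simp [Iq]

noncomputable def I1_Jl : C2 →ₗ[ℝ] C2 where
  toFun := J
  map_add' x y := by
    ext i
    fin_cases i <;> simp [J] <;> ring
  map_smul' c x := by
    ext i
    fin_cases i <;> simp [J]

theorem I1_JIq (x : C2) : J (Iq x) = Kq x := by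
  ext i
  fin_cases i <;> simp [J, Iq, Kq]

theorem I1_JKq (x : C2) : J (Kq x) = -Iq x := by
  ext i
  fin_cases i <;> simp [J, Iq, Kq]

theorem I1_IqJ (x : C2) : Iq (J x) = -J (Iq x) := by
  ext i
  fin_cases i <;> simp [J, Iq]

theorem I1_Iq_skew (x y : C2) : (inner ℝ (Iq x) y : ℝ) = -inner ℝ x (Iq y) := by
  simp [Iq, PiLp.inner_apply, Fin.sum_univ_four]
  ring

theorem I1_conj (g : C2 ≃ₗᵢ[ℝ] C2) (hg : ∀ x, g (J x) = J (g x)) :
    ∃ β : ℝ, ∀ α w, Uq α (g w) = g (Uq (α + β) w) := by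
  have hgs : ∀ x, g.symm (J x) = J (g.symm x) := by
    intro x
    apply g.injective
    rw [hg, LinearIsometryEquiv.apply_symm_apply, LinearIsometryEquiv.apply_symm_apply]
  let A : C2 →ₗ[ℝ] C2 := (g.symm.toLinearEquiv : C2 →ₗ[ℝ] C2) ∘ₗ I1_Iql ∘ₗ
    (g.toLinearEquiv : C2 →ₗ[ℝ] C2)
  have hA : ∀ x, A x = g.symm (Iq (g x)) := fun x => rfl
  have hAskew : ∀ x y, (inner ℝ (A x) y : ℝ) = -inner ℝ x (A y) := by
    intro x y
    rw [hA, hA, ← g.inner_map_map (g.symm (Iq (g x))) y, LinearIsometryEquiv.apply_symm_apply,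
      I1_Iq_skew, ← g.inner_map_map x (g.symm (Iq (g y))), LinearIsometryEquiv.apply_symm_apply]
  have hAJ : ∀ x, A (J x) = -J (A x) := by
    intro x
    rw [hA, hA, hg, I1_IqJ, map_neg, hgs]
  have hAn : ∀ x, ‖A x‖ = ‖x‖ := by
    intro x
    rw [hA, LinearIsometryEquiv.norm_map]
    have h1 := I1_normUq 0 (g x)
    rw [Uq, Real.cos_zero, Real.sin_zero, one_smul, zero_smul, add_zero,
      LinearIsometryEquiv.norm_map] at h1
    exact h1
  let e : Fin 4 → C2 := fun i => EuclideanSpace.single i 1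
  have hJ0 : J (e 0) = e 1 := by
    ext i
    fin_cases i <;> simp [J, e]
  have hJ2 : J (e 2) = e 3 := by
    ext i
    fin_cases i <;> simp [J, e]
  have hA1 : A (e 1) = -J (A (e 0)) := by rw [← hJ0, hAJ]
  have hA3 : A (e 3) = -J (A (e 2)) := by rw [← hJ2, hAJ]
  have hentry : ∀ i j, (A (e j)) i = -(A (e i)) j := by
    intro i j
    have h1 := hAskew (e j) (e i)
    simp only [e] at h1
    rw [EuclideanSpace.inner_single_right, EuclideanSpace.inner_single_left] at h1
    simpa using h1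
  have hx : ∀ x : C2, x = x 0 • e 0 + x 1 • e 1 + x 2 • e 2 + x 3 • e 3 := by
    intro x
    ext i
    fin_cases i <;> simp [e]
  have hlin : ∀ x : C2, A x = x 0 • A (e 0) + x 1 • A (e 1) + x 2 • A (e 2) + x 3 • A (e 3) := by
    intro x
    conv_lhs => rw [hx x]
    simp only [map_add, map_smul]
  set a := (A (e 0)) 2 with ha
  set b := (A (e 0)) 3 with hb
  have h10 : (A (e 1)) 0 = (A (e 0)) 1 := by rw [hA1]; simp [J]
  have h11 : (A (e 1)) 1 = -(A (e 0)) 0 := by rw [hA1]; simp [J]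
  have h12 : (A (e 1)) 2 = b := by rw [hA1]; simp [J, hb]
  have h13 : (A (e 1)) 3 = -a := by rw [hA1]; simp [J, ha]
  have h30 : (A (e 3)) 0 = (A (e 2)) 1 := by rw [hA3]; simp [J]
  have h31 : (A (e 3)) 1 = -(A (e 2)) 0 := by rw [hA3]; simp [J]
  have h32 : (A (e 3)) 2 = (A (e 2)) 3 := by rw [hA3]; simp [J]
  have h33 : (A (e 3)) 3 = -(A (e 2)) 2 := by rw [hA3]; simp [J]
  have h00 : (A (e 0)) 0 = 0 := by have := hentry 0 0; linarith
  have h22 : (A (e 2)) 2 = 0 := by have := hentry 2 2; linarith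
  have h01 : (A (e 0)) 1 = 0 := by have := hentry 0 1; linarith
  have h23 : (A (e 2)) 3 = 0 := by have := hentry 2 3; linarith
  have h20 : (A (e 2)) 0 = -a := by have := hentry 0 2; linarith
  have h21 : (A (e 2)) 1 = -b := by have := hentry 1 2; linarith
  have hAf : ∀ x, A x = a • Iq x + b • Kq x := by
    intro x
    rw [hlin x]
    ext i
    fin_cases i
    · simp [Iq, Kq, h00, h10, h01, h20, h30, h21]; ring
    · simp [Iq, Kq, h01, h11, h00, h21, h31, h20]; ring
    · simp [Iq, Kq, h12, h22, h32, h23, ← ha]; ring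
    · simp [Iq, Kq, h13, h23, h33, h22, ← hb]; ring
  have hab : a ^ 2 + b ^ 2 = 1 := by
    have h1 := hAn (e 0)
    have h2 : ‖e 0‖ = 1 := by simp [e]
    rw [h2, EuclideanSpace.norm_eq, Real.sqrt_eq_one] at h1
    simp only [Fin.sum_univ_four, h00, h01, ← ha, ← hb, Real.norm_eq_abs, sq_abs] at h1
    linarith
  obtain ⟨β, hβ1, hβ2⟩ : ∃ β : ℝ, Real.cos β = a ∧ Real.sin β = b := by
    have hne : (⟨a, b⟩ : ℂ) ≠ 0 := by
      intro h
      have h1 := congrArg Complex.re h
      have h2 := congrArg Complex.im h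
      simp only [Complex.zero_re, Complex.zero_im] at h1 h2
      rw [h1, h2] at hab
      norm_num at hab
    have hnorm : ‖(⟨a, b⟩ : ℂ)‖ = 1 := by
      rw [Complex.norm_def, Complex.normSq_mk, Real.sqrt_eq_one]
      linarith
    refine ⟨Complex.arg ⟨a, b⟩, ?_, ?_⟩
    · rw [Complex.cos_arg hne, hnorm, div_one]
    · rw [Complex.sin_arg, hnorm, div_one]
  refine ⟨β, fun α w => ?_⟩
  have hI : Iq (g w) = g (A w) := by rw [hA, LinearIsometryEquiv.apply_symm_apply]
  have hK : Kq (g w) = g (J (A w)) := by rw [← I1_JIq, hI, hg]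
  have hJA : J (A w) = a • Kq w - b • Iq w := by
    rw [hAf]
    change I1_Jl _ = _
    rw [map_add, map_smul, map_smul]
    change a • J (Iq w) + b • J (Kq w) = _
    rw [I1_JIq, I1_JKq, smul_neg, sub_eq_add_neg]
  unfold Uq
  rw [hI, hK, hJA, hAf, ← map_smul, ← map_smul, ← map_add]
  congr 1
  rw [Real.cos_add, Real.sin_add, hβ1, hβ2]
  module

theorem I1_Uq_periodic (K : Body) : Function.Periodic (fun α => Mu (Uq α) K) (2 * Real.pi) := by
  intro α
  have : Uq (α + 2 * Real.pi) = Uq α := by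
    funext x
    rw [Uq, Uq, Real.cos_add_two_pi, Real.sin_add_two_pi]
  simp only [this]

theorem I1_MLag_unitary (g : C2 ≃ₗᵢ[ℝ] C2) (hg : ∀ x, g (J x) = J (g x)) (K L : Body)
    (hL : pts L = g '' pts K) : MLag L = MLag K := by
  obtain ⟨β, hβ⟩ := I1_conj g hg
  unfold MLag
  congr 1
  have h1 : ∀ α, Mu (Uq α) L = Mu (Uq (α + β)) K := fun α =>
    I1_Mu_unitary g (Uq α) (Uq (α + β)) (hβ α) K L hL
  simp only [h1]
  rw [intervalIntegral.integral_comp_add_right (fun α => Mu (Uq α) K) β]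
  have h2 := (I1_Uq_periodic K).intervalIntegral_add_eq β 0
  rw [zero_add] at h2 ⊢
  rw [add_comm (2 * Real.pi) β]
  exact h2

theorem muab_unitary (a b : ℝ) : UnitaryInvariant (muab a b) := by
  intro g hg K L hL
  have h1 : Mu J L = Mu J K := I1_Mu_unitary g J J (fun w => (hg w).symm) K L hL
  have h2 := I1_MLag_unitary g hg K L hL
  unfold muab
  rw [h1, h2]

end Pool.Agent.Helper85.Cap
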