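import Pool.Agent.Helper85.Cap.Defs

/-!
Module I1, part a: the quaternionic structure on `ℂ²`.
-/
set_option autoImplicit false
open MeasureTheory Metric Set
open scoped ENNReal
open Pool.Agent.Helper85.Herm

namespace Pool.Agent.Helper85.Cap

@[simp] theorem J_apply0 (x : C2) : J x 0 = -x 1 := rfl
@[simp] theorem J_apply1 (x : C2) : J x 1 = x 0 := rfl
@[simp] theorem J_apply2 (x : C2) : J x 2 = -x 3 := rfl
@[simp] theorem J_apply3 (x : C2) : J x 3 = x 2 := rfl
@[simp] theorem Iq_apply0 (x : C2) : Iq x 0 = -x 2 := rfl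
@[simp] theorem Iq_apply1 (x : C2) : Iq x 1 = x 3 := rfl
@[simp] theorem Iq_apply2 (x : C2) : Iq x 2 = x 0 := rfl
@[simp] theorem Iq_apply3 (x : C2) : Iq x 3 = -x 1 := rfl
@[simp] theorem Kq_apply0 (x : C2) : Kq x 0 = -x 3 := rfl
@[simp] theorem Kq_apply1 (x : C2) : Kq x 1 = -x 2 := rfl
@[simp] theorem Kq_apply2 (x : C2) : Kq x 2 = x 1 := rfl
@[simp] theorem Kq_apply3 (x : C2) : Kq x 3 = x 0 := rfl

theorem C2_ext {x y : C2} (h0 : x 0 = y 0) (h1 : x 1 = y 1) (h2 : x 2 = y 2) (h3 : x 3 = y 3) :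
    x = y := by
  ext i
  fin_cases i
  · exact h0
  · exact h1
  · exact h2
  · exact h3

theorem C2_norm_sq (x : C2) : ‖x‖ ^ 2 = x 0 ^ 2 + x 1 ^ 2 + x 2 ^ 2 + x 3 ^ 2 := by
  rw [EuclideanSpace.norm_sq_eq]
  simp [Fin.sum_univ_four]

theorem C2_inner (x y : C2) : (inner ℝ x y : ℝ) = x 0 * y 0 + x 1 * y 1 + x 2 * y 2 + x 3 * y 3 := by
  rw [PiLp.inner_apply]
  simp [Fin.sum_univ_four]
  ring

@[simp] theorem Uq_apply (α : ℝ) (x : C2) (i : Fin 4) :
    Uq α x i = Real.cos α * Iq x i + Real.sin α * Kq x i := by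
  simp [Uq]

theorem J_J (x : C2) : J (J x) = -x := by
  apply C2_ext <;> simp
theorem Uq_Uq (α : ℝ) (x : C2) : Uq α (Uq α x) = -x := by
  have h := Real.sin_sq_add_cos_sq α
  apply C2_ext
  · simp only [Uq_apply, Iq_apply0, Kq_apply0, Iq_apply2, Kq_apply2, Iq_apply3, Kq_apply3,
      PiLp.neg_apply]
    linear_combination (-x 0) * h
  · simp only [Uq_apply, Iq_apply1, Kq_apply1, Iq_apply2, Kq_apply2, Iq_apply3, Kq_apply3,
      PiLp.neg_apply]
    linear_combination (-x 1) * h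
  · simp only [Uq_apply, Iq_apply0, Kq_apply0, Iq_apply1, Kq_apply1, Iq_apply2, Kq_apply2,
      PiLp.neg_apply]
    linear_combination (-x 2) * h
  · simp only [Uq_apply, Iq_apply0, Kq_apply0, Iq_apply1, Kq_apply1, Iq_apply3, Kq_apply3,
      PiLp.neg_apply]
    linear_combination (-x 3) * h

theorem Uq_J (α : ℝ) (x : C2) : Uq α (J x) = -J (Uq α x) := by
  apply C2_ext <;> simp [Uq_apply] <;> ring

theorem J_Uq (α : ℝ) (x : C2) : J (Uq α x) = -Uq α (J x) := by
  rw [Uq_J, neg_neg]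

theorem J_add (x y : C2) : J (x + y) = J x + J y := by
  apply C2_ext <;> simp <;> ring
theorem J_smul (c : ℝ) (x : C2) : J (c • x) = c • J x := by
  apply C2_ext <;> simp
theorem Uq_add (α : ℝ) (x y : C2) : Uq α (x + y) = Uq α x + Uq α y := by
  apply C2_ext <;> simp [Uq_apply] <;> ring
theorem Uq_smul (α c : ℝ) (x : C2) : Uq α (c • x) = c • Uq α x := by
  apply C2_ext <;> simp [Uq_apply] <;> ring

theorem J_norm (x : C2) : ‖J x‖ = ‖x‖ := by
  have : ‖J x‖ ^ 2 = ‖x‖ ^ 2 := by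
    rw [C2_norm_sq, C2_norm_sq]; simp; ring
  exact (pow_left_inj₀ (norm_nonneg _) (norm_nonneg _) two_ne_zero).1 this

theorem Uq_norm (α : ℝ) (x : C2) : ‖Uq α x‖ = ‖x‖ := by
  have h := Real.sin_sq_add_cos_sq α
  have : ‖Uq α x‖ ^ 2 = ‖x‖ ^ 2 := by
    rw [C2_norm_sq, C2_norm_sq]
    simp only [Uq_apply, Iq_apply0, Kq_apply0, Iq_apply1, Kq_apply1, Iq_apply2, Kq_apply2,
      Iq_apply3, Kq_apply3]
    linear_combination (x 0 ^ 2 + x 1 ^ 2 + x 2 ^ 2 + x 3 ^ 2) * h
  exact (pow_left_inj₀ (norm_nonneg _) (norm_nonneg _) two_ne_zero).1 this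

/-- `J` as a linear isometry -/
noncomputable def JL : C2 ≃ₗᵢ[ℝ] C2 where
  toLinearEquiv :=
    { toFun := J
      map_add' := J_add
      map_smul' := J_smul
      invFun := fun x => -J x
      left_inv := fun x => by
        change -J (J x) = x
        rw [J_J, neg_neg]
      right_inv := fun x => by
        change J (-J x) = x
        have h : J (-J x) = -J (J x) := by
          have := J_smul (-1) (J x)
          simpa using this
        rw [h, J_J, neg_neg] }
  norm_map' := J_norm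

/-- `Uq α` as a linear isometry -/
noncomputable def UL (α : ℝ) : C2 ≃ₗᵢ[ℝ] C2 where
  toLinearEquiv :=
    { toFun := Uq α
      map_add' := Uq_add α
      map_smul' := Uq_smul α
      invFun := fun x => -Uq α x
      left_inv := fun x => by
        change -Uq α (Uq α x) = x
        rw [Uq_Uq, neg_neg]
      right_inv := fun x => by
        change Uq α (-Uq α x) = x
        have h : Uq α (-Uq α x) = -Uq α (Uq α x) := by
          have := Uq_smul α (-1) (Uq α x)
          simpa using this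
        rw [h, Uq_Uq, neg_neg] }
  norm_map' := Uq_norm α

theorem JL_coe : (JL : C2 → C2) = J := rfl
theorem UL_coe (α : ℝ) : (UL α : C2 → C2) = Uq α := rfl

theorem Uq_eq (α : ℝ) (x : C2) : Uq α x = Real.cos α • Uq 0 x + Real.sin α • J (Uq 0 x) := by
  apply C2_ext <;> simp [Uq_apply]

theorem C2_decomp (x : C2) : x = x 0 • (EuclideanSpace.single 0 1 : C2) +
    x 1 • J (EuclideanSpace.single 0 1 : C2) + x 2 • (EuclideanSpace.single 2 1 : C2) +
    x 3 • J (EuclideanSpace.single 2 1 : C2) := by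
  apply C2_ext <;> simp

/-- an orthogonal complex structure anticommuting with `J` (and of the right orientation) lies on
the circle `Uq` -/
theorem anticomm_circle (X : C2 ≃ₗᵢ[ℝ] C2) (hX : ∀ x, X (X x) = -x)
    (hJ : ∀ x, X (J x) = -J (X x)) : ∃ β : ℝ, ∀ x, X x = Uq β x := by
  have skew : ∀ x y : C2, (inner ℝ (X x) y : ℝ) = -inner ℝ x (X y) := by
    intro x y
    rw [← X.inner_map_map (X x) y, hX, inner_neg_left]
  set e0 : C2 := EuclideanSpace.single 0 1 with he0
  set e2 : C2 := EuclideanSpace.single 2 1 with he2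
  have c00 : e0 0 = 1 := by simp [he0]
  have c01 : e0 1 = 0 := by simp [he0]
  have c02 : e0 2 = 0 := by simp [he0]
  have c03 : e0 3 = 0 := by simp [he0]
  have c20 : e2 0 = 0 := by simp [he2]
  have c21 : e2 1 = 0 := by simp [he2]
  have c22 : e2 2 = 1 := by simp [he2]
  have c23 : e2 3 = 0 := by simp [he2]
  have a0 : X e0 0 = 0 := by
    have := skew e0 e0
    simp only [C2_inner, c00, c01, c02, c03] at this
    linarith
  have a1 : X e0 1 = 0 := by
    have := skew e0 (J e0)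
    rw [hJ] at this
    simp only [C2_inner, c00, c01, c02, c03, J_apply0, J_apply1, J_apply2, J_apply3,
      PiLp.neg_apply] at this
    linarith
  have b2 : X e2 2 = 0 := by
    have := skew e2 e2
    simp only [C2_inner, c20, c21, c22, c23] at this
    linarith
  have b3 : X e2 3 = 0 := by
    have := skew e2 (J e2)
    rw [hJ] at this
    simp only [C2_inner, c20, c21, c22, c23, J_apply0, J_apply1, J_apply2, J_apply3,
      PiLp.neg_apply] at this
    linarith
  have b0 : X e2 0 = -X e0 2 := by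
    have := skew e2 e0
    simp only [C2_inner, c20, c21, c22, c23, c00, c01, c02, c03] at this
    linarith
  have b1 : X e2 1 = -X e0 3 := by
    have := skew e2 (J e0)
    rw [hJ] at this
    simp only [C2_inner, c20, c21, c22, c23, c00, c01, c02, c03, J_apply0, J_apply1, J_apply2,
      J_apply3, PiLp.neg_apply] at this
    linarith
  have hn : X e0 2 ^ 2 + X e0 3 ^ 2 = 1 := by
    have h1 : ‖X e0‖ ^ 2 = ‖e0‖ ^ 2 := by rw [X.norm_map]
    rw [C2_norm_sq, C2_norm_sq, a0, a1, c00, c01, c02, c03] at h1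
    linarith
  obtain ⟨β, hc, hs⟩ : ∃ β : ℝ, Real.cos β = X e0 2 ∧ Real.sin β = X e0 3 := by
    have hz : ‖(⟨X e0 2, X e0 3⟩ : ℂ)‖ = 1 := by
      have : ‖(⟨X e0 2, X e0 3⟩ : ℂ)‖ ^ 2 = 1 := by
        rw [← Complex.normSq_eq_norm_sq, Complex.normSq_mk]; linarith
      exact (pow_eq_one_iff_of_nonneg (norm_nonneg _) two_ne_zero).1 this
    refine ⟨Complex.arg ⟨X e0 2, X e0 3⟩, ?_, ?_⟩
    · rw [Complex.cos_arg (by rw [← norm_pos_iff, hz]; exact one_pos), hz, div_one]
    · rw [Complex.sin_arg, hz, div_one]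
  refine ⟨β, fun x => ?_⟩
  have hx : X x = x 0 • X e0 - x 1 • J (X e0) + x 2 • X e2 - x 3 • J (X e2) := by
    conv_lhs => rw [C2_decomp x]
    rw [map_add, map_add, map_add, map_smul, map_smul, map_smul, map_smul, hJ, hJ]
    simp only [smul_neg]
    abel
  rw [hx]
  apply C2_ext
  · simp only [PiLp.sub_apply, PiLp.add_apply, PiLp.smul_apply, smul_eq_mul, J_apply0, Uq_apply,
      Iq_apply0, Kq_apply0, hc, hs, a0, a1, b0, b1, b2, b3]
    ring
  · simp only [PiLp.sub_apply, PiLp.add_apply, PiLp.smul_apply, smul_eq_mul, J_apply1, Uq_apply,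
      Iq_apply1, Kq_apply1, hc, hs, a0, a1, b0, b1, b2, b3]
    ring
  · simp only [PiLp.sub_apply, PiLp.add_apply, PiLp.smul_apply, smul_eq_mul, J_apply2, Uq_apply,
      Iq_apply2, Kq_apply2, hc, hs, a0, a1, b0, b1, b2, b3]
    ring
  · simp only [PiLp.sub_apply, PiLp.add_apply, PiLp.smul_apply, smul_eq_mul, J_apply3, Uq_apply,
      Iq_apply3, Kq_apply3, hc, hs, a0, a1, b0, b1, b2, b3]
    ring

/-- `U(2)` rotates the circle of anticommuting structures -/
theorem unitary_conj (g : C2 ≃ₗᵢ[ℝ] C2) (hg : ∀ x, g (J x) = J (g x)) :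
    ∃ β : ℝ, ∀ α : ℝ, ∀ x : C2, g.symm (Uq α x) = Uq (α + β) (g.symm x) := by
  have hgs : ∀ x, g.symm (J x) = J (g.symm x) := by
    intro x
    apply g.injective
    rw [g.apply_symm_apply, hg, g.apply_symm_apply]
  set X : C2 ≃ₗᵢ[ℝ] C2 := (g.trans (UL 0)).trans g.symm with hX
  have hXx : ∀ x, X x = g.symm (Uq 0 (g x)) := fun x => rfl
  obtain ⟨β, hβ⟩ := anticomm_circle X (by
    intro x
    rw [hXx, hXx, g.apply_symm_apply, Uq_Uq, map_neg, g.symm_apply_apply]) (by
    intro x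
    rw [hXx, hXx, hg, Uq_J, map_neg, hgs])
  refine ⟨β, fun α x => ?_⟩
  have h0 : g.symm (Uq 0 x) = Uq β (g.symm x) := by
    rw [← hβ, hXx, g.apply_symm_apply]
  rw [Uq_eq α x, map_add, map_smul, map_smul, hgs, h0]
  apply C2_ext
  · simp only [PiLp.add_apply, PiLp.smul_apply, smul_eq_mul, J_apply0, Uq_apply,
      Iq_apply0, Kq_apply0, Iq_apply1, Kq_apply1, Real.cos_add, Real.sin_add]
    ring
  · simp only [PiLp.add_apply, PiLp.smul_apply, smul_eq_mul, J_apply1, Uq_apply,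
      Iq_apply0, Kq_apply0, Iq_apply1, Kq_apply1, Real.cos_add, Real.sin_add]
    ring
  · simp only [PiLp.add_apply, PiLp.smul_apply, smul_eq_mul, J_apply2, Uq_apply,
      Iq_apply2, Kq_apply2, Iq_apply3, Kq_apply3, Real.cos_add, Real.sin_add]
    ring
  · simp only [PiLp.add_apply, PiLp.smul_apply, smul_eq_mul, J_apply3, Uq_apply,
      Iq_apply2, Kq_apply2, Iq_apply3, Kq_apply3, Real.cos_add, Real.sin_add]
    ring

end Pool.Agent.Helper85.Cap
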