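import Pool.Agent.Helper85.Cap.G3
import Pool.Agent.Helper85.Cap.I1a
import Pool.Agent.Helper85.Cap.I1
import Pool.Agent.Helper85.Cap.I2

/-!
Assembly, part 4: the minimum of the hermitian valuations in the Crofton positive range.
-/
set_option autoImplicit false
open MeasureTheory Metric Set
open scoped ENNReal
open Pool.Agent.Helper85.Herm

namespace Pool.Agent.Helper85.Cap

theorem shad_eq (u : C2 → C2) (K : Body) (w : C2) :
    shad u (pts K) w = ENNReal.ofReal (area u K w) := by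
  unfold shad area
  rw [ENNReal.ofReal_toReal]
  have hc : Continuous (fun x : C2 => ((inner ℝ x w : ℝ), (inner ℝ x (u w) : ℝ))) := by fun_prop
  exact (K.isCompact.image hc).measure_lt_top.ne

/-- lower bound for the average shadow -/
theorem Mu_ge (u v : C2 ≃ₗᵢ[ℝ] C2) (hu : ∀ x, u (u x) = -x) (hv : ∀ x, v (v x) = -x)
    (huv : ∀ x, u (v x) = -v (u x)) (K : Body) (r : ℝ) (hr : 0 < r)
    (hvol : volume (ball (0 : C2) r) ≤ volume (pts K)) : Real.pi * r ^ 2 ≤ Mu u K := by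
  set A : ℝ := ∫ w : C2, area u K w * Real.exp (-‖w‖ ^ 2) with hA
  have hint : Integrable (fun w : C2 => area u K w * Real.exp (-‖w‖ ^ 2)) :=
    area_integrable u.toLinearIsometry K
  have hA0 : 0 ≤ A := integral_nonneg fun w =>
    mul_nonneg (I1_area_nonneg u K w) (Real.exp_pos _).le
  have hlin : ∫⁻ w : C2, ENNReal.ofReal (Real.exp (-‖w‖ ^ 2)) * shad u (pts K) w =
      ENNReal.ofReal A := by
    rw [hA, ofReal_integral_eq_lintegral_ofReal hint (Filter.Eventually.of_forall fun w =>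
      mul_nonneg (I1_area_nonneg u K w) (Real.exp_pos _).le)]
    refine lintegral_congr fun w => ?_
    rw [shad_eq u, ENNReal.ofReal_mul (I1_area_nonneg u K w), mul_comm]
  have h := G_sharp u v hu hv huv (pts K) K.isCompact r hr hvol A hA0 hlin
  have hp : (0 : ℝ) < 2 * Real.pi ^ 2 := by positivity
  unfold Mu
  rw [← hA, inv_mul_eq_div, le_div_iff₀ hp]
  exact h

/-- upper bound for balls -/
theorem Mu_ball_le (u : C2 ≃ₗᵢ[ℝ] C2) (hu : ∀ x, u (u x) = -x) (K : Body) (x₀ : C2) (r : ℝ)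
    (hr : 0 < r) (hK : pts K = closedBall x₀ r) : Mu u K ≤ Real.pi * r ^ 2 := by
  have skew : ∀ w : C2, (inner ℝ w (u w) : ℝ) = 0 := by
    intro w
    have h1 : (inner ℝ (u w) (u (u w)) : ℝ) = inner ℝ w (u w) := u.inner_map_map w (u w)
    rw [hu, inner_neg_right, real_inner_comm] at h1
    linarith
  have harea : ∀ w : C2, area u K w ≤ Real.pi * r ^ 2 * ‖w‖ ^ 2 := by
    intro w
    rcases eq_or_ne w 0 with rfl | hw
    · have : area u K 0 = 0 := by
        unfold area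
        have hsub : (fun x : C2 => ((inner ℝ x (0 : C2) : ℝ), (inner ℝ x (u 0) : ℝ))) '' pts K ⊆
            {(0 : ℝ × ℝ)} := by
          rintro _ ⟨x, _, rfl⟩
          simp
        have h0 : volume ((fun x : C2 => ((inner ℝ x (0 : C2) : ℝ), (inner ℝ x (u 0) : ℝ))) ''
            pts K) = 0 := by
          refine le_antisymm ((measure_mono hsub).trans ?_) zero_le
          simp
        rw [h0]; rfl
      rw [this]; simp
    · have hw' : 0 < ‖w‖ := norm_pos_iff.2 hw
      set p₀ : ℝ × ℝ := ((inner ℝ x₀ w : ℝ), (inner ℝ x₀ (u w) : ℝ)) with hp₀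
      have key : ∀ δ : ℝ, 0 < δ → area u K w ≤ Real.pi * (r ^ 2 * ‖w‖ ^ 2 + δ) := by
        intro δ hδ
        have hsub : (fun x : C2 => ((inner ℝ x w : ℝ), (inner ℝ x (u w) : ℝ))) '' pts K ⊆
            (fun q : ℝ × ℝ => q + p₀) '' {p : ℝ × ℝ | p.1 ^ 2 + p.2 ^ 2 < r ^ 2 * ‖w‖ ^ 2 + δ} := by
          rintro _ ⟨x, hx, rfl⟩
          rw [hK] at hx
          have hx' : ‖x - x₀‖ ≤ r := by rwa [mem_closedBall, dist_eq_norm] at hx
          refine ⟨((inner ℝ (x - x₀) w : ℝ), (inner ℝ (x - x₀) (u w) : ℝ)), ?_, ?_⟩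
          · change (inner ℝ (x - x₀) w : ℝ) ^ 2 + (inner ℝ (x - x₀) (u w) : ℝ) ^ 2 <
              r ^ 2 * ‖w‖ ^ 2 + δ
            set y := x - x₀ with hy
            set s : ℝ := inner ℝ y w with hs
            set t : ℝ := inner ℝ y (u w) with ht
            have e1 : ‖(‖w‖ ^ 2) • y - s • w - t • u w‖ ^ 2 =
                ‖w‖ ^ 4 * ‖y‖ ^ 2 - ‖w‖ ^ 2 * (s ^ 2 + t ^ 2) := by
              have hsw : (inner ℝ w (u w) : ℝ) = 0 := skew w
              have hnu : ‖u w‖ = ‖w‖ := u.norm_map w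
              rw [← real_inner_self_eq_norm_sq]
              simp only [inner_sub_left, inner_sub_right, real_inner_smul_left,
                real_inner_smul_right, real_inner_self_eq_norm_sq, hsw,
                real_inner_comm w (u w), real_inner_comm y w, real_inner_comm y (u w)]
              rw [← hs, ← ht, norm_smul, norm_smul, norm_smul, hnu]
              simp only [Real.norm_eq_abs, mul_pow, sq_abs]
              ring
            have e2 : 0 ≤ ‖w‖ ^ 4 * ‖y‖ ^ 2 - ‖w‖ ^ 2 * (s ^ 2 + t ^ 2) := by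
              rw [← e1]; positivity
            have e3 : s ^ 2 + t ^ 2 ≤ ‖w‖ ^ 2 * ‖y‖ ^ 2 := by
              have hw2 : 0 < ‖w‖ ^ 2 := by positivity
              have : ‖w‖ ^ 2 * (s ^ 2 + t ^ 2) ≤ ‖w‖ ^ 2 * (‖w‖ ^ 2 * ‖y‖ ^ 2) := by nlinarith
              exact le_of_mul_le_mul_left this hw2
            have e4 : ‖y‖ ^ 2 ≤ r ^ 2 := by
              have := norm_nonneg y
              nlinarith
            have e5 : ‖w‖ ^ 2 * ‖y‖ ^ 2 ≤ ‖w‖ ^ 2 * r ^ 2 :=
              mul_le_mul_of_nonneg_left e4 (by positivity)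
            nlinarith
          · simp only [hp₀, inner_sub_left, Prod.mk_add_mk, sub_add_cancel]
        unfold area
        refine ENNReal.toReal_le_of_le_ofReal (by positivity) ((measure_mono hsub).trans ?_)
        rw [Set.image_add_right, measure_preimage_add_right, F_disc]
      refine le_of_forall_pos_le_add fun δ hδ => ?_
      have := key (δ / Real.pi) (by positivity)
      have e : Real.pi * (r ^ 2 * ‖w‖ ^ 2 + δ / Real.pi) = Real.pi * r ^ 2 * ‖w‖ ^ 2 + δ := by
        field_simp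
      linarith
  have hint : Integrable (fun w : C2 => area u K w * Real.exp (-‖w‖ ^ 2)) :=
    area_integrable u.toLinearIsometry K
  have h1 : ∫ w : C2, area u K w * Real.exp (-‖w‖ ^ 2) ≤
      ∫ w : C2, (Real.pi * r ^ 2) * (‖w‖ ^ 2 * Real.exp (-‖w‖ ^ 2)) := by
    refine integral_mono hint (I1_gauss.const_mul _) fun w => ?_
    have := mul_le_mul_of_nonneg_right (harea w) (Real.exp_pos (-‖w‖ ^ 2)).le
    simp only
    linarith
  have h2 : ∫ w : C2, (‖w‖ ^ 2 * Real.exp (-‖w‖ ^ 2)) = 2 * Real.pi ^ 2 := by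
    rw [integral_eq_lintegral_of_nonneg_ae (Filter.Eventually.of_forall fun w => by positivity)
      I1_gauss.aestronglyMeasurable, gauss_moment, ENNReal.toReal_ofReal (by positivity)]
  rw [integral_const_mul, h2] at h1
  unfold Mu
  rw [inv_mul_eq_div, div_le_iff₀ (by positivity)]
  exact h1

theorem MLag_ge (K : Body) (r : ℝ) (hr : 0 < r)
    (hvol : volume (ball (0 : C2) r) ≤ volume (pts K)) : Real.pi * r ^ 2 ≤ MLag K := by
  have h : ∀ α : ℝ, Real.pi * r ^ 2 ≤ Mu (Uq α) K := fun α =>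
    Mu_ge (UL α) JL (Uq_Uq α) J_J (Uq_J α) K r hr hvol
  have h2 : ∫ _α in (0 : ℝ)..(2 * Real.pi), Real.pi * r ^ 2 ≤
      ∫ α in (0 : ℝ)..(2 * Real.pi), Mu (Uq α) K :=
    intervalIntegral.integral_mono_on (by positivity) (by simp)
      ((Mu_continuous_alpha K).intervalIntegrable _ _) fun α _ => h α
  rw [intervalIntegral.integral_const, sub_zero, smul_eq_mul] at h2
  unfold MLag
  rw [inv_mul_eq_div, le_div_iff₀ (by positivity)]
  linarith

theorem MLag_ball_le (K : Body) (x₀ : C2) (r : ℝ) (hr : 0 < r) (hK : pts K = closedBall x₀ r) :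
    MLag K ≤ Real.pi * r ^ 2 := by
  have h : ∀ α : ℝ, Mu (Uq α) K ≤ Real.pi * r ^ 2 := fun α =>
    Mu_ball_le (UL α) (Uq_Uq α) K x₀ r hr hK
  have h2 : ∫ α in (0 : ℝ)..(2 * Real.pi), Mu (Uq α) K ≤
      ∫ _α in (0 : ℝ)..(2 * Real.pi), Real.pi * r ^ 2 :=
    intervalIntegral.integral_mono_on (by positivity)
      ((Mu_continuous_alpha K).intervalIntegrable _ _) (by simp) fun α _ => h α
  rw [intervalIntegral.integral_const, sub_zero, smul_eq_mul] at h2
  unfold MLag
  rw [inv_mul_eq_div, div_le_iff₀ (by positivity)]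
  linarith

/-- volume of the ball of `ℝ⁴` -/
theorem vol_ball4 (x : C2) (r : ℝ) (hr : 0 ≤ r) :
    volume (closedBall x r) = ENNReal.ofReal (Real.pi ^ 2 / 2 * r ^ 4) := by
  rw [EuclideanSpace.volume_closedBall, ← ENNReal.ofReal_pow hr, ← ENNReal.ofReal_mul (by positivity)]
  congr 1
  have hG : Real.Gamma ((Fintype.card (Fin 4) : ℝ) / 2 + 1) = 2 := by
    have : (Fintype.card (Fin 4) : ℝ) / 2 + 1 = ((2 : ℕ) : ℝ) + 1 := by norm_num
    rw [this, Real.Gamma_nat_eq_factorial]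
    norm_num
  rw [hG]
  have hs : Real.sqrt Real.pi ^ Fintype.card (Fin 4) = Real.pi ^ 2 := by
    have : Fintype.card (Fin 4) = 2 * 2 := rfl
    rw [this, pow_mul, Real.sq_sqrt Real.pi_pos.le]
  rw [hs]
  simp only [Fintype.card_fin]
  ring

theorem vol_ball4' (x : C2) (r : ℝ) (hr : 0 ≤ r) :
    volume (ball x r) = ENNReal.ofReal (Real.pi ^ 2 / 2 * r ^ 4) := by
  rw [← vol_ball4 x r hr, Measure.addHaar_closedBall_eq_addHaar_ball]

/-- radius of the ball of unit volume -/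
noncomputable def r₁ : ℝ := Real.sqrt (Real.sqrt 2 / Real.pi)

theorem r₁_pos : 0 < r₁ := Real.sqrt_pos.2 (by positivity)
theorem r₁_sq : r₁ ^ 2 = Real.sqrt 2 / Real.pi := Real.sq_sqrt (by positivity)
theorem pi_r₁_sq : Real.pi * r₁ ^ 2 = Real.sqrt 2 := by rw [r₁_sq]; field_simp
theorem r₁_vol : Real.pi ^ 2 / 2 * r₁ ^ 4 = 1 := by
  have h : r₁ ^ 4 = (r₁ ^ 2) ^ 2 := by ring
  have h2 : Real.sqrt 2 ^ 2 = 2 := Real.sq_sqrt (by norm_num)
  rw [h, r₁_sq, div_pow, h2]
  field_simp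

theorem muab_ge (a b : ℝ) (h₁ : b ≤ 2 * a) (h₂ : 2 * a ≤ 3 * b) (K : Body) (hK : UnitVolume K) :
    Real.sqrt 2 * (2 * a + b) ≤ muab a b K := by
  have hvol : volume (ball (0 : C2) r₁) ≤ volume (pts K) := by
    rw [vol_ball4' 0 r₁ r₁_pos.le, r₁_vol, ENNReal.ofReal_one]
    exact le_of_eq hK.symm
  have hJ : Real.sqrt 2 ≤ Mu J K := by
    rw [← pi_r₁_sq]
    refine Mu_ge JL (UL 0) J_J (Uq_Uq 0) (J_Uq 0) K r₁ r₁_pos hvol
  have hL : Real.sqrt 2 ≤ MLag K := by
    rw [← pi_r₁_sq]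
    exact MLag_ge K r₁ r₁_pos hvol
  unfold muab
  have h1 := mul_le_mul_of_nonneg_left hJ (by linarith : 0 ≤ 3 * b - 2 * a)
  have h2 := mul_le_mul_of_nonneg_left hL (by linarith : 0 ≤ 2 * (2 * a - b))
  linarith

theorem muab_ball (a b : ℝ) (h₁ : b ≤ 2 * a) (h₂ : 2 * a ≤ 3 * b) (K : Body) (hK : UnitVolume K)
    (x₀ : C2) (r : ℝ) (hr : 0 ≤ r) (hKb : pts K = closedBall x₀ r) :
    muab a b K = Real.sqrt 2 * (2 * a + b) := by
  refine le_antisymm ?_ (muab_ge a b h₁ h₂ K hK)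
  have hvol : ENNReal.ofReal (Real.pi ^ 2 / 2 * r ^ 4) = 1 := by
    rw [← vol_ball4 x₀ r hr, ← hKb]; exact hK
  have hr1 : Real.pi ^ 2 / 2 * r ^ 4 = 1 := by
    have := congrArg ENNReal.toReal hvol
    rwa [ENNReal.toReal_ofReal (by positivity), ENNReal.toReal_one] at this
  have hrr : r = r₁ := by
    have h4 : r ^ 4 = r₁ ^ 4 := by
      have hp : (0 : ℝ) < Real.pi ^ 2 / 2 := by positivity
      have := hr1.trans r₁_vol.symm
      exact mul_left_cancel₀ hp.ne' this
    exact (pow_left_inj₀ hr r₁_pos.le (by norm_num)).1 h4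
  subst hrr
  have hJ : Mu J K ≤ Real.sqrt 2 := by
    rw [← pi_r₁_sq]
    exact Mu_ball_le JL J_J K x₀ r₁ r₁_pos hKb
  have hL : MLag K ≤ Real.sqrt 2 := by
    rw [← pi_r₁_sq]
    exact MLag_ball_le K x₀ r₁ r₁_pos hKb
  unfold muab
  have h1 := mul_le_mul_of_nonneg_left hJ (by linarith : 0 ≤ 3 * b - 2 * a)
  have h2 := mul_le_mul_of_nonneg_left hL (by linarith : 0 ≤ 2 * (2 * a - b))
  linarith

theorem isHermVal_muab (a b : ℝ) : IsHermVal a b (muab a b) where
  valuation := muab_valuation a b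
  continuous := muab_continuous a b
  translation := muab_translation a b
  unitary := muab_unitary a b
  homogeneous := muab_homogeneous a b
  klain := muab_klain a b

/-- the ball of unit volume -/
noncomputable def unitBall : Body where
  carrier := closedBall (0 : C2) r₁
  convex' := convex_closedBall _ _
  isCompact' := isCompact_closedBall _ _
  nonempty' := ⟨0, by simp [r₁_pos.le]⟩

theorem unitBall_volume : UnitVolume unitBall := by
  change volume (closedBall (0 : C2) r₁) = 1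
  rw [vol_ball4 0 r₁ r₁_pos.le, r₁_vol, ENNReal.ofReal_one]

theorem minimum_range (a b : ℝ) (h₁ : b ≤ 2 * a) (h₂ : 2 * a ≤ 3 * b) :
    ∃ μ : Body → ℝ, IsHermVal a b μ ∧
      IsLeast {r | ∃ K : Body, UnitVolume K ∧ μ K = r} (Real.sqrt 2 * (2 * a + b)) ∧
      ∀ (K : Body) (x : C2) (r : ℝ), 0 ≤ r → pts K = closedBall x r → UnitVolume K →
        μ K = Real.sqrt 2 * (2 * a + b) := by
  refine ⟨muab a b, isHermVal_muab a b, ⟨⟨unitBall, unitBall_volume,
    muab_ball a b h₁ h₂ unitBall unitBall_volume 0 r₁ r₁_pos.le rfl⟩, ?_⟩, ?_⟩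
  · rintro _ ⟨K, hK, rfl⟩
    exact muab_ge a b h₁ h₂ K hK
  · intro K x r hr hKb hK
    exact muab_ball a b h₁ h₂ K hK x r hr hKb

end Pool.Agent.Helper85.Cap
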