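import Mathlib
import Pool.Agent.Helper85.HermDefs

/-!
Definitions for MP_14a161_gt.MinimumRange (helper85).
-/
set_option autoImplicit false
open MeasureTheory Metric Set
open scoped ENNReal
open Pool.Agent.Helper85.Herm

namespace Pool.Agent.Helper85.Cap

/-! ### polarisation -/
section A
variable {E : Type*} [NormedAddCommGroup E] [InnerProductSpace ℝ E]

/-- affine function defining the hyperplane -/
noncomputable def ell (n : E) (c : ℝ) (x : E) : ℝ := inner ℝ n x - c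

/-- reflection in the hyperplane `⟨n, x⟩ = c` (for `‖n‖ = 1`) -/
noncomputable def refl (n : E) (c : ℝ) (x : E) : E := x - (2 * ell n c x) • n

/-- polarisation (two point rearrangement) towards the half space `⟨n, x⟩ ≤ c` -/
noncomputable def pol {β : Type*} [LinearOrder β] (n : E) (c : ℝ) (u : E → β) (x : E) : β :=
  if ell n c x ≤ 0 then max (u x) (u (refl n c x)) else min (u x) (u (refl n c x))

end A

/-- resolvent kernel of the Laplacian of `ℝ⁴` as a function of `t = ‖x‖` -/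
noncomputable def res (μ t : ℝ) : ℝ≥0∞ :=
  ∫⁻ s in Ioi (0 : ℝ), ENNReal.ofReal (Real.exp (-μ * s) * ((4 * Real.pi * s) ^ 2)⁻¹ *
    Real.exp (-t ^ 2 / (4 * s)))

/-- the area of the shadow of `K` -/
noncomputable def shad (u : C2 → C2) (K : Set C2) (w : C2) : ℝ≥0∞ :=
  volume ((fun x : C2 => ((inner ℝ x w : ℝ), (inner ℝ x (u w) : ℝ))) '' K)

noncomputable def qf (u v : C2 → C2) (f : C2 → ℝ≥0∞) (w : C2) : ℝ≥0∞ :=
  ∫⁻ x : C2, ∫⁻ p : ℝ × ℝ, f x * f (x + p.1 • v w + p.2 • u (v w))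

noncomputable def kap : ℝ≥0∞ :=
  ∫⁻ p : ℝ × ℝ, ENNReal.ofReal (((p.1 ^ 2 + p.2 ^ 2) ^ 4)⁻¹ * Real.exp (-(p.1 ^ 2 + p.2 ^ 2)⁻¹))

noncomputable def shell (r η : ℝ) : C2 → ℝ≥0∞ :=
  Set.indicator {x : C2 | r ^ 2 * (1 - η) ≤ ‖x‖ ^ 2 ∧ ‖x‖ ^ 2 < r ^ 2} 1

/-! ### the valuations -/

/-- quaternionic partner of `J`: `(z₁, z₂) ↦ (-conj z₂, conj z₁)` -/
noncomputable def Iq (x : C2) : C2 := WithLp.toLp 2 ![-x 2, x 3, x 0, -x 1]
/-- `Kq = J ∘ Iq` -/
noncomputable def Kq (x : C2) : C2 := WithLp.toLp 2 ![-x 3, -x 2, x 1, x 0]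

/-- the circle of orthogonal complex structures anticommuting with `J` -/
noncomputable def Uq (α : ℝ) (x : C2) : C2 := Real.cos α • Iq x + Real.sin α • Kq x

/-- area of the image of `K` under `x ↦ (⟨x, w⟩, ⟨x, u w⟩)`, i.e. `‖w‖²` times the area of the
orthogonal projection of `K` to the plane spanned by `w` and `u w` -/
noncomputable def area (u : C2 → C2) (K : Body) (w : C2) : ℝ :=
  (volume ((fun x : C2 => ((inner ℝ x w : ℝ), (inner ℝ x (u w) : ℝ))) '' pts K)).toReal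

/-- average area of the projections of `K` to the `u`-complex lines -/
noncomputable def Mu (u : C2 → C2) (K : Body) : ℝ :=
  (2 * Real.pi ^ 2)⁻¹ * ∫ w : C2, area u K w * Real.exp (-‖w‖ ^ 2)

/-- average area of the projections of `K` to the Lagrangian planes -/
noncomputable def MLag (K : Body) : ℝ :=
  (2 * Real.pi)⁻¹ * ∫ α in (0 : ℝ)..(2 * Real.pi), Mu (Uq α) K

noncomputable def muab (a b : ℝ) (K : Body) : ℝ :=
  (3 * b - 2 * a) * Mu J K + 2 * (2 * a - b) * MLag K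

end Pool.Agent.Helper85.Cap
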