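import Pool.Agent.Helper85.Cap.Defs

/-!
Module A of MP_14a161_gt (helper94 for helper85): polarisation (two point rearrangement) and
the comparison theorem `polar_main`.
-/
set_option autoImplicit false
set_option linter.unusedSectionVars false
open MeasureTheory Metric Set Filter Topology
open scoped ENNReal
open Pool.Agent.Helper85.Herm

namespace Pool.Agent.Helper85.Cap

section geom
variable {E : Type*} [NormedAddCommGroup E] [InnerProductSpace ℝ E]

theorem A_ell_refl {n : E} (hn : ‖n‖ = 1) (c : ℝ) (x : E) :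
    ell n c (refl n c x) = - ell n c x := by
  have h1 : inner ℝ n n = (1 : ℝ) := by rw [real_inner_self_eq_norm_sq, hn]; norm_num
  simp only [ell, refl, inner_sub_right, inner_smul_right, h1]
  ring

theorem A_refl_refl {n : E} (hn : ‖n‖ = 1) (c : ℝ) (x : E) :
    refl n c (refl n c x) = x := by
  have h := A_ell_refl hn c x
  have : refl n c (refl n c x) = refl n c x - (2 * ell n c (refl n c x)) • n := rfl
  rw [this, h, refl]
  module

theorem A_norm_refl_sq {n : E} (hn : ‖n‖ = 1) (c : ℝ) (x : E) :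
    ‖refl n c x‖ ^ 2 = ‖x‖ ^ 2 - 4 * c * ell n c x := by
  have h1 : inner ℝ n n = (1 : ℝ) := by rw [real_inner_self_eq_norm_sq, hn]; norm_num
  have h2 : inner ℝ x n = inner ℝ n x := real_inner_comm n x
  rw [← real_inner_self_eq_norm_sq, ← real_inner_self_eq_norm_sq]
  simp only [refl, inner_sub_left, inner_sub_right, inner_smul_left, inner_smul_right, h1, h2, ell,
    RCLike.conj_to_real]
  ring

theorem A_norm_sub_refl_sq {n : E} (hn : ‖n‖ = 1) (c : ℝ) (x y : E) :
    ‖x - refl n c y‖ ^ 2 = ‖x - y‖ ^ 2 + 4 * ell n c x * ell n c y := by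
  have h1 : inner ℝ n n = (1 : ℝ) := by rw [real_inner_self_eq_norm_sq, hn]; norm_num
  have h2 : inner ℝ x n = inner ℝ n x := real_inner_comm n x
  have h3 : inner ℝ y n = inner ℝ n y := real_inner_comm n y
  have h4 : inner ℝ y x = inner ℝ x y := real_inner_comm x y
  rw [← real_inner_self_eq_norm_sq, ← real_inner_self_eq_norm_sq]
  simp only [refl, inner_sub_left, inner_sub_right, inner_smul_left, inner_smul_right, h1, h2, h3,
    h4, ell, RCLike.conj_to_real]
  ring

theorem A_dist_refl_refl {n : E} (hn : ‖n‖ = 1) (c : ℝ) (x y : E) :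
    ‖refl n c x - refl n c y‖ = ‖x - y‖ := by
  have h1 := A_norm_sub_refl_sq hn c (refl n c x) y
  have h2 := A_norm_sub_refl_sq hn c y x
  rw [A_ell_refl hn, norm_sub_rev (refl n c x) y, h2, norm_sub_rev y x] at h1
  have h3 : ‖refl n c x - refl n c y‖ ^ 2 = ‖x - y‖ ^ 2 := by rw [h1]; ring
  exact (sq_eq_sq₀ (norm_nonneg _) (norm_nonneg _)).1 h3

theorem A_norm_refl_sub {n : E} (hn : ‖n‖ = 1) (c : ℝ) (x y : E) :
    ‖refl n c x - y‖ = ‖x - refl n c y‖ := by
  have h := A_dist_refl_refl hn c x (refl n c y)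
  rw [A_refl_refl hn] at h
  exact h

theorem A_refl_eq_self {n : E} {c : ℝ} {x : E} (h : ell n c x = 0) : refl n c x = x := by
  simp [refl, h]

theorem A_continuous_ell (n : E) (c : ℝ) : Continuous (ell n c) := by
  unfold ell; fun_prop

theorem A_continuous_refl (n : E) (c : ℝ) : Continuous (refl n c) := by
  unfold refl ell; fun_prop

theorem A_refl_eq [FiniteDimensional ℝ E] {n : E} (hn : ‖n‖ = 1) (c : ℝ) (x : E) :
    refl n c x = (Submodule.reflection (ℝ ∙ n)ᗮ) x + (2 * c) • n := by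
  rw [Submodule.reflection_orthogonal_apply, Submodule.reflection_singleton_apply]
  simp only [hn, refl, ell, RCLike.ofReal_real_eq_id, id_eq, one_pow, div_one]
  module

theorem A_mp_refl [FiniteDimensional ℝ E] [MeasurableSpace E] [BorelSpace E]
    {n : E} (hn : ‖n‖ = 1) (c : ℝ) :
    MeasurePreserving (refl n c) (volume : Measure E) volume := by
  have h1 : MeasurePreserving (Submodule.reflection (ℝ ∙ n)ᗮ) (volume : Measure E) volume :=
    LinearIsometryEquiv.measurePreserving _
  have h2 : MeasurePreserving (fun x : E => x + (2 * c) • n) (volume : Measure E) volume :=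
    measurePreserving_add_right volume _
  have h3 := h2.comp h1
  have : (fun x : E => x + (2 * c) • n) ∘ (Submodule.reflection (ℝ ∙ n)ᗮ) = refl n c := by
    funext x; simp only [Function.comp_apply]; exact (A_refl_eq hn c x).symm
  rwa [this] at h3

end geom

section pol
variable {E : Type*} [NormedAddCommGroup E] [InnerProductSpace ℝ E]
variable {β : Type*} [LinearOrder β]

/-- on the small side the polarisation is the maximum, on the reflected point the minimum -/
theorem A_pol_of_nonpos {n : E} (hn : ‖n‖ = 1) {c : ℝ} (u : E → β) {x : E}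
    (hx : ell n c x ≤ 0) :
    pol n c u x = max (u x) (u (refl n c x)) ∧
      pol n c u (refl n c x) = min (u x) (u (refl n c x)) := by
  refine ⟨by simp [pol, hx], ?_⟩
  rcases hx.eq_or_lt with h | h
  · rw [A_refl_eq_self h]
    simp [pol, hx, A_refl_eq_self h]
  · have : ¬ ell n c (refl n c x) ≤ 0 := by rw [A_ell_refl hn]; linarith
    simp [pol, this, A_refl_refl hn, min_comm]

theorem A_pol_of_pos {n : E} (hn : ‖n‖ = 1) {c : ℝ} (u : E → β) {x : E}
    (hx : 0 < ell n c x) :
    pol n c u x = min (u x) (u (refl n c x)) ∧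
      pol n c u (refl n c x) = max (u x) (u (refl n c x)) := by
  have h1 : ¬ ell n c x ≤ 0 := by linarith
  have h2 : ell n c (refl n c x) ≤ 0 := by rw [A_ell_refl hn]; linarith
  refine ⟨by simp [pol, h1], ?_⟩
  simp [pol, h2, A_refl_refl hn, max_comm]

theorem A_pol_comp {γ : Type*} [LinearOrder γ] (n : E) (c : ℝ) (u : E → β) (g : β → γ)
    (hg : Monotone g) (x : E) : pol n c (fun y => g (u y)) x = g (pol n c u x) := by
  unfold pol
  split_ifs
  · exact (hg.map_max).symm
  · exact (hg.map_min).symm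

end pol

section energy

theorem A_rearr_aux {a a' b b' p q : ℝ≥0∞} (ha : a ≤ a') (hb : b ≤ b') (hq : q ≤ p) :
    (a * b' + a' * b) * p + (a * b + a' * b') * q ≤
      (a * b + a' * b') * p + (a * b' + a' * b) * q := by
  obtain ⟨x, rfl⟩ := exists_add_of_le ha
  obtain ⟨y, rfl⟩ := exists_add_of_le hb
  obtain ⟨d, rfl⟩ := exists_add_of_le hq
  have h : (a * b + (a + x) * (b + y)) * (q + d) + (a * (b + y) + (a + x) * b) * q =
      (a * (b + y) + (a + x) * b) * (q + d) + (a * b + (a + x) * (b + y)) * q + x * y * d := by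
    ring
  rw [h]
  exact le_self_add

/-- the pointwise rearrangement inequality -/
theorem A_rearr (a a' b b' p q : ℝ≥0∞) (hq : q ≤ p) :
    (a * b + a' * b') * p + (a * b' + a' * b) * q ≤
      (max a a' * max b b' + min a a' * min b b') * p +
        (max a a' * min b b' + min a a' * max b b') * q := by
  rcases le_total a a' with ha | ha <;> rcases le_total b b' with hb | hb
  · simp only [max_eq_right ha, min_eq_left ha, max_eq_right hb, min_eq_left hb]
    exact le_of_eq (by ring)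
  · simp only [max_eq_right ha, min_eq_left ha, max_eq_left hb, min_eq_right hb]
    have := A_rearr_aux ha hb hq
    calc _ = (a * b + a' * b') * p + (a * b' + a' * b) * q := rfl
      _ ≤ _ := this
      _ = _ := by ring
  · simp only [max_eq_left ha, min_eq_right ha, max_eq_right hb, min_eq_left hb]
    have := A_rearr_aux ha hb hq
    calc _ = (a' * b' + a * b) * p + (a' * b + a * b') * q := by ring
      _ ≤ _ := this
      _ = _ := by ring
  · simp only [max_eq_left ha, min_eq_right ha, max_eq_left hb, min_eq_right hb]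
    exact le_of_eq (by ring)

variable {E : Type*} [NormedAddCommGroup E] [InnerProductSpace ℝ E]

theorem A_pointwise {n : E} (hn : ‖n‖ = 1) (c : ℝ) (u : E → ℝ≥0∞) (ρ : ℝ → ℝ≥0∞)
    (hρ : AntitoneOn ρ (Ici 0)) (x y : E) :
    u x * ρ ‖x - y‖ * u y + u (refl n c x) * ρ ‖refl n c x - y‖ * u y +
      u x * ρ ‖x - refl n c y‖ * u (refl n c y) +
      u (refl n c x) * ρ ‖refl n c x - refl n c y‖ * u (refl n c y) ≤
    pol n c u x * ρ ‖x - y‖ * pol n c u y +
      pol n c u (refl n c x) * ρ ‖refl n c x - y‖ * pol n c u y +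
      pol n c u x * ρ ‖x - refl n c y‖ * pol n c u (refl n c y) +
      pol n c u (refl n c x) * ρ ‖refl n c x - refl n c y‖ * pol n c u (refl n c y) := by
  rw [A_dist_refl_refl hn, A_norm_refl_sub hn]
  have hsq := A_norm_sub_refl_sq hn c x y
  set p1 := ρ ‖x - y‖ with hp1
  set p2 := ρ ‖x - refl n c y‖ with hp2
  have key1 : 0 ≤ ell n c x * ell n c y → p2 ≤ p1 := by
    intro h
    apply hρ (norm_nonneg _) (norm_nonneg _)
    have : ‖x - y‖ ^ 2 ≤ ‖x - refl n c y‖ ^ 2 := by rw [hsq]; nlinarith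
    exact (sq_le_sq₀ (norm_nonneg _) (norm_nonneg _)).1 this
  have key2 : ell n c x * ell n c y ≤ 0 → p1 ≤ p2 := by
    intro h
    apply hρ (norm_nonneg _) (norm_nonneg _)
    have : ‖x - refl n c y‖ ^ 2 ≤ ‖x - y‖ ^ 2 := by rw [hsq]; nlinarith
    exact (sq_le_sq₀ (norm_nonneg _) (norm_nonneg _)).1 this
  set a := u x
  set a' := u (refl n c x)
  set b := u y
  set b' := u (refl n c y)
  have e1 : a * p1 * b + a' * p2 * b + a * p2 * b' + a' * p1 * b' =
      (a * b + a' * b') * p1 + (a * b' + a' * b) * p2 := by ring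
  rw [e1]
  rcases le_or_gt (ell n c x) 0 with hx | hx <;> rcases le_or_gt (ell n c y) 0 with hy | hy
  · obtain ⟨h1, h2⟩ := A_pol_of_nonpos hn u hx
    obtain ⟨h3, h4⟩ := A_pol_of_nonpos hn u hy
    rw [h1, h2, h3, h4]
    refine (A_rearr a a' b b' p1 p2 (key1 (mul_nonneg_of_nonpos_of_nonpos hx hy))).trans
      (le_of_eq ?_)
    ring
  · obtain ⟨h1, h2⟩ := A_pol_of_nonpos hn u hx
    obtain ⟨h3, h4⟩ := A_pol_of_pos hn u hy
    rw [h1, h2, h3, h4]
    have := A_rearr a a' b' b p2 p1 (key2 (mul_nonpos_of_nonpos_of_nonneg hx hy.le))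
    calc _ = (a * b' + a' * b) * p2 + (a * b + a' * b') * p1 := by ring
      _ ≤ _ := this
      _ = _ := by rw [max_comm b' b, min_comm b' b]; ring
  · obtain ⟨h1, h2⟩ := A_pol_of_pos hn u hx
    obtain ⟨h3, h4⟩ := A_pol_of_nonpos hn u hy
    rw [h1, h2, h3, h4]
    have := A_rearr a' a b b' p2 p1 (key2 (mul_nonpos_of_nonneg_of_nonpos hx.le hy))
    calc _ = (a' * b + a * b') * p2 + (a' * b' + a * b) * p1 := by ring
      _ ≤ _ := this
      _ = _ := by rw [max_comm a' a, min_comm a' a]; ring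
  · obtain ⟨h1, h2⟩ := A_pol_of_pos hn u hx
    obtain ⟨h3, h4⟩ := A_pol_of_pos hn u hy
    rw [h1, h2, h3, h4]
    have := A_rearr a' a b' b p1 p2 (key1 (mul_nonneg hx.le hy.le))
    calc _ = (a' * b' + a * b) * p1 + (a' * b + a * b') * p2 := by ring
      _ ≤ _ := this
      _ = _ := by rw [max_comm a' a, min_comm a' a, max_comm b' b, min_comm b' b]; ring

variable [MeasurableSpace E] [BorelSpace E]

theorem A_measurable_pol {β : Type*} [LinearOrder β] [TopologicalSpace β] [OrderClosedTopology β]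
    [SecondCountableTopology β] [MeasurableSpace β] [BorelSpace β] (n : E) (c : ℝ) {u : E → β}
    (hu : Measurable u) : Measurable (pol n c u) := by
  have h1 : Measurable (fun x => u (refl n c x)) := hu.comp (A_continuous_refl n c).measurable
  exact Measurable.ite (measurableSet_le (A_continuous_ell n c).measurable measurable_const)
    (hu.max h1) (hu.min h1)

variable [FiniteDimensional ℝ E]

theorem A_energy_sym {n : E} (hn : ‖n‖ = 1) (c : ℝ) (F : E × E → ℝ≥0∞) (hF : Measurable F) :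
    4 * ∫⁻ z, F z ∂((volume : Measure E).prod volume) =
      ∫⁻ z, (F z + F (refl n c z.1, z.2) + F (z.1, refl n c z.2) +
        F (refl n c z.1, refl n c z.2)) ∂((volume : Measure E).prod volume) := by
  have hs := A_mp_refl (E := E) hn c
  have hid : MeasurePreserving (fun x : E => x) (volume : Measure E) volume :=
    MeasurePreserving.id _
  have h1 := (hs.prod hid).lintegral_comp hF
  have h2 := (hid.prod hs).lintegral_comp hF
  have h3 := (hs.prod hs).lintegral_comp hF
  have m1 : Measurable (fun z : E × E => F (refl n c z.1, z.2)) :=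
    hF.comp (hs.prod hid).measurable
  have m2 : Measurable (fun z : E × E => F (z.1, refl n c z.2)) :=
    hF.comp (hid.prod hs).measurable
  have m12 : Measurable (fun z : E × E => F z + F (refl n c z.1, z.2)) := hF.add m1
  have m123 : Measurable (fun z : E × E => F z + F (refl n c z.1, z.2) +
    F (z.1, refl n c z.2)) := m12.add m2
  rw [lintegral_add_left m123, lintegral_add_left m12, lintegral_add_left hF]
  simp only [Prod.map] at h1 h2 h3
  rw [h1, h2, h3]
  ring

theorem A_energy {n : E} (hn : ‖n‖ = 1) (c : ℝ) (u : E → ℝ≥0∞) (hu : Measurable u)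
    (ρ : ℝ → ℝ≥0∞) (hρm : Measurable ρ) (hρ : AntitoneOn ρ (Ici 0)) :
    ∫⁻ x, ∫⁻ y, u x * ρ ‖x - y‖ * u y ≤
      ∫⁻ x, ∫⁻ y, pol n c u x * ρ ‖x - y‖ * pol n c u y := by
  have hm : ∀ w : E → ℝ≥0∞, Measurable w →
      Measurable (fun z : E × E => w z.1 * ρ ‖z.1 - z.2‖ * w z.2) := by
    intro w hw
    exact ((hw.comp measurable_fst).mul
      (hρm.comp (measurable_fst.sub measurable_snd).norm)).mul (hw.comp measurable_snd)
  have hpu := A_measurable_pol n c hu
  have e1 : ∫⁻ x, ∫⁻ y, u x * ρ ‖x - y‖ * u y =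
      ∫⁻ z, (fun z : E × E => u z.1 * ρ ‖z.1 - z.2‖ * u z.2) z
        ∂((volume : Measure E).prod volume) :=
    (lintegral_prod _ (hm u hu).aemeasurable).symm
  have e2 : ∫⁻ x, ∫⁻ y, pol n c u x * ρ ‖x - y‖ * pol n c u y =
      ∫⁻ z, (fun z : E × E => pol n c u z.1 * ρ ‖z.1 - z.2‖ * pol n c u z.2) z
        ∂((volume : Measure E).prod volume) :=
    (lintegral_prod _ (hm _ hpu).aemeasurable).symm
  rw [e1, e2]
  have h4 : (4 : ℝ≥0∞) ≠ 0 := by norm_num
  have h4' : (4 : ℝ≥0∞) ≠ ∞ := by norm_num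
  rw [← ENNReal.mul_le_mul_iff_right h4 h4', A_energy_sym hn c _ (hm u hu),
    A_energy_sym hn c _ (hm _ hpu)]
  refine lintegral_mono fun z => ?_
  exact A_pointwise hn c u ρ hρ z.1 z.2

/-- the polarisation is equimeasurable with the function -/
theorem A_equi {β : Type*} [LinearOrder β] [TopologicalSpace β] [OrderClosedTopology β]
    [SecondCountableTopology β] [MeasurableSpace β] [BorelSpace β] {n : E} (hn : ‖n‖ = 1) (c : ℝ)
    {u : E → β} (hu : Measurable u) (Φ : β → ℝ≥0∞) (hΦ : Measurable Φ) :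
    ∫⁻ x, Φ (pol n c u x) = ∫⁻ x, Φ (u x) := by
  have hs := A_mp_refl (E := E) hn c
  have hpu := A_measurable_pol n c hu
  have h1 := hs.lintegral_comp (hΦ.comp hu)
  have h2 := hs.lintegral_comp (hΦ.comp hpu)
  have h2' : (2 : ℝ≥0∞) ≠ 0 := by norm_num
  have h2'' : (2 : ℝ≥0∞) ≠ ∞ := by norm_num
  simp only [Function.comp_apply] at h1 h2
  have e1 : 2 * ∫⁻ x, Φ (pol n c u x) =
      ∫⁻ x, (Φ (pol n c u x) + Φ (pol n c u (refl n c x))) := by
    have m : Measurable (fun x => Φ (pol n c u x)) := hΦ.comp hpu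
    rw [lintegral_add_left m, h2, two_mul]
  have e2 : 2 * ∫⁻ x, Φ (u x) = ∫⁻ x, (Φ (u x) + Φ (u (refl n c x))) := by
    have m : Measurable (fun x => Φ (u x)) := hΦ.comp hu
    rw [lintegral_add_left m, h1, two_mul]
  have e3 : 2 * ∫⁻ x, Φ (pol n c u x) = 2 * ∫⁻ x, Φ (u x) := by
    rw [e1, e2]
    refine lintegral_congr fun x => ?_
    rcases le_or_gt (ell n c x) 0 with hx | hx
    · obtain ⟨h3, h4⟩ := A_pol_of_nonpos hn u hx
      rw [h3, h4]
      rcases le_total (u x) (u (refl n c x)) with h | h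
      · rw [max_eq_right h, min_eq_left h, add_comm]
      · rw [max_eq_left h, min_eq_right h]
    · obtain ⟨h3, h4⟩ := A_pol_of_pos hn u hx
      rw [h3, h4]
      rcases le_total (u x) (u (refl n c x)) with h | h
      · rw [max_eq_right h, min_eq_left h]
      · rw [max_eq_left h, min_eq_right h, add_comm]
  exact (ENNReal.mul_right_inj h2' h2'').1 e3

end energy

section cls
variable {E : Type*} [NormedAddCommGroup E] [InnerProductSpace ℝ E]

theorem A_abs_pol_le {n : E} (hn : ‖n‖ = 1) (c : ℝ) (v : E → ℝ) (δ ε : ℝ)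
    (hv : ∀ a b, ‖a - b‖ ≤ δ → |v a - v b| ≤ ε) (x y : E) (hxy : ‖x - y‖ ≤ δ) :
    |pol n c v x - pol n c v y| ≤ ε := by
  have d1 := hv _ _ hxy
  have d2 : |v (refl n c x) - v (refl n c y)| ≤ ε := by
    apply hv; rw [A_dist_refl_refl hn]; exact hxy
  have hsq := A_norm_sub_refl_sq hn c x y
  have hop : ell n c x * ell n c y ≤ 0 →
      |v x - v (refl n c y)| ≤ ε ∧ |v (refl n c x) - v y| ≤ ε := by
    intro h
    have h3 : ‖x - refl n c y‖ ^ 2 ≤ ‖x - y‖ ^ 2 := by rw [hsq]; nlinarith
    have h4 : ‖x - refl n c y‖ ≤ ‖x - y‖ := (sq_le_sq₀ (norm_nonneg _) (norm_nonneg _)).1 h3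
    refine ⟨hv _ _ (h4.trans hxy), hv _ _ ?_⟩
    rw [A_norm_refl_sub hn]
    exact h4.trans hxy
  rcases le_or_gt (ell n c x) 0 with hx | hx <;> rcases le_or_gt (ell n c y) 0 with hy | hy
  · rw [(A_pol_of_nonpos hn v hx).1, (A_pol_of_nonpos hn v hy).1]
    exact (abs_max_sub_max_le_max _ _ _ _).trans (max_le d1 d2)
  · obtain ⟨d3, d4⟩ := hop (mul_nonpos_of_nonpos_of_nonneg hx hy.le)
    rw [(A_pol_of_nonpos hn v hx).1, (A_pol_of_pos hn v hy).1]
    rcases max_cases (v x) (v (refl n c x)) with h | h <;>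
      rcases min_cases (v y) (v (refl n c y)) with h' | h' <;> rw [h.1, h'.1] <;> assumption
  · obtain ⟨d3, d4⟩ := hop (mul_nonpos_of_nonneg_of_nonpos hx.le hy)
    rw [(A_pol_of_pos hn v hx).1, (A_pol_of_nonpos hn v hy).1]
    rcases min_cases (v x) (v (refl n c x)) with h | h <;>
      rcases max_cases (v y) (v (refl n c y)) with h' | h' <;> rw [h.1, h'.1] <;> assumption
  · rw [(A_pol_of_pos hn v hx).1, (A_pol_of_pos hn v hy).1]
    exact (abs_min_sub_min_le_max _ _ _ _).trans (max_le d1 d2)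

theorem A_pol_zero_off {n : E} (hn : ‖n‖ = 1) {c : ℝ} (hc : 0 ≤ c) (v : E → ℝ)
    (hv0 : ∀ x, 0 ≤ v x) (R : ℝ) (hR : ∀ x, R < ‖x‖ → v x = 0) (x : E) (hx : R < ‖x‖) :
    pol n c v x = 0 := by
  rcases le_or_gt (ell n c x) 0 with h | h
  · rw [(A_pol_of_nonpos hn v h).1, hR x hx]
    have h1 : ‖x‖ ^ 2 ≤ ‖refl n c x‖ ^ 2 := by
      rw [A_norm_refl_sq hn]; nlinarith [mul_nonneg hc (neg_nonneg.2 h)]
    have h2 : ‖x‖ ≤ ‖refl n c x‖ := (sq_le_sq₀ (norm_nonneg _) (norm_nonneg _)).1 h1
    rw [hR _ (hx.trans_le h2), max_self]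
  · rw [(A_pol_of_pos hn v h).1, hR x hx]
    exact min_eq_left (hv0 _)

theorem A_pol_nonneg (n : E) (c : ℝ) (v : E → ℝ) (hv0 : ∀ x, 0 ≤ v x) (x : E) :
    0 ≤ pol n c v x := by
  unfold pol
  split_ifs
  · exact (hv0 x).trans (le_max_left _ _)
  · exact le_min (hv0 _) (hv0 _)

theorem A_pol_le (n : E) (c : ℝ) (v : E → ℝ) (M : ℝ) (hv : ∀ x, v x ≤ M) (x : E) :
    pol n c v x ≤ M := by
  unfold pol
  split_ifs
  · exact max_le (hv _) (hv _)
  · exact (min_le_left _ _).trans (hv _)

variable [FiniteDimensional ℝ E] [MeasurableSpace E] [BorelSpace E]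

/-- the class of competitors -/
structure A_Good (ρ : ℝ → ℝ≥0∞) (h : E → ℝ) (R M : ℝ) (v : E → ℝ) : Prop where
  nonneg : ∀ x, 0 ≤ v x
  le : ∀ x, v x ≤ M
  supp : ∀ x, R < ‖x‖ → v x = 0
  mod : ∀ δ ε : ℝ, (∀ a b, ‖a - b‖ ≤ δ → |h a - h b| ≤ ε) →
    ∀ a b, ‖a - b‖ ≤ δ → |v a - v b| ≤ ε
  l2 : ∫⁻ x, ENNReal.ofReal (v x) ^ 2 = ∫⁻ x, ENNReal.ofReal (h x) ^ 2
  en : ∫⁻ x, ∫⁻ y, ENNReal.ofReal (h x) * ρ ‖x - y‖ * ENNReal.ofReal (h y) ≤
    ∫⁻ x, ∫⁻ y, ENNReal.ofReal (v x) * ρ ‖x - y‖ * ENNReal.ofReal (v y)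
  vol : volume {x | 1 ≤ h x} ≤ volume {x | 1 ≤ v x}

theorem A_continuous_of_mod {h v : E → ℝ} (hu : UniformContinuous h)
    (hmod : ∀ δ ε : ℝ, (∀ a b, ‖a - b‖ ≤ δ → |h a - h b| ≤ ε) →
      ∀ a b, ‖a - b‖ ≤ δ → |v a - v b| ≤ ε) : UniformContinuous v := by
  rw [Metric.uniformContinuous_iff] at hu ⊢
  intro ε hε
  obtain ⟨δ, hδ, H⟩ := hu (ε / 2) (by positivity)
  refine ⟨δ / 2, by positivity, fun {a b} hab => ?_⟩
  have := hmod (δ / 2) (ε / 2) (fun a b hab => by
    have : dist a b < δ := by rw [dist_eq_norm]; linarith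
    have := H this
    rw [Real.dist_eq] at this
    exact this.le) a b (by rw [← dist_eq_norm]; exact hab.le)
  rw [Real.dist_eq]
  linarith

theorem A_good_pol {ρ : ℝ → ℝ≥0∞} (hρm : Measurable ρ) (hρ : AntitoneOn ρ (Ici 0)) {h : E → ℝ}
    (hu : UniformContinuous h) {R M : ℝ} {v : E → ℝ} (hv : A_Good ρ h R M v) {n : E}
    (hn : ‖n‖ = 1) {c : ℝ} (hc : 0 ≤ c) : A_Good ρ h R M (pol n c v) := by
  have hvm : Measurable v := (A_continuous_of_mod hu hv.mod).continuous.measurable
  refine ⟨A_pol_nonneg n c v hv.nonneg, A_pol_le n c v M hv.le,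
    A_pol_zero_off hn hc v hv.nonneg R hv.supp,
    fun δ ε H => A_abs_pol_le hn c v δ ε (hv.mod δ ε H), ?_, ?_, ?_⟩
  · rw [← hv.l2]
    exact A_equi hn c hvm (fun t => ENNReal.ofReal t ^ 2)
      (ENNReal.measurable_ofReal.pow_const 2)
  · refine hv.en.trans ?_
    have h1 := A_energy hn c (fun x => ENNReal.ofReal (v x)) (ENNReal.measurable_ofReal.comp hvm)
      ρ hρm hρ
    simp only [A_pol_comp n c v ENNReal.ofReal ENNReal.ofReal_mono] at h1
    exact h1
  · refine hv.vol.trans ?_
    have h1 := A_equi hn c hvm ((Ici (1 : ℝ)).indicator 1)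
      ((measurable_const (a := (1 : ℝ≥0∞))).indicator measurableSet_Ici)
    have h2 : ∀ w : E → ℝ, Measurable w →
        ∫⁻ x, (Ici (1 : ℝ)).indicator (1 : ℝ → ℝ≥0∞) (w x) = volume {x | 1 ≤ w x} := by
      intro w hw
      have h3 : MeasurableSet {x | 1 ≤ w x} := measurableSet_le measurable_const hw
      rw [← lintegral_indicator_one h3]
      refine lintegral_congr fun x => ?_
      by_cases hx : 1 ≤ w x
      · rw [indicator_of_mem (show w x ∈ Ici (1 : ℝ) from hx),
          indicator_of_mem (show x ∈ {x | 1 ≤ w x} from hx)]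
        rfl
      · rw [indicator_of_notMem (show w x ∉ Ici (1 : ℝ) from hx),
          indicator_of_notMem (show x ∉ {x | 1 ≤ w x} from hx)]
    rw [h2 _ hvm, h2 _ (A_measurable_pol n c hvm)] at h1
    exact h1.symm.le

theorem A_lintegral_sub (ρ : ℝ → ℝ≥0∞) (x : E) :
    ∫⁻ y : E, ρ ‖x - y‖ = ∫⁻ y : E, ρ ‖y‖ :=
  lintegral_sub_left_eq_self (fun y : E => ρ ‖y‖) x

theorem A_energy_lim {ρ : ℝ → ℝ≥0∞} (hρm : Measurable ρ) (hρi : ∫⁻ x : E, ρ ‖x‖ ≠ ∞) {R M : ℝ}
    {v : ℕ → E → ℝ} {w : E → ℝ} (hvm : ∀ k, Measurable (v k)) (hM : ∀ k x, v k x ≤ M)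
    (hR : ∀ k x, R < ‖x‖ → v k x = 0)
    (hlim : ∀ x, Tendsto (fun k => v k x) atTop (𝓝 (w x))) :
    Tendsto (fun k => ∫⁻ x, ∫⁻ y, ENNReal.ofReal (v k x) * ρ ‖x - y‖ * ENNReal.ofReal (v k y))
      atTop (𝓝 (∫⁻ x, ∫⁻ y, ENNReal.ofReal (w x) * ρ ‖x - y‖ * ENNReal.ofReal (w y))) := by
  have hl : ∀ x, Tendsto (fun k => ENNReal.ofReal (v k x)) atTop (𝓝 (ENNReal.ofReal (w x))) :=
    fun x => (ENNReal.continuous_ofReal.tendsto _).comp (hlim x)
  have hb : ∀ k x, ENNReal.ofReal (v k x) ≤ ENNReal.ofReal M :=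
    fun k x => ENNReal.ofReal_le_ofReal (hM k x)
  have hrm : ∀ x : E, Measurable (fun y : E => ρ ‖x - y‖) := fun x =>
    hρm.comp (measurable_const.sub measurable_id).norm
  have hbi : ∀ x : E, ∫⁻ y : E, ENNReal.ofReal M * ρ ‖x - y‖ * ENNReal.ofReal M =
      ENNReal.ofReal M * (∫⁻ y : E, ρ ‖y‖) * ENNReal.ofReal M := by
    intro x
    rw [lintegral_mul_const _ ((hrm x).const_mul _), lintegral_const_mul _ (hrm x),
      A_lintegral_sub]
  have hfin : ENNReal.ofReal M * (∫⁻ y : E, ρ ‖y‖) * ENNReal.ofReal M ≠ ∞ :=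
    ENNReal.mul_ne_top (ENNReal.mul_ne_top ENNReal.ofReal_ne_top hρi) ENNReal.ofReal_ne_top
  have inner : ∀ x : E, Tendsto (fun k => ∫⁻ y : E, ENNReal.ofReal (v k x) * ρ ‖x - y‖ *
      ENNReal.ofReal (v k y)) atTop
      (𝓝 (∫⁻ y : E, ENNReal.ofReal (w x) * ρ ‖x - y‖ * ENNReal.ofReal (w y))) := by
    intro x
    refine tendsto_lintegral_of_dominated_convergence
      (fun y => ENNReal.ofReal M * ρ ‖x - y‖ * ENNReal.ofReal M) ?_ ?_ ?_ ?_
    · intro k
      exact ((hrm x).const_mul _).mul (ENNReal.measurable_ofReal.comp (hvm k))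
    · intro k
      refine Eventually.of_forall fun y => ?_
      exact mul_le_mul' (mul_le_mul' (hb k x) le_rfl) (hb k y)
    · rw [hbi]; exact hfin
    · have : ∀ᵐ y : E, ρ ‖x - y‖ < ∞ := by
        refine ae_lt_top (hrm x) ?_
        rw [A_lintegral_sub]; exact hρi
      filter_upwards [this] with y hy
      refine ENNReal.Tendsto.mul (ENNReal.Tendsto.mul_const (hl x) (Or.inr hy.ne))
        (Or.inr ENNReal.ofReal_ne_top) (hl y)
        (Or.inr (ENNReal.mul_ne_top ENNReal.ofReal_ne_top hy.ne))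
  have hjm : ∀ k, Measurable (fun x : E => ∫⁻ y : E, ENNReal.ofReal (v k x) * ρ ‖x - y‖ *
      ENNReal.ofReal (v k y)) := by
    intro k
    have : Measurable (fun z : E × E => ENNReal.ofReal (v k z.1) * ρ ‖z.1 - z.2‖ *
        ENNReal.ofReal (v k z.2)) :=
      ((ENNReal.measurable_ofReal.comp ((hvm k).comp measurable_fst)).mul
        (hρm.comp (measurable_fst.sub measurable_snd).norm)).mul
        (ENNReal.measurable_ofReal.comp ((hvm k).comp measurable_snd))
    exact this.lintegral_prod_right'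
  refine tendsto_lintegral_of_dominated_convergence
    ((closedBall (0 : E) R).indicator
      (fun _ => ENNReal.ofReal M * (∫⁻ y : E, ρ ‖y‖) * ENNReal.ofReal M)) hjm ?_ ?_
    (Eventually.of_forall inner)
  · intro k
    refine Eventually.of_forall fun x => ?_
    by_cases hx : x ∈ closedBall (0 : E) R
    · rw [indicator_of_mem hx, ← hbi x]
      refine lintegral_mono fun y => ?_
      exact mul_le_mul' (mul_le_mul' (hb k x) le_rfl) (hb k y)
    · rw [indicator_of_notMem hx]
      rw [mem_closedBall, dist_zero_right, not_le] at hx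
      simp [hR k x hx]
  · rw [lintegral_indicator isClosed_closedBall.measurableSet, setLIntegral_const]
    exact ENNReal.mul_ne_top hfin (measure_closedBall_lt_top).ne

theorem A_good_lim {ρ : ℝ → ℝ≥0∞} (hρm : Measurable ρ) (hρi : ∫⁻ x : E, ρ ‖x‖ ≠ ∞) {h : E → ℝ}
    (hu : UniformContinuous h) {R M : ℝ} {v : ℕ → E → ℝ} {w : E → ℝ}
    (hv : ∀ k, A_Good ρ h R M (v k))
    (hlim : ∀ x, Tendsto (fun k => v k x) atTop (𝓝 (w x))) : A_Good ρ h R M w := by
  have hvm : ∀ k, Measurable (v k) := fun k =>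
    (A_continuous_of_mod hu (hv k).mod).continuous.measurable
  have hsupp : ∀ x, R < ‖x‖ → w x = 0 := by
    intro x hx
    have : (fun k => v k x) = fun _ => 0 := by funext k; exact (hv k).supp x hx
    have h2 := hlim x
    rw [this] at h2
    exact tendsto_nhds_unique h2 tendsto_const_nhds
  have hmod : ∀ δ ε : ℝ, (∀ a b, ‖a - b‖ ≤ δ → |h a - h b| ≤ ε) →
      ∀ a b, ‖a - b‖ ≤ δ → |w a - w b| ≤ ε := by
    intro δ ε H a b hab
    exact le_of_tendsto' ((hlim a).sub (hlim b)).abs (fun k => (hv k).mod δ ε H a b hab)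
  have hwm : Measurable w := (A_continuous_of_mod hu hmod).continuous.measurable
  refine ⟨fun x => ge_of_tendsto' (hlim x) (fun k => (hv k).nonneg x),
    fun x => le_of_tendsto' (hlim x) (fun k => (hv k).le x), hsupp, hmod, ?_, ?_, ?_⟩
  · have h1 : Tendsto (fun k => ∫⁻ x, ENNReal.ofReal (v k x) ^ 2) atTop
        (𝓝 (∫⁻ x, ENNReal.ofReal (w x) ^ 2)) := by
      refine tendsto_lintegral_of_dominated_convergence
        ((closedBall (0 : E) R).indicator (fun _ => ENNReal.ofReal M ^ 2)) ?_ ?_ ?_ ?_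
      · intro k
        exact (ENNReal.measurable_ofReal.comp (hvm k)).pow_const 2
      · intro k
        refine Eventually.of_forall fun x => ?_
        by_cases hx : x ∈ closedBall (0 : E) R
        · rw [indicator_of_mem hx]
          exact pow_le_pow_left' (ENNReal.ofReal_le_ofReal ((hv k).le x)) 2
        · rw [indicator_of_notMem hx]
          rw [mem_closedBall, dist_zero_right, not_le] at hx
          simp [(hv k).supp x hx]
      · rw [lintegral_indicator isClosed_closedBall.measurableSet, setLIntegral_const]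
        exact ENNReal.mul_ne_top (ENNReal.pow_ne_top ENNReal.ofReal_ne_top)
          (measure_closedBall_lt_top).ne
      · refine Eventually.of_forall fun x => ?_
        exact ENNReal.Tendsto.pow ((ENNReal.continuous_ofReal.tendsto _).comp (hlim x))
    have h2 : (fun k => ∫⁻ x, ENNReal.ofReal (v k x) ^ 2) =
        fun _ => ∫⁻ x, ENNReal.ofReal (h x) ^ 2 := by
      funext k; exact (hv k).l2
    rw [h2] at h1
    exact tendsto_nhds_unique h1 tendsto_const_nhds |>.symm ▸ rfl
  · exact ge_of_tendsto' (A_energy_lim hρm hρi hvm (fun k => (hv k).le) (fun k => (hv k).supp)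
      hlim) (fun k => (hv k).en)
  · have hms : ∀ k, MeasurableSet {x | 1 ≤ v k x} := fun k =>
      measurableSet_le measurable_const (hvm k)
    have hmw : MeasurableSet {x | 1 ≤ w x} := measurableSet_le measurable_const hwm
    have h1 := limsup_lintegral_le (μ := (volume : Measure E))
      (f := fun k => {x | 1 ≤ v k x}.indicator 1)
      ((closedBall (0 : E) R).indicator (1 : E → ℝ≥0∞))
      (fun k => (measurable_const (a := (1 : ℝ≥0∞))).indicator (hms k)) (fun k => by
        refine Eventually.of_forall fun x => ?_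
        refine indicator_le_indicator_of_subset ?_ (fun _ => zero_le) x
        intro y hy
        rw [mem_closedBall, dist_zero_right]
        by_contra hcon
        have := (hv k).supp y (not_le.1 hcon)
        rw [Set.mem_ofPred_eq, this] at hy
        linarith) (by
        rw [lintegral_indicator_one isClosed_closedBall.measurableSet]
        exact (measure_closedBall_lt_top).ne)
    have h2 : volume {x | 1 ≤ h x} ≤
        limsup (fun k => ∫⁻ x, {x | 1 ≤ v k x}.indicator (1 : E → ℝ≥0∞) x) atTop := by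
      have h3 : limsup (fun _ : ℕ => volume {x | 1 ≤ h x}) atTop ≤
          limsup (fun k => ∫⁻ x, {x | 1 ≤ v k x}.indicator (1 : E → ℝ≥0∞) x) atTop := by
        refine limsup_le_limsup (Eventually.of_forall fun k => ?_)
        show volume {x | 1 ≤ h x} ≤ ∫⁻ x, {x | 1 ≤ v k x}.indicator (1 : E → ℝ≥0∞) x
        rw [lintegral_indicator_one (hms k)]
        exact (hv k).vol
      rwa [limsup_const] at h3
    refine (h2.trans h1).trans ?_
    rw [← lintegral_indicator_one hmw]
    refine lintegral_mono fun x => ?_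
    show limsup (fun k => {x | 1 ≤ v k x}.indicator (1 : E → ℝ≥0∞) x) atTop ≤
      {x | 1 ≤ w x}.indicator (1 : E → ℝ≥0∞) x
    by_cases hx : 1 ≤ w x
    · rw [indicator_of_mem (show x ∈ {x | 1 ≤ w x} from hx)]
      refine limsup_le_of_le (by isBoundedDefault) (Eventually.of_forall fun k => ?_)
      exact indicator_le_self' (fun _ _ => zero_le) x
    · rw [indicator_of_notMem (show x ∉ {x | 1 ≤ w x} from hx)]
      refine limsup_le_of_le (by isBoundedDefault) ?_
      have h4 : ∀ᶠ k in atTop, v k x < 1 := (hlim x).eventually (gt_mem_nhds (not_le.1 hx))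
      filter_upwards [h4] with k hk
      rw [indicator_of_notMem (show x ∉ {x | 1 ≤ v k x} from not_le.2 hk)]

/-- zero extension of a function on the ball -/
noncomputable def A_ext (R : ℝ) (f : BoundedContinuousFunction (closedBall (0 : E) R) ℝ)
    (x : E) : ℝ :=
  open Classical in if hx : x ∈ closedBall (0 : E) R then f ⟨x, hx⟩ else 0

theorem A_ext_mem {R : ℝ} (f : BoundedContinuousFunction (closedBall (0 : E) R) ℝ)
    (x : closedBall (0 : E) R) : A_ext R f x = f x := by
  simp only [A_ext, x.2, dite_true]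

theorem A_continuous_ext {R : ℝ} (x : E) :
    Continuous (fun f : BoundedContinuousFunction (closedBall (0 : E) R) ℝ => A_ext R f x) := by
  by_cases hx : x ∈ closedBall (0 : E) R
  · simp only [A_ext, hx, dite_true]
    exact continuous_eval_const _
  · simp only [A_ext, hx, dite_false]
    exact continuous_const

theorem A_exists_max {ρ : ℝ → ℝ≥0∞} (hρm : Measurable ρ) (hρi : ∫⁻ x : E, ρ ‖x‖ ≠ ∞)
    {h : E → ℝ} (hu : UniformContinuous h) {R M : ℝ} (hh : A_Good ρ h R M h) :
    ∃ v, A_Good ρ h R M v ∧ ∀ w, A_Good ρ h R M w →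
      ∫ x, w x * (-‖x‖ ^ 2) ≤ ∫ x, v x * (-‖x‖ ^ 2) := by
  have : CompactSpace (closedBall (0 : E) R) :=
    isCompact_iff_compactSpace.1 (isCompact_closedBall 0 R)
  set A : Set (BoundedContinuousFunction (closedBall (0 : E) R) ℝ) :=
    {f | A_Good ρ h R M (A_ext R f)} with hA
  have hcl : IsClosed A := by
    apply IsSeqClosed.isClosed
    intro f g hf hfg
    refine A_good_lim hρm hρi hu hf (fun x => ?_)
    exact ((A_continuous_ext x).tendsto g).comp hfg
  have hrange : ∀ (f : BoundedContinuousFunction (closedBall (0 : E) R) ℝ)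
      (x : closedBall (0 : E) R), f ∈ A → f x ∈ Icc 0 M := by
    intro f x hf
    rw [← A_ext_mem f x]
    exact ⟨hf.nonneg _, hf.le _⟩
  have hequi : Equicontinuous
      ((fun f => (f : BoundedContinuousFunction (closedBall (0 : E) R) ℝ)) :
        A → closedBall (0 : E) R → ℝ) := by
    apply UniformEquicontinuous.equicontinuous
    rw [Metric.uniformEquicontinuous_iff]
    intro ε hε
    rw [Metric.uniformContinuous_iff] at hu
    obtain ⟨δ, hδ, H⟩ := hu (ε / 2) (by positivity)
    refine ⟨δ / 2, by positivity, fun x y hxy f => ?_⟩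
    have h1 := f.2.mod (δ / 2) (ε / 2) (fun a b hab => by
      have : dist a b < δ := by rw [dist_eq_norm]; linarith
      have := H this
      rw [Real.dist_eq] at this
      exact this.le) x y (by rw [← dist_eq_norm]; exact hxy.le)
    rw [A_ext_mem, A_ext_mem] at h1
    rw [Real.dist_eq]
    linarith
  have hcomp : IsCompact A :=
    BoundedContinuousFunction.arzela_ascoli₂ (Icc 0 M) isCompact_Icc A hcl hrange hequi
  have hmk : ∀ w : E → ℝ, A_Good ρ h R M w →
      ∃ f : BoundedContinuousFunction (closedBall (0 : E) R) ℝ, A_ext R f = w := by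
    intro w hw
    have hwc : Continuous w := (A_continuous_of_mod hu hw.mod).continuous
    refine ⟨BoundedContinuousFunction.mkOfCompact ⟨fun x => w x, by fun_prop⟩, ?_⟩
    funext x
    by_cases hx : x ∈ closedBall (0 : E) R
    · simp only [A_ext, hx, dite_true]
      rfl
    · simp only [A_ext, hx, dite_false]
      rw [mem_closedBall, dist_zero_right, not_le] at hx
      exact (hw.supp x hx).symm
  have hne : A.Nonempty := by
    obtain ⟨f, hf⟩ := hmk h hh
    exact ⟨f, by rw [hA, Set.mem_ofPred_eq, hf]; exact hh⟩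
  have hcont : ContinuousOn (fun f : BoundedContinuousFunction (closedBall (0 : E) R) ℝ =>
      ∫ x, A_ext R f x * (-‖x‖ ^ 2)) A := by
    rw [continuousOn_iff_continuous_domRestrict]
    refine continuous_of_dominated (X := A)
      (F := fun f x => A_ext R f.1 x * (-‖x‖ ^ 2))
      (bound := (closedBall (0 : E) R).indicator (fun _ => M * R ^ 2)) ?_ ?_ ?_ ?_
    · intro f
      have hwc : Continuous (A_ext R f.1) := (A_continuous_of_mod hu f.2.mod).continuous
      exact (hwc.mul (by fun_prop)).aestronglyMeasurable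
    · intro f
      refine Eventually.of_forall fun x => ?_
      by_cases hx : x ∈ closedBall (0 : E) R
      · rw [indicator_of_mem hx]
        rw [mem_closedBall, dist_zero_right] at hx
        rw [norm_mul, norm_neg, norm_pow, norm_norm, Real.norm_eq_abs,
          abs_of_nonneg (f.2.nonneg x)]
        have h1 : ‖x‖ ^ 2 ≤ R ^ 2 := pow_le_pow_left₀ (norm_nonneg _) hx 2
        exact mul_le_mul (f.2.le x) h1 (by positivity) ((f.2.nonneg x).trans (f.2.le x))
      · rw [indicator_of_notMem hx]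
        rw [mem_closedBall, dist_zero_right, not_le] at hx
        rw [f.2.supp x hx]; simp
    · rw [integrable_indicator_iff isClosed_closedBall.measurableSet]
      exact integrableOn_const (measure_closedBall_lt_top).ne
    · refine Eventually.of_forall fun x => ?_
      exact ((A_continuous_ext x).comp continuous_subtype_val).mul continuous_const
  obtain ⟨f, hf, hmax⟩ := hcomp.exists_isMaxOn hne hcont
  refine ⟨A_ext R f, hf, fun w hw => ?_⟩
  obtain ⟨g, hg⟩ := hmk w hw
  have hgA : g ∈ A := by rw [hA, Set.mem_ofPred_eq, hg]; exact hw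
  have := hmax hgA
  simp only [Set.mem_ofPred_eq, hg] at this
  exact this

theorem A_pol_eq_of_max {ρ : ℝ → ℝ≥0∞} (hρm : Measurable ρ) (hρ : AntitoneOn ρ (Ici 0))
    {h : E → ℝ} (hu : UniformContinuous h) {R M : ℝ} {v : E → ℝ} (hv : A_Good ρ h R M v)
    (hmax : ∀ w, A_Good ρ h R M w → ∫ x, w x * (-‖x‖ ^ 2) ≤ ∫ x, v x * (-‖x‖ ^ 2))
    {n : E} (hn : ‖n‖ = 1) {c : ℝ} (hc : 0 < c) {x : E} (hx : ell n c x < 0) :
    v (refl n c x) ≤ v x := by
  have hw := A_good_pol hρm hρ hu hv hn hc.le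
  have hvc : Continuous v := (A_continuous_of_mod hu hv.mod).continuous
  have hwc : Continuous (pol n c v) := (A_continuous_of_mod hu hw.mod).continuous
  have hcs : ∀ w : E → ℝ, A_Good ρ h R M w → HasCompactSupport w := by
    intro w hw
    refine HasCompactSupport.intro (isCompact_closedBall (0 : E) R) (fun x hx => ?_)
    rw [mem_closedBall, dist_zero_right, not_le] at hx
    exact hw.supp x hx
  set d : E → ℝ := fun x => pol n c v x - v x with hd
  have hdc : Continuous d := hwc.sub hvc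
  have hdcs : HasCompactSupport d := (hcs _ hw).sub (hcs _ hv)
  have hds : ∀ x, d (refl n c x) = - d x := by
    intro x
    simp only [hd]
    rcases le_or_gt (ell n c x) 0 with hx | hx
    · rw [(A_pol_of_nonpos hn v hx).1, (A_pol_of_nonpos hn v hx).2]
      have := max_add_min (v x) (v (refl n c x))
      linarith
    · rw [(A_pol_of_pos hn v hx).1, (A_pol_of_pos hn v hx).2]
      have := max_add_min (v x) (v (refl n c x))
      linarith
  set g : E → ℝ := fun x => d x * (-4 * c * ell n c x) with hg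
  have hgc : Continuous g := hdc.mul (continuous_const.mul (A_continuous_ell n c))
  have hg0 : 0 ≤ g := by
    intro x
    simp only [hg, hd, Pi.zero_apply]
    rcases le_or_gt (ell n c x) 0 with hx | hx
    · rw [(A_pol_of_nonpos hn v hx).1]
      refine mul_nonneg (sub_nonneg.2 (le_max_left _ _)) ?_
      nlinarith
    · rw [(A_pol_of_pos hn v hx).1]
      refine mul_nonneg_of_nonpos_of_nonpos (sub_nonpos.2 (min_le_left _ _)) ?_
      nlinarith
  have hI : ∀ (f φ : E → ℝ), Continuous f → HasCompactSupport f → Continuous φ →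
      Integrable (fun x => f x * φ x) := by
    intro f φ hf hfs hφ
    exact (hf.mul hφ).integrable_of_hasCompactSupport hfs.mul_right
  have hs := A_mp_refl (E := E) hn c
  have hme : MeasurableEmbedding (refl n c) := by
    exact (Homeomorph.mk ⟨refl n c, refl n c, A_refl_refl hn c, A_refl_refl hn c⟩
      (A_continuous_refl n c) (A_continuous_refl n c)).measurableEmbedding
  have hnn : Continuous (fun x : E => -‖x‖ ^ 2) := by fun_prop
  have e1 : ∫ x, d x * (-‖x‖ ^ 2) =
      (∫ x, pol n c v x * (-‖x‖ ^ 2)) - ∫ x, v x * (-‖x‖ ^ 2) := by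
    rw [← integral_sub (hI _ _ hwc (hcs _ hw) hnn) (hI _ _ hvc (hcs _ hv) hnn)]
    refine integral_congr_ae (Eventually.of_forall fun x => ?_)
    simp only [hd]; ring
  have e2 : ∫ x, d x * (-‖x‖ ^ 2) = - ∫ x, d x * (-‖refl n c x‖ ^ 2) := by
    rw [← hs.integral_comp hme (fun x => d x * (-‖x‖ ^ 2)), ← integral_neg]
    refine integral_congr_ae (Eventually.of_forall fun x => ?_)
    simp only [hds]; ring
  have hnr : Continuous (fun x : E => -‖refl n c x‖ ^ 2) :=
    ((A_continuous_refl n c).norm.pow 2).neg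
  have e3 : ∫ x, g x = 2 * ∫ x, d x * (-‖x‖ ^ 2) := by
    have : ∫ x, g x = ∫ x, (d x * (-‖x‖ ^ 2) - d x * (-‖refl n c x‖ ^ 2)) := by
      refine integral_congr_ae (Eventually.of_forall fun x => ?_)
      simp only [hg]
      rw [A_norm_refl_sq hn]
      ring
    rw [this, integral_sub (hI _ _ hdc hdcs hnn) (hI _ _ hdc hdcs hnr)]
    linarith
  have e4 : ∫ x, g x ≤ 0 := by
    rw [e3, e1]
    have := hmax _ hw
    linarith
  have hgi : Integrable g := hI _ _ hdc hdcs (continuous_const.mul (A_continuous_ell n c))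
  have e5 : ∫ x, g x = 0 := le_antisymm e4 (integral_nonneg hg0)
  have e6 : g =ᵐ[volume] 0 := (integral_eq_zero_iff_of_nonneg hg0 hgi).1 e5
  have e7 : g = 0 := (hgc.ae_eq_iff_eq volume continuous_zero).1 e6
  have e8 : d x * (-4 * c * ell n c x) = 0 := congrFun e7 x
  have e9 : d x = 0 := by
    rcases mul_eq_zero.1 e8 with h1 | h1
    · exact h1
    · exfalso
      have : 0 < -4 * c * ell n c x := by nlinarith
      linarith
  simp only [hd] at e9
  rw [(A_pol_of_nonpos hn v hx.le).1] at e9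
  have := le_max_right (v x) (v (refl n c x))
  linarith

/-- a maximiser is radially nonincreasing -/
theorem A_radial {ρ : ℝ → ℝ≥0∞} (hρm : Measurable ρ) (hρ : AntitoneOn ρ (Ici 0))
    {h : E → ℝ} (hu : UniformContinuous h) {R M : ℝ} {v : E → ℝ} (hv : A_Good ρ h R M v)
    (hmax : ∀ w, A_Good ρ h R M w → ∫ x, w x * (-‖x‖ ^ 2) ≤ ∫ x, v x * (-‖x‖ ^ 2))
    {x y : E} (hxy : ‖x‖ < ‖y‖) : v y ≤ v x := by
  have hne : y - x ≠ 0 := by
    intro h0
    rw [sub_eq_zero.1 h0] at hxy
    exact lt_irrefl _ hxy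
  have hp : 0 < ‖y - x‖ := norm_pos_iff.2 hne
  set n : E := ‖y - x‖⁻¹ • (y - x) with hn'
  set c : ℝ := (‖y‖ ^ 2 - ‖x‖ ^ 2) / (2 * ‖y - x‖) with hc'
  have hn : ‖n‖ = 1 := by
    rw [hn', norm_smul, norm_inv, norm_norm, inv_mul_cancel₀ hp.ne']
  have hc : 0 < c := by
    rw [hc']
    apply div_pos _ (by positivity)
    have := pow_lt_pow_left₀ hxy (norm_nonneg _) two_ne_zero
    linarith
  have hell : ell n c x = -(‖y - x‖ / 2) := by
    have h1 : ‖y - x‖ ^ 2 = ‖y‖ ^ 2 - 2 * inner ℝ y x + ‖x‖ ^ 2 := norm_sub_sq_real y x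
    have h2 : inner ℝ n x = ‖y - x‖⁻¹ * (inner ℝ y x - ‖x‖ ^ 2) := by
      rw [hn', inner_smul_left, inner_sub_left, real_inner_self_eq_norm_sq, RCLike.conj_to_real]
    rw [ell, h2, hc']
    field_simp
    linarith
  have hr : refl n c x = y := by
    rw [refl, hell, hn', smul_smul]
    have : 2 * -(‖y - x‖ / 2) * ‖y - x‖⁻¹ = -1 := by field_simp
    rw [this]
    module
  have := A_pol_eq_of_max hρm hρ hu hv hmax hn hc (x := x) (by rw [hell]; linarith)
  rwa [hr] at this

end cls

/-- Module A: comparison theorem by polarisation. -/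
theorem polar_main {E : Type*} [NormedAddCommGroup E] [InnerProductSpace ℝ E]
    [FiniteDimensional ℝ E] [MeasurableSpace E] [BorelSpace E]
    (ρ : ℝ → ℝ≥0∞) (hρm : Measurable ρ) (hρ : AntitoneOn ρ (Ici 0))
    (hρi : ∫⁻ x : E, ρ ‖x‖ ≠ ∞) (h : E → ℝ) (hc : Continuous h) (hcs : HasCompactSupport h)
    (h0 : ∀ x, 0 ≤ h x) (r : ℝ) (hvol : volume (ball (0 : E) r) ≤ volume {x | 1 ≤ h x}) :
    ∃ v : E → ℝ, Continuous v ∧ HasCompactSupport v ∧ (∀ x, 0 ≤ v x) ∧
      (∀ x, ‖x‖ < r → 1 ≤ v x) ∧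
      ∫⁻ x, ENNReal.ofReal (v x) ^ 2 = ∫⁻ x, ENNReal.ofReal (h x) ^ 2 ∧
      ∫⁻ x, ∫⁻ y, ENNReal.ofReal (h x) * ρ ‖x - y‖ * ENNReal.ofReal (h y) ≤
        ∫⁻ x, ∫⁻ y, ENNReal.ofReal (v x) * ρ ‖x - y‖ * ENNReal.ofReal (v y) := by
  have hu : UniformContinuous h := hcs.uniformContinuous_of_continuous hc
  obtain ⟨R, hR⟩ : ∃ R : ℝ, ∀ x, R < ‖x‖ → h x = 0 := by
    obtain ⟨R, hR⟩ := hcs.isBounded.subset_closedBall (0 : E)
    refine ⟨R, fun x hx => ?_⟩
    by_contra hcon
    have := hR (subset_tsupport h (Function.mem_support.2 hcon))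
    rw [mem_closedBall, dist_zero_right] at this
    linarith
  obtain ⟨M, hM⟩ := hcs.exists_bound_of_continuous hc
  have hM' : ∀ x, h x ≤ M := fun x => (Real.le_norm_self _).trans (hM x)
  have hgood : A_Good ρ h R M h :=
    ⟨h0, hM', hR, fun δ ε H => H, rfl, le_rfl, le_rfl⟩
  obtain ⟨v, hv, hmax⟩ := A_exists_max hρm hρi hu hgood
  refine ⟨v, (A_continuous_of_mod hu hv.mod).continuous, ?_, hv.nonneg, ?_, hv.l2, hv.en⟩
  · refine HasCompactSupport.intro (isCompact_closedBall (0 : E) R) (fun x hx => ?_)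
    rw [mem_closedBall, dist_zero_right, not_le] at hx
    exact hv.supp x hx
  · intro x hx
    by_contra hcon
    rw [not_le] at hcon
    have hr : 0 < r := (norm_nonneg x).trans_lt hx
    have hsub : {y | 1 ≤ v y} ⊆ closedBall (0 : E) ‖x‖ := by
      intro y hy
      rw [mem_closedBall, dist_zero_right]
      by_contra hcon2
      have := A_radial hρm hρ hu hv hmax (not_le.1 hcon2)
      rw [Set.mem_ofPred_eq] at hy
      linarith
    have hle : volume (ball (0 : E) r) ≤ volume {y | 1 ≤ v y} := hvol.trans hv.vol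
    rcases subsingleton_or_nontrivial E with hE | hE
    · have hpos : 0 < volume (ball (0 : E) r) := measure_ball_pos _ _ hr
      obtain ⟨y, hy⟩ := nonempty_of_measure_ne_zero (hpos.trans_le hle).ne'
      rw [Set.mem_ofPred_eq, Subsingleton.elim y x] at hy
      linarith
    · have h1 : volume (ball (0 : E) r) ≤ volume (closedBall (0 : E) ‖x‖) :=
        hle.trans (measure_mono hsub)
      rw [Measure.addHaar_ball _ _ hr.le, Measure.addHaar_closedBall _ _ (norm_nonneg x)] at h1
      have hb : volume (ball (0 : E) 1) ≠ 0 := (measure_ball_pos _ _ one_pos).ne'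
      have hb' : volume (ball (0 : E) 1) ≠ ∞ := measure_ball_lt_top.ne
      have h2 := (ENNReal.mul_le_mul_iff_left hb hb').1 h1
      have h3 : r ^ Module.finrank ℝ E ≤ ‖x‖ ^ Module.finrank ℝ E :=
        (ENNReal.ofReal_le_ofReal_iff (by positivity)).1 h2
      have h4 : ‖x‖ ^ Module.finrank ℝ E < r ^ Module.finrank ℝ E :=
        pow_lt_pow_left₀ hx (norm_nonneg _) Module.finrank_pos.ne'
      linarith

end Pool.Agent.Helper85.Cap
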