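import Pool.Agent.Helper85.Cap.Defs

/-!
Module B: the resolvent kernel of the Laplacian of `ℝ⁴`.
-/
set_option autoImplicit false
open MeasureTheory Metric Set Filter Topology
open scoped ENNReal
open Pool.Agent.Helper85.Herm

namespace Pool.Agent.Helper85.Cap

/-- the Gaussian kernel of `ℝ⁴` -/
noncomputable def B_p (s : ℝ) (x : C2) : ℝ≥0∞ :=
  ENNReal.ofReal (((4 * Real.pi * s) ^ 2)⁻¹ * Real.exp (-‖x‖ ^ 2 / (4 * s)))

noncomputable def B_E (μ s : ℝ) : ℝ≥0∞ := ENNReal.ofReal (Real.exp (-μ * s))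

theorem B_E_measurable (μ : ℝ) : Measurable (B_E μ) := by
  unfold B_E; fun_prop

theorem B_p_measurable2 : Measurable (fun q : ℝ × C2 => B_p q.1 q.2) := by
  unfold B_p
  refine ENNReal.measurable_ofReal.comp ?_
  refine Measurable.mul ?_ ?_
  · exact ((measurable_fst.const_mul (4 * Real.pi)).pow_const 2).inv
  · refine Real.measurable_exp.comp ?_
    exact ((measurable_snd.norm.pow_const 2).neg).div (measurable_fst.const_mul 4)

theorem B_p_measurable (s : ℝ) : Measurable (B_p s) :=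
  B_p_measurable2.comp (measurable_const.prodMk measurable_id)

theorem B_res_eq (μ : ℝ) (x : C2) :
    res μ ‖x‖ = ∫⁻ s in Ioi (0 : ℝ), B_E μ s * B_p s x := by
  unfold res
  refine lintegral_congr (fun s => ?_)
  unfold B_E B_p
  rw [← ENNReal.ofReal_mul (Real.exp_pos _).le, mul_assoc]

theorem res_measurable (μ : ℝ) : Measurable (res μ) := by
  unfold res
  refine Measurable.lintegral_prod_right' (f := fun q : ℝ × ℝ =>
    ENNReal.ofReal (Real.exp (-μ * q.2) * ((4 * Real.pi * q.2) ^ 2)⁻¹ *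
    Real.exp (-q.1 ^ 2 / (4 * q.2)))) ?_
  refine ENNReal.measurable_ofReal.comp ?_
  refine Measurable.mul (Measurable.mul ?_ ?_) ?_
  · exact Real.measurable_exp.comp (measurable_snd.const_mul (-μ))
  · exact ((measurable_snd.const_mul (4 * Real.pi)).pow_const 2).inv
  · refine Real.measurable_exp.comp ?_
    exact ((measurable_fst.pow_const 2).neg).div (measurable_snd.const_mul 4)

theorem res_antitone (μ : ℝ) : AntitoneOn (res μ) (Ici 0) := by
  intro t ht t' _ htt
  unfold res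
  refine setLIntegral_mono' measurableSet_Ioi (fun s hs => ?_)
  apply ENNReal.ofReal_le_ofReal
  have hs0 : (0 : ℝ) < s := hs
  have ht0 : (0 : ℝ) ≤ t := ht
  refine mul_le_mul_of_nonneg_left ?_ (by positivity)
  apply Real.exp_le_exp.mpr
  have h2 : t ^ 2 ≤ t' ^ 2 := pow_le_pow_left₀ ht0 htt 2
  rw [div_le_div_iff_of_pos_right (by positivity)]
  linarith

theorem res_le (μ t : ℝ) (hμ : 0 ≤ μ) : res μ t ≤ res 0 t := by
  unfold res
  refine setLIntegral_mono' measurableSet_Ioi (fun s hs => ?_)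
  apply ENNReal.ofReal_le_ofReal
  have hs0 : (0 : ℝ) < s := hs
  refine mul_le_mul_of_nonneg_right ?_ (Real.exp_pos _).le
  refine mul_le_mul_of_nonneg_right ?_ (by positivity)
  apply Real.exp_le_exp.mpr
  have : 0 ≤ μ * s := by positivity
  linarith

theorem B_gauss (b : ℝ) (hb : 0 < b) :
    ∫⁻ y : C2, ENNReal.ofReal (Real.exp (-b * ‖y‖ ^ 2)) = ENNReal.ofReal ((Real.pi / b) ^ 2) := by
  have h := GaussianFourier.integral_rexp_neg_mul_sq_norm (V := C2) hb
  have hf : Module.finrank ℝ C2 = 4 := by simp [C2]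
  have h2 : ∫ v : C2, Real.exp (-b * ‖v‖ ^ 2) = (Real.pi / b) ^ 2 := by
    rw [h, hf]
    have : ((4 : ℕ) : ℝ) / 2 = ((2 : ℕ) : ℝ) := by norm_num
    rw [this, Real.rpow_natCast]
  have hi : Integrable (fun v : C2 => Real.exp (-b * ‖v‖ ^ 2)) := by
    by_contra hc
    rw [integral_undef hc] at h2
    have h3 : 0 < (Real.pi / b) ^ 2 := by positivity
    linarith
  rw [← ofReal_integral_eq_lintegral_ofReal hi (ae_of_all _ fun v => (Real.exp_pos _).le), h2]

theorem B_mass (s : ℝ) (hs : 0 < s) : ∫⁻ x : C2, B_p s x = 1 := by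
  have h1 : ∀ x : C2, B_p s x = ENNReal.ofReal (((4 * Real.pi * s) ^ 2)⁻¹) *
      ENNReal.ofReal (Real.exp (-(1 / (4 * s)) * ‖x‖ ^ 2)) := by
    intro x
    unfold B_p
    rw [← ENNReal.ofReal_mul (by positivity)]
    congr 3
    field_simp
  rw [lintegral_congr h1, lintegral_const_mul' _ _ ENNReal.ofReal_ne_top,
    B_gauss _ (by positivity), ← ENNReal.ofReal_mul (by positivity)]
  rw [← ENNReal.ofReal_one]
  congr 1
  have := Real.pi_pos
  field_simp

theorem B_semigroup (s r : ℝ) (hs : 0 < s) (hr : 0 < r) (x : C2) :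
    ∫⁻ y : C2, B_p s (x - y) * B_p r y = B_p (s + r) x := by
  have hsr : 0 < s + r := by positivity
  set b : ℝ := (s + r) / (4 * s * r) with hb
  set c : ℝ := r / (s + r) with hc
  have hb0 : 0 < b := by positivity
  have h1 : ∀ y : C2, B_p s (x - y) * B_p r y =
      ENNReal.ofReal (((4 * Real.pi * s) ^ 2)⁻¹ * ((4 * Real.pi * r) ^ 2)⁻¹ *
        Real.exp (-‖x‖ ^ 2 / (4 * (s + r)))) *
      ENNReal.ofReal (Real.exp (-b * ‖y - c • x‖ ^ 2)) := by
    intro y
    unfold B_p
    rw [← ENNReal.ofReal_mul (by positivity), ← ENNReal.ofReal_mul (by positivity)]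
    congr 1
    have e1 : ‖x - y‖ ^ 2 = ‖x‖ ^ 2 - 2 * inner ℝ x y + ‖y‖ ^ 2 := norm_sub_sq_real x y
    have e2 : ‖y - c • x‖ ^ 2 = ‖y‖ ^ 2 - 2 * (c * inner ℝ x y) + c ^ 2 * ‖x‖ ^ 2 := by
      rw [norm_sub_sq_real, inner_smul_right, norm_smul, mul_pow, Real.norm_eq_abs, sq_abs,
        real_inner_comm]
    have e3 : -‖x - y‖ ^ 2 / (4 * s) + -‖y‖ ^ 2 / (4 * r) =
        -‖x‖ ^ 2 / (4 * (s + r)) + (-b * ‖y - c • x‖ ^ 2) := by
      rw [e1, e2, hb, hc]
      field_simp
      ring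
    calc ((4 * Real.pi * s) ^ 2)⁻¹ * Real.exp (-‖x - y‖ ^ 2 / (4 * s)) *
          (((4 * Real.pi * r) ^ 2)⁻¹ * Real.exp (-‖y‖ ^ 2 / (4 * r)))
        = ((4 * Real.pi * s) ^ 2)⁻¹ * ((4 * Real.pi * r) ^ 2)⁻¹ *
          (Real.exp (-‖x - y‖ ^ 2 / (4 * s)) * Real.exp (-‖y‖ ^ 2 / (4 * r))) := by ring
      _ = ((4 * Real.pi * s) ^ 2)⁻¹ * ((4 * Real.pi * r) ^ 2)⁻¹ *
          (Real.exp (-‖x‖ ^ 2 / (4 * (s + r))) * Real.exp (-b * ‖y - c • x‖ ^ 2)) := by
          rw [← Real.exp_add, ← Real.exp_add, e3]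
      _ = _ := by ring
  rw [lintegral_congr h1, lintegral_const_mul' _ _ ENNReal.ofReal_ne_top,
    lintegral_sub_right_eq_self (fun y : C2 => ENNReal.ofReal (Real.exp (-b * ‖y‖ ^ 2))) (c • x),
    B_gauss b hb0, ← ENNReal.ofReal_mul (by positivity)]
  unfold B_p
  congr 1
  have hpi := Real.pi_pos
  rw [hb]
  field_simp

theorem B_exp_mass (μ : ℝ) (hμ : 0 < μ) :
    ∫⁻ s in Ioi (0 : ℝ), B_E μ s = (ENNReal.ofReal μ)⁻¹ := by
  have h1 : ∫ x in Ioi (0 : ℝ), Real.exp (-μ * x) = μ⁻¹ := by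
    rw [integral_exp_mul_Ioi (by linarith) 0]
    simp
  have h2 : IntegrableOn (fun x : ℝ => Real.exp (-μ * x)) (Ioi 0) :=
    integrableOn_exp_mul_Ioi (by linarith) 0
  unfold B_E
  rw [← ofReal_integral_eq_lintegral_ofReal h2 (ae_of_all _ fun v => (Real.exp_pos _).le), h1,
    ENNReal.ofReal_inv_of_pos hμ]

theorem res_mass (μ : ℝ) (hμ : 0 < μ) : ∫⁻ x : C2, res μ ‖x‖ = (ENNReal.ofReal μ)⁻¹ := by
  have hm : Measurable (fun q : C2 × ℝ => B_E μ q.2 * B_p q.2 q.1) :=
    ((B_E_measurable μ).comp measurable_snd).mul (B_p_measurable2.comp measurable_swap)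
  calc ∫⁻ x : C2, res μ ‖x‖ = ∫⁻ x : C2, ∫⁻ s in Ioi (0 : ℝ), B_E μ s * B_p s x :=
        lintegral_congr (fun x => B_res_eq μ x)
    _ = ∫⁻ s in Ioi (0 : ℝ), ∫⁻ x : C2, B_E μ s * B_p s x :=
        lintegral_lintegral_swap hm.aemeasurable
    _ = ∫⁻ s in Ioi (0 : ℝ), B_E μ s := by
        refine setLIntegral_congr_fun measurableSet_Ioi (fun s hs => ?_)
        change ∫⁻ x : C2, B_E μ s * B_p s x = B_E μ s
        rw [lintegral_const_mul _ (B_p_measurable s), B_mass s hs, mul_one]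
    _ = (ENNReal.ofReal μ)⁻¹ := B_exp_mass μ hμ

/-- value for `t ≠ 0` -/
theorem B_res_zero (t : ℝ) (ht : t ≠ 0) :
    res 0 t = (ENNReal.ofReal (4 * Real.pi ^ 2 * t ^ 2))⁻¹ := by
  have hpi := Real.pi_pos
  have ht2 : 0 < t ^ 2 := by positivity
  set a : ℝ := t ^ 2 / 4 with ha
  have ha0 : 0 < a := by positivity
  set g : ℝ → ℝ := fun s => (16 * Real.pi ^ 2 * a)⁻¹ * expNegInvGlue (s / a) with hg
  set g' : ℝ → ℝ := fun s => Real.exp (-0 * s) * ((4 * Real.pi * s) ^ 2)⁻¹ *
    Real.exp (-t ^ 2 / (4 * s)) with hg'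
  have hcont : ContinuousWithinAt g (Ici 0) 0 := by
    have : Continuous g := by
      have h := (expNegInvGlue.contDiff (n := 0)).continuous
      exact continuous_const.mul (h.comp (continuous_id.div_const a))
    exact this.continuousWithinAt
  have hpos : ∀ s : ℝ, 0 < s → g s = (16 * Real.pi ^ 2 * a)⁻¹ * Real.exp (-(a / s)) := by
    intro s hs
    have : ¬ (s / a ≤ 0) := by
      have : 0 < s / a := by positivity
      linarith
    simp only [hg, expNegInvGlue, this, if_false, inv_div]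
  have hderiv : ∀ s ∈ Ioi (0 : ℝ), HasDerivAt g (g' s) s := by
    intro s hs
    have hs0 : (0 : ℝ) < s := hs
    have h1 : HasDerivAt (fun s : ℝ => (16 * Real.pi ^ 2 * a)⁻¹ * Real.exp (-(a / s))) (g' s) s := by
      have h2 : HasDerivAt (fun s : ℝ => -(a / s)) (a / s ^ 2) s := by
        have h3 := ((hasDerivAt_inv hs0.ne').const_mul a).neg
        refine HasDerivAt.congr_deriv (h3.congr_of_eventuallyEq ?_) ?_
        · exact Eventually.of_forall (fun y => by simp [div_eq_mul_inv])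
        · field_simp
      have h4 := (h2.exp).const_mul ((16 * Real.pi ^ 2 * a)⁻¹)
      refine h4.congr_deriv ?_
      simp only [hg']
      have e : -(a / s) = -t ^ 2 / (4 * s) := by
        rw [ha]; field_simp
      rw [e]
      have e2 : Real.exp (-0 * s) = 1 := by simp
      rw [e2]
      field_simp
      ring
    refine h1.congr_of_eventuallyEq ?_
    filter_upwards [Ioi_mem_nhds hs0] with y hy
    exact hpos y hy
  have hnn : ∀ s ∈ Ioi (0 : ℝ), 0 ≤ g' s := by
    intro s hs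
    have hs0 : (0 : ℝ) < s := hs
    simp only [hg']
    positivity
  have hlim : Tendsto g atTop (𝓝 ((16 * Real.pi ^ 2 * a)⁻¹)) := by
    have h1 : Tendsto (fun s : ℝ => (16 * Real.pi ^ 2 * a)⁻¹ * Real.exp (-(a / s))) atTop
        (𝓝 ((16 * Real.pi ^ 2 * a)⁻¹ * Real.exp (-0))) := by
      refine Tendsto.const_mul _ ((Real.continuous_exp.tendsto _).comp ?_)
      exact (tendsto_const_nhds.div_atTop tendsto_id).neg
    rw [neg_zero, Real.exp_zero, mul_one] at h1
    refine h1.congr' ?_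
    filter_upwards [eventually_gt_atTop (0 : ℝ)] with y hy
    exact (hpos y hy).symm
  have hint := integrableOn_Ioi_deriv_of_nonneg hcont hderiv hnn hlim
  have hval := integral_Ioi_of_hasDerivAt_of_nonneg hcont hderiv hnn hlim
  have hg0 : g 0 = 0 := by simp [hg, expNegInvGlue]
  rw [hg0, sub_zero] at hval
  have hres : res 0 t = ENNReal.ofReal (∫ s in Ioi (0 : ℝ), g' s) := by
    rw [ofReal_integral_eq_lintegral_ofReal hint]
    · rfl
    · exact (ae_restrict_iff' measurableSet_Ioi).mpr (ae_of_all _ hnn)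
  rw [hres, hval, ← ENNReal.ofReal_inv_of_pos (by positivity)]
  congr 1
  rw [ha]
  ring

theorem res_zero (t : ℝ) : res 0 t = (ENNReal.ofReal (4 * Real.pi ^ 2 * t ^ 2))⁻¹ := by
  by_cases ht : t = 0
  · subst ht
    have hR : (ENNReal.ofReal (4 * Real.pi ^ 2 * (0 : ℝ) ^ 2))⁻¹ = ∞ := by simp
    rw [hR]
    apply ENNReal.eq_top_of_forall_nnreal_le
    intro N
    have hpi := Real.pi_pos
    set u : ℝ := (2 * Real.pi * Real.sqrt (N + 1))⁻¹ with hu
    have hN : (0 : ℝ) < (N : ℝ) + 1 := by positivity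
    have hu0 : 0 < u := by
      have := Real.sqrt_pos.mpr hN
      positivity
    have h1 : res 0 u ≤ res 0 0 := res_antitone 0 (by simp) (hu0.le) hu0.le
    refine le_trans ?_ h1
    rw [B_res_zero u hu0.ne']
    have h2 : 4 * Real.pi ^ 2 * u ^ 2 = ((N : ℝ) + 1)⁻¹ := by
      rw [hu, inv_pow, mul_pow, Real.sq_sqrt hN.le]
      field_simp
      ring
    rw [h2, ENNReal.ofReal_inv_of_pos hN, inv_inv]
    have h3 : ((N : NNReal) : ℝ≥0∞) = ENNReal.ofReal (N : ℝ) := by simp
    rw [h3]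
    exact ENNReal.ofReal_le_ofReal (by linarith)
  · exact B_res_zero t ht

theorem B_tail (S : ℝ) (hS : 0 < S) :
    ∫⁻ s in Ioi S, ENNReal.ofReal (((4 * Real.pi * s) ^ 2)⁻¹) =
      ENNReal.ofReal ((16 * Real.pi ^ 2 * S)⁻¹) := by
  have hpi := Real.pi_pos
  set g : ℝ → ℝ := fun s => -(16 * Real.pi ^ 2 * s)⁻¹ with hg
  have hderiv : ∀ s ∈ Ici S, HasDerivAt g (((4 * Real.pi * s) ^ 2)⁻¹) s := by
    intro s hs
    have hs0 : (0 : ℝ) < s := lt_of_lt_of_le hS hs
    have h3 := ((hasDerivAt_inv hs0.ne').const_mul ((16 * Real.pi ^ 2)⁻¹)).neg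
    refine HasDerivAt.congr_deriv (h3.congr_of_eventuallyEq ?_) ?_
    · exact Eventually.of_forall (fun y => by simp [hg]; ring)
    · field_simp
      ring
  have hnn : ∀ s ∈ Ioi S, 0 ≤ ((4 * Real.pi * s) ^ 2)⁻¹ := by
    intro s _
    positivity
  have hlim : Tendsto g atTop (𝓝 0) := by
    have h1 : Tendsto (fun s : ℝ => -((16 * Real.pi ^ 2)⁻¹ * s⁻¹)) atTop
        (𝓝 (-((16 * Real.pi ^ 2)⁻¹ * 0))) :=
      (Tendsto.const_mul _ tendsto_inv_atTop_zero).neg
    simp only [mul_zero, neg_zero] at h1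
    refine h1.congr (fun s => ?_)
    simp only [hg, mul_inv]
  have hint := integrableOn_Ioi_deriv_of_nonneg' hderiv hnn hlim
  have hval := integral_Ioi_of_hasDerivAt_of_nonneg' hderiv hnn hlim
  rw [← ofReal_integral_eq_lintegral_ofReal hint, hval]
  · congr 1
    simp [hg]
  · exact (ae_restrict_iff' measurableSet_Ioi).mpr (ae_of_all _ hnn)

theorem res_lower (D ε : ℝ) (hD : 0 < D) (hε : 0 < ε) (hε1 : ε < 1) :
    ∃ μ > 0, ∀ t, 0 ≤ t → t ≤ D → ENNReal.ofReal (1 - ε) * res 0 t ≤ res μ t := by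
  have hpi := Real.pi_pos
  set S : ℝ := D ^ 2 / (2 * ε) with hS
  have hS0 : 0 < S := by positivity
  set μ : ℝ := ε / (2 * S) with hμ
  have hμ0 : 0 < μ := by positivity
  refine ⟨μ, hμ0, fun t ht htD => ?_⟩
  set F : ℝ → ℝ≥0∞ := fun s => ENNReal.ofReal (Real.exp (-0 * s) * ((4 * Real.pi * s) ^ 2)⁻¹ *
    Real.exp (-t ^ 2 / (4 * s))) with hF
  set A : ℝ≥0∞ := ∫⁻ s in Ioc 0 S, F s with hA
  set B : ℝ≥0∞ := ∫⁻ s in Ioi S, F s with hB
  have hsplit : res 0 t = A + B := by
    rw [hA, hB, ← lintegral_union measurableSet_Ioi]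
    · rw [Ioc_union_Ioi_eq_Ioi hS0.le]
      rfl
    · exact Set.disjoint_left.mpr (fun x hx hx' => absurd hx.2 (not_le.mpr hx'))
  have hBle : B ≤ ENNReal.ofReal ((16 * Real.pi ^ 2 * S)⁻¹) := by
    rw [← B_tail S hS0]
    refine setLIntegral_mono' measurableSet_Ioi (fun s hs => ?_)
    apply ENNReal.ofReal_le_ofReal
    have hs0 : (0 : ℝ) < s := lt_trans hS0 hs
    have h1 : Real.exp (-0 * s) = 1 := by simp
    rw [h1, one_mul]
    have h2 : Real.exp (-t ^ 2 / (4 * s)) ≤ 1 := by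
      rw [Real.exp_le_one_iff]
      apply div_nonpos_of_nonpos_of_nonneg
      · have : 0 ≤ t ^ 2 := by positivity
        linarith
      · positivity
    calc ((4 * Real.pi * s) ^ 2)⁻¹ * Real.exp (-t ^ 2 / (4 * s)) ≤
        ((4 * Real.pi * s) ^ 2)⁻¹ * 1 := mul_le_mul_of_nonneg_left h2 (by positivity)
      _ = _ := mul_one _
  have hBtop : B ≠ ∞ := ne_top_of_le_ne_top ENNReal.ofReal_ne_top hBle
  have hB2 : B ≤ ENNReal.ofReal (ε / 2) * (A + B) := by
    rw [← hsplit]
    calc B ≤ ENNReal.ofReal ((16 * Real.pi ^ 2 * S)⁻¹) := hBle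
      _ = ENNReal.ofReal (ε / 2) * (ENNReal.ofReal (4 * Real.pi ^ 2 * D ^ 2))⁻¹ := by
          rw [← ENNReal.ofReal_inv_of_pos (by positivity), ← ENNReal.ofReal_mul (by positivity)]
          congr 1
          rw [hS]
          field_simp
          ring
      _ = ENNReal.ofReal (ε / 2) * res 0 D := by rw [res_zero]
      _ ≤ ENNReal.ofReal (ε / 2) * res 0 t :=
          mul_le_mul_right (res_antitone 0 ht (ht.trans htD) htD) _
  have hkey : ENNReal.ofReal (1 - ε / 2) * (A + B) ≤ A := by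
    have h1 : ENNReal.ofReal (1 - ε / 2) * (A + B) + B ≤ A + B := by
      calc ENNReal.ofReal (1 - ε / 2) * (A + B) + B
          ≤ ENNReal.ofReal (1 - ε / 2) * (A + B) + ENNReal.ofReal (ε / 2) * (A + B) := by
            gcongr
        _ = (ENNReal.ofReal (1 - ε / 2) + ENNReal.ofReal (ε / 2)) * (A + B) := by
            rw [add_mul]
        _ = A + B := by
            rw [← ENNReal.ofReal_add (by linarith) (by linarith)]
            simp
    exact (ENNReal.add_le_add_iff_right hBtop).mp h1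
  have hE : 1 - ε / 2 ≤ Real.exp (-μ * S) := by
    have h1 : -μ * S = -(ε / 2) := by
      rw [hμ]; field_simp
    rw [h1]
    have := Real.add_one_le_exp (-(ε / 2))
    linarith
  calc ENNReal.ofReal (1 - ε) * res 0 t
      ≤ ENNReal.ofReal (1 - ε / 2) * (ENNReal.ofReal (1 - ε / 2) * (A + B)) := by
        rw [hsplit, ← mul_assoc, ← ENNReal.ofReal_mul (by linarith)]
        refine mul_le_mul_left (ENNReal.ofReal_le_ofReal ?_) _
        nlinarith
    _ ≤ ENNReal.ofReal (1 - ε / 2) * A := mul_le_mul_right hkey _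
    _ ≤ ENNReal.ofReal (Real.exp (-μ * S)) * A :=
        mul_le_mul_left (ENNReal.ofReal_le_ofReal hE) _
    _ = ∫⁻ s in Ioc 0 S, ENNReal.ofReal (Real.exp (-μ * S)) * F s := by
        rw [hA, lintegral_const_mul' _ _ ENNReal.ofReal_ne_top]
    _ ≤ ∫⁻ s in Ioc 0 S, ENNReal.ofReal (Real.exp (-μ * s) * ((4 * Real.pi * s) ^ 2)⁻¹ *
          Real.exp (-t ^ 2 / (4 * s))) := by
        refine setLIntegral_mono' measurableSet_Ioc (fun s hs => ?_)
        simp only [hF]
        rw [← ENNReal.ofReal_mul (Real.exp_pos _).le]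
        apply ENNReal.ofReal_le_ofReal
        have h1 : Real.exp (-0 * s) = 1 := by simp
        rw [h1, one_mul, ← mul_assoc]
        have hs0 : (0 : ℝ) < s := hs.1
        refine mul_le_mul_of_nonneg_right ?_ (Real.exp_pos _).le
        refine mul_le_mul_of_nonneg_right ?_ (by positivity)
        apply Real.exp_le_exp.mpr
        have := mul_le_mul_of_nonneg_left hs.2 hμ0.le
        linarith
    _ ≤ res μ t := by
        unfold res
        exact lintegral_mono_set (fun x hx => hx.1)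

theorem B_inner (lam μ τ : ℝ) (hτ : 0 < τ) (h : μ ≤ lam) :
    ENNReal.ofReal (lam - μ) * ∫⁻ s in Ioo 0 τ, B_E lam s * B_E μ (τ - s) =
      ENNReal.ofReal (Real.exp (-μ * τ) - Real.exp (-lam * τ)) := by
  set g : ℝ → ℝ := fun s => -(Real.exp (-lam * s) * Real.exp (-μ * (τ - s))) with hg
  set g' : ℝ → ℝ := fun s => (lam - μ) * (Real.exp (-lam * s) * Real.exp (-μ * (τ - s))) with hg'
  have hd : ∀ s, HasDerivAt g (g' s) s := by
    intro s
    have h1 : HasDerivAt (fun s : ℝ => Real.exp (-lam * s)) (Real.exp (-lam * s) * (-lam * 1)) s :=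
      ((hasDerivAt_id s).const_mul (-lam)).exp
    have h2 : HasDerivAt (fun s : ℝ => Real.exp (-μ * (τ - s)))
        (Real.exp (-μ * (τ - s)) * (-μ * (0 - 1))) s :=
      ((((hasDerivAt_const s τ).sub (hasDerivAt_id s))).const_mul (-μ)).exp
    refine ((h1.mul h2).neg).congr_deriv ?_
    simp only [hg']
    ring
  have hc' : Continuous g' := by
    simp only [hg']
    fun_prop
  have hval : ∫ s in (0 : ℝ)..τ, g' s = g τ - g 0 :=
    intervalIntegral.integral_eq_sub_of_hasDerivAt (fun s _ => hd s)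
      (hc'.intervalIntegrable _ _)
  have h1 : ∀ s, B_E lam s * B_E μ (τ - s) =
      ENNReal.ofReal (Real.exp (-lam * s) * Real.exp (-μ * (τ - s))) := by
    intro s
    unfold B_E
    rw [ENNReal.ofReal_mul (Real.exp_pos _).le]
  rw [← lintegral_const_mul' _ _ ENNReal.ofReal_ne_top]
  have h2 : ∀ s, ENNReal.ofReal (lam - μ) * (B_E lam s * B_E μ (τ - s)) =
      ENNReal.ofReal (g' s) := by
    intro s
    rw [h1, ← ENNReal.ofReal_mul (by linarith)]
  rw [lintegral_congr h2]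
  have hnn : ∀ s, 0 ≤ g' s := by
    intro s
    simp only [hg']
    have : 0 ≤ lam - μ := by linarith
    positivity
  have hint : IntegrableOn g' (Ioo 0 τ) := (hc'.integrableOn_Icc (a := 0) (b := τ)).mono_set
    Ioo_subset_Icc_self
  rw [← ofReal_integral_eq_lintegral_ofReal hint (ae_of_all _ hnn),
    ← integral_Ioc_eq_integral_Ioo, ← intervalIntegral.integral_of_le hτ.le, hval]
  congr 1
  simp only [hg]
  simp
  ring

theorem B_m1 (μ : ℝ) : Measurable (fun q : C2 × ℝ => B_E μ q.2 * B_p q.2 q.1) :=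
  ((B_E_measurable μ).comp measurable_snd).mul
    (B_p_measurable2.comp (measurable_snd.prodMk measurable_fst))

theorem B_m2 (μ : ℝ) (y : C2) : Measurable (fun r : ℝ => B_E μ r * B_p r y) :=
  (B_E_measurable μ).mul (B_p_measurable2.comp (measurable_id.prodMk measurable_const))

theorem B_m3 (lam s : ℝ) (x : C2) : Measurable (fun y : C2 => B_E lam s * B_p s (x - y)) :=
  ((B_p_measurable s).comp (measurable_const.sub measurable_id)).const_mul _

theorem B_m4 (lam : ℝ) (x : C2) :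
    Measurable (fun q : C2 × ℝ => B_E lam q.2 * B_p q.2 (x - q.1)) :=
  ((B_E_measurable lam).comp measurable_snd).mul
    (B_p_measurable2.comp (measurable_snd.prodMk (measurable_const.sub measurable_fst)))

theorem B_i1 (lam μ : ℝ) (x : C2) (s : ℝ) :
    ∫⁻ y : C2, (B_E lam s * B_p s (x - y)) * res μ ‖y‖ =
      ∫⁻ y : C2, ∫⁻ r in Ioi (0 : ℝ),
                (B_E lam s * B_p s (x - y)) * (B_E μ r * B_p r y) := by
  refine lintegral_congr (fun y => ?_)
  rw [B_res_eq μ y, lintegral_const_mul _ (B_m2 μ y)]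

theorem B_i2 (lam μ : ℝ) (x : C2) (s : ℝ) : ∫⁻ y : C2, ∫⁻ r in Ioi (0 : ℝ),
                (B_E lam s * B_p s (x - y)) * (B_E μ r * B_p r y) =
      ∫⁻ r in Ioi (0 : ℝ), ∫⁻ y : C2,
                (B_E lam s * B_p s (x - y)) * (B_E μ r * B_p r y) := by
  refine lintegral_lintegral_swap (f := fun (y : C2) (r : ℝ) =>
    (B_E lam s * B_p s (x - y)) * (B_E μ r * B_p r y)) ?_
  exact (((B_m3 lam s x).comp measurable_fst).mul (B_m1 μ)).aemeasurable

theorem B_i3 (lam μ : ℝ) (x : C2) (s : ℝ) (hs0 : 0 < s) (r : ℝ) (hr0 : 0 < r) : ∫⁻ y : C2,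
                (B_E lam s * B_p s (x - y)) * (B_E μ r * B_p r y) =
      B_E lam s * B_E μ r * B_p (s + r) x := by
  rw [← B_semigroup s r hs0 hr0 x, ← lintegral_const_mul]
  · refine lintegral_congr (fun y => ?_)
    ring
  · exact ((B_p_measurable s).comp (measurable_const.sub measurable_id)).mul
      (B_p_measurable r)

theorem B_conv_inner (lam μ : ℝ) (x : C2) (s : ℝ) (hs0 : 0 < s) :
    ∫⁻ y : C2, (B_E lam s * B_p s (x - y)) * res μ ‖y‖ =
      ∫⁻ r in Ioi (0 : ℝ), B_E lam s * B_E μ r * B_p (s + r) x :=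
  (B_i1 lam μ x s).trans ((B_i2 lam μ x s).trans
    (setLIntegral_congr_fun measurableSet_Ioi (fun r hr => B_i3 lam μ x s hs0 r hr)))

theorem B_j1 (lam μ : ℝ) (x : C2) : ∫⁻ y : C2, res lam ‖x - y‖ * res μ ‖y‖ =
      ∫⁻ y : C2, ∫⁻ s in Ioi (0 : ℝ), (B_E lam s * B_p s (x - y)) * res μ ‖y‖ := by
  refine lintegral_congr (fun y => ?_)
  have hm3 : Measurable (fun s : ℝ => B_E lam s * B_p s (x - y)) := B_m2 lam (x - y)
  rw [B_res_eq lam (x - y), lintegral_mul_const _ hm3]

theorem B_j2 (lam μ : ℝ) (x : C2) :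
    ∫⁻ y : C2, ∫⁻ s in Ioi (0 : ℝ), (B_E lam s * B_p s (x - y)) * res μ ‖y‖ =
      ∫⁻ s in Ioi (0 : ℝ), ∫⁻ y : C2, (B_E lam s * B_p s (x - y)) * res μ ‖y‖ := by
  refine lintegral_lintegral_swap (f := fun (y : C2) (s : ℝ) =>
    (B_E lam s * B_p s (x - y)) * res μ ‖y‖) ?_
  have hmu : Measurable (fun y : C2 => res μ ‖y‖) := (res_measurable μ).comp measurable_norm
  exact ((B_m4 lam x).mul (hmu.comp measurable_fst)).aemeasurable

theorem B_conv (lam μ : ℝ) (x : C2) :
    ∫⁻ y : C2, res lam ‖x - y‖ * res μ ‖y‖ =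
      ∫⁻ s in Ioi (0 : ℝ), ∫⁻ r in Ioi (0 : ℝ), B_E lam s * B_E μ r * B_p (s + r) x :=
  (B_j1 lam μ x).trans ((B_j2 lam μ x).trans
    (setLIntegral_congr_fun measurableSet_Ioi (fun s hs => B_conv_inner lam μ x s hs)))

theorem B_double (lam μ : ℝ) (x : C2) :
    ∫⁻ s in Ioi (0 : ℝ), ∫⁻ r in Ioi (0 : ℝ), B_E lam s * B_E μ r * B_p (s + r) x =
      ∫⁻ τ in Ioi (0 : ℝ), B_p τ x * ∫⁻ s in Ioo 0 τ, B_E lam s * B_E μ (τ - s) := by
  set F : ℝ → ℝ → ℝ≥0∞ := fun s τ =>
    (Ioi (0 : ℝ)).indicator (fun s => (Ioi s).indicator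
      (fun τ => B_E lam s * B_E μ (τ - s) * B_p τ x) τ) s with hF
  have hset : MeasurableSet {q : ℝ × ℝ | 0 < q.1 ∧ q.1 < q.2} :=
    (measurableSet_lt measurable_const measurable_fst).inter
      (measurableSet_lt measurable_fst measurable_snd)
  have hFm : Measurable (Function.uncurry F) := by
    have h1 : Function.uncurry F = ({q : ℝ × ℝ | 0 < q.1 ∧ q.1 < q.2}).indicator
        (fun q => B_E lam q.1 * B_E μ (q.2 - q.1) * B_p q.2 x) := by
      funext q
      obtain ⟨s, τ⟩ := q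
      simp only [Function.uncurry_apply_pair, hF]
      by_cases h1 : 0 < s
      · by_cases h2 : s < τ
        · simp [indicator, h1, h2]
        · simp [indicator, h2]
      · simp [indicator, h1]
    rw [h1]
    refine Measurable.indicator ?_ hset
    refine (((B_E_measurable lam).comp measurable_fst).mul
      ((B_E_measurable μ).comp (measurable_snd.sub measurable_fst))).mul ?_
    exact B_p_measurable2.comp (measurable_snd.prodMk measurable_const)
  have hL : ∫⁻ s in Ioi (0 : ℝ), ∫⁻ r in Ioi (0 : ℝ), B_E lam s * B_E μ r * B_p (s + r) x =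
      ∫⁻ s, ∫⁻ τ, F s τ := by
    rw [← lintegral_indicator measurableSet_Ioi]
    refine lintegral_congr (fun s => ?_)
    by_cases hs : s ∈ Ioi (0 : ℝ)
    · rw [indicator_of_mem hs]
      have h1 : ∀ τ, F s τ = (Ioi (0 : ℝ)).indicator
          (fun r => B_E lam s * B_E μ r * B_p (s + r) x) (τ - s) := by
        intro τ
        simp only [hF]
        rw [indicator_of_mem hs]
        by_cases h2 : s < τ
        · rw [indicator_of_mem (show τ ∈ Ioi s from h2),
            indicator_of_mem (show τ - s ∈ Ioi (0 : ℝ) from sub_pos.mpr h2)]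
          simp
        · rw [indicator_of_notMem (show τ ∉ Ioi s from h2),
            indicator_of_notMem (show τ - s ∉ Ioi (0 : ℝ) from fun h3 => h2 (sub_pos.mp h3))]
      rw [lintegral_congr h1, lintegral_sub_right_eq_self
        (fun r => (Ioi (0 : ℝ)).indicator (fun r => B_E lam s * B_E μ r * B_p (s + r) x) r) s,
        lintegral_indicator measurableSet_Ioi]
    · rw [indicator_of_notMem hs]
      have h1 : ∀ τ, F s τ = 0 := by
        intro τ
        simp only [hF]
        rw [indicator_of_notMem hs]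
      rw [lintegral_congr h1, lintegral_zero]
  have hR : ∫⁻ τ in Ioi (0 : ℝ), B_p τ x * ∫⁻ s in Ioo 0 τ, B_E lam s * B_E μ (τ - s) =
      ∫⁻ τ, ∫⁻ s, F s τ := by
    rw [← lintegral_indicator measurableSet_Ioi]
    refine lintegral_congr (fun τ => ?_)
    by_cases hτ : τ ∈ Ioi (0 : ℝ)
    · rw [indicator_of_mem hτ]
      have h1 : ∀ s, F s τ = (Ioo (0 : ℝ) τ).indicator
          (fun s => B_p τ x * (B_E lam s * B_E μ (τ - s))) s := by
        intro s
        simp only [hF]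
        by_cases h1 : 0 < s
        · by_cases h2 : s < τ
          · simp [indicator, h1, h2]
            ring
          · simp [indicator, h2]
        · simp [indicator, h1]
      rw [lintegral_congr h1, lintegral_indicator measurableSet_Ioo, lintegral_const_mul]
      exact (B_E_measurable lam).mul ((B_E_measurable μ).comp (measurable_const.sub measurable_id))
    · rw [indicator_of_notMem hτ]
      have h1 : ∀ s, F s τ = 0 := by
        intro s
        simp only [hF]
        by_cases h1 : 0 < s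
        · have h2 : ¬ (s < τ) := fun h3 => hτ (lt_trans h1 h3)
          simp [indicator, h2]
        · simp [indicator, h1]
      rw [lintegral_congr h1, lintegral_zero]
  rw [hL, hR]
  exact lintegral_lintegral_swap hFm.aemeasurable

theorem res_identity (lam μ : ℝ) (hμ : 0 < μ) (h : μ ≤ lam) (x : C2) :
    res μ ‖x‖ = res lam ‖x‖ +
      ENNReal.ofReal (lam - μ) * ∫⁻ y : C2, res lam ‖x - y‖ * res μ ‖y‖ := by
  have hpm : Measurable (fun τ : ℝ => B_p τ x) :=
    B_p_measurable2.comp (measurable_id.prodMk measurable_const)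
  rw [B_conv, B_double, ← lintegral_const_mul' _ _ ENNReal.ofReal_ne_top]
  have h1 : ∫⁻ τ in Ioi (0 : ℝ), ENNReal.ofReal (lam - μ) *
      (B_p τ x * ∫⁻ s in Ioo 0 τ, B_E lam s * B_E μ (τ - s)) =
      ∫⁻ τ in Ioi (0 : ℝ), B_p τ x *
        ENNReal.ofReal (Real.exp (-μ * τ) - Real.exp (-lam * τ)) := by
    refine setLIntegral_congr_fun measurableSet_Ioi (fun τ hτ => ?_)
    change ENNReal.ofReal (lam - μ) *
      (B_p τ x * ∫⁻ s in Ioo 0 τ, B_E lam s * B_E μ (τ - s)) = B_p τ x *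
        ENNReal.ofReal (Real.exp (-μ * τ) - Real.exp (-lam * τ))
    rw [← B_inner lam μ τ hτ h]
    ring
  rw [h1, B_res_eq μ x, B_res_eq lam x, ← lintegral_add_left]
  · refine setLIntegral_congr_fun measurableSet_Ioi (fun τ hτ => ?_)
    change B_E μ τ * B_p τ x = B_E lam τ * B_p τ x + B_p τ x *
        ENNReal.ofReal (Real.exp (-μ * τ) - Real.exp (-lam * τ))
    have hτ0 : (0 : ℝ) < τ := hτ
    have h2 : Real.exp (-lam * τ) ≤ Real.exp (-μ * τ) := by
      apply Real.exp_le_exp.mpr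
      nlinarith
    have h3 : B_E μ τ = B_E lam τ +
        ENNReal.ofReal (Real.exp (-μ * τ) - Real.exp (-lam * τ)) := by
      unfold B_E
      rw [← ENNReal.ofReal_add (Real.exp_pos _).le (by linarith)]
      congr 1
      ring
    rw [h3]
    ring
  · exact (B_E_measurable lam).mul hpm

end Pool.Agent.Helper85.Cap
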