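import Pool.Agent.Helper85.Cap.Defs

/-!
Module C: equilibrium potential by monotone iteration.
-/
set_option autoImplicit false
open MeasureTheory Metric Set
open scoped ENNReal

namespace Pool.Agent.Helper85.Cap

section C
variable {E : Type*} [NormedAddCommGroup E] [InnerProductSpace ℝ E]
    [FiniteDimensional ℝ E] [MeasurableSpace E] [BorelSpace E]

noncomputable def C_P (k : E → ℝ≥0∞) (w : E → ℝ≥0∞) (x : E) : ℝ≥0∞ :=
  ∫⁻ y, k (x - y) * w y

noncomputable def C_it (k : E → ℝ≥0∞) (θ : ℝ≥0∞) (K : Set E) : ℕ → E → ℝ≥0∞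
  | 0 => fun _ => 0
  | n + 1 => fun x => max (K.indicator 1 x) (θ * C_P k (C_it k θ K n) x)

theorem C_P_measurable (k : E → ℝ≥0∞) (hk : Measurable k) (w : E → ℝ≥0∞) (hw : Measurable w) :
    Measurable (C_P k w) := by
  have h : Measurable (fun p : E × E => k (p.1 - p.2) * w p.2) :=
    (hk.comp (measurable_fst.sub measurable_snd)).mul (hw.comp measurable_snd)
  exact h.lintegral_prod_right'

theorem C_it_measurable (k : E → ℝ≥0∞) (hk : Measurable k) (θ : ℝ≥0∞) (K : Set E)
    (hK : MeasurableSet K) (n : ℕ) : Measurable (C_it k θ K n) := by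
  induction n with
  | zero => exact measurable_const
  | succ n ih =>
    exact (measurable_one.indicator hK).max ((C_P_measurable k hk _ ih).const_mul θ)

theorem C_P_mono (k : E → ℝ≥0∞) {w w' : E → ℝ≥0∞} (h : w ≤ w') : C_P k w ≤ C_P k w' := by
  intro x
  exact lintegral_mono (fun y => mul_le_mul_right (h y) _)

theorem C_it_le_succ (k : E → ℝ≥0∞) (θ : ℝ≥0∞) (K : Set E) (n : ℕ) :
    C_it k θ K n ≤ C_it k θ K (n + 1) := by
  induction n with
  | zero => intro x; exact zero_le
  | succ n ih =>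
    intro x
    exact max_le_max le_rfl (mul_le_mul_right (C_P_mono k ih x) _)

theorem C_it_monotone (k : E → ℝ≥0∞) (θ : ℝ≥0∞) (K : Set E) : Monotone (C_it k θ K) :=
  monotone_nat_of_le_succ (C_it_le_succ k θ K)

theorem C_P_le_one (k : E → ℝ≥0∞) (hk1 : ∫⁻ x, k x = 1) {w : E → ℝ≥0∞}
    (h : ∀ x, w x ≤ 1) (x : E) : C_P k w x ≤ 1 := by
  calc C_P k w x ≤ ∫⁻ y, k (x - y) := by
        refine lintegral_mono (fun y => ?_)
        calc k (x - y) * w y ≤ k (x - y) * 1 := mul_le_mul_right (h y) _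
          _ = k (x - y) := mul_one _
    _ = ∫⁻ y, k y := lintegral_sub_left_eq_self (fun y => k y) x
    _ = 1 := hk1

theorem C_it_le_one (k : E → ℝ≥0∞) (hk1 : ∫⁻ x, k x = 1) (θ : ℝ≥0∞) (hθ : θ < 1) (K : Set E)
    (n : ℕ) (x : E) : C_it k θ K n x ≤ 1 := by
  induction n generalizing x with
  | zero => exact zero_le
  | succ n ih =>
    refine max_le ?_ ?_
    · by_cases hx : x ∈ K
      · simp [hx]
      · simp [hx]
    · calc θ * C_P k (C_it k θ K n) x ≤ 1 * 1 := mul_le_mul' hθ.le (C_P_le_one k hk1 ih x)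
        _ = 1 := one_mul _

theorem C_P_mass (k : E → ℝ≥0∞) (hk : Measurable k) (hk1 : ∫⁻ x, k x = 1) (w : E → ℝ≥0∞)
    (hw : Measurable w) : ∫⁻ x, C_P k w x = ∫⁻ x, w x := by
  unfold C_P
  rw [lintegral_lintegral_swap]
  · refine lintegral_congr (fun y => ?_)
    have hm : Measurable (fun x => k (x - y)) := hk.comp (measurable_id.sub_const y)
    rw [lintegral_mul_const _ hm, lintegral_sub_right_eq_self (fun x => k x) y, hk1, one_mul]
  · exact ((hk.comp (measurable_fst.sub measurable_snd)).mul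
      (hw.comp measurable_snd)).aemeasurable

theorem C_it_mass (k : E → ℝ≥0∞) (hk : Measurable k) (hk1 : ∫⁻ x, k x = 1) (θ : ℝ≥0∞)
    (hθ : θ < 1) (K : Set E) (hK : MeasurableSet K) (n : ℕ) :
    ∫⁻ x, C_it k θ K n x ≤ volume K * (1 - θ)⁻¹ := by
  have h1 : (1 - θ) ≠ 0 := (tsub_pos_of_lt hθ).ne'
  have h2 : (1 - θ) ≠ ∞ := (lt_of_le_of_lt tsub_le_self ENNReal.one_lt_top).ne
  induction n with
  | zero => simp [C_it]
  | succ n ih =>
    calc ∫⁻ x, C_it k θ K (n + 1) x
        ≤ ∫⁻ x, (K.indicator 1 x + θ * C_P k (C_it k θ K n) x) := by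
          refine lintegral_mono (fun x => ?_)
          exact max_le le_self_add le_add_self
      _ = volume K + θ * ∫⁻ x, C_it k θ K n x := by
          rw [lintegral_add_left (measurable_one.indicator hK),
            lintegral_const_mul _ (C_P_measurable k hk _ (C_it_measurable k hk θ K hK n)),
            C_P_mass k hk hk1 _ (C_it_measurable k hk θ K hK n), lintegral_indicator_one hK]
      _ ≤ volume K + θ * (volume K * (1 - θ)⁻¹) := by gcongr
      _ = volume K * ((1 - θ) * (1 - θ)⁻¹) + θ * (volume K * (1 - θ)⁻¹) := by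
          rw [ENNReal.mul_inv_cancel h1 h2, mul_one]
      _ = volume K * (1 - θ)⁻¹ * ((1 - θ) + θ) := by ring
      _ = volume K * (1 - θ)⁻¹ := by rw [tsub_add_cancel_of_le hθ.le, mul_one]

theorem equilibrium
    (k : E → ℝ≥0∞) (hk : Measurable k) (hk1 : ∫⁻ x, k x = 1) (θ : ℝ≥0∞)
    (hθ : θ < 1) (K : Set E) (hK : MeasurableSet K) (hKf : volume K ≠ ∞) :
    ∃ w f : E → ℝ≥0∞, Measurable w ∧ Measurable f ∧ (∀ x, w x ≤ 1) ∧ (∀ x ∈ K, w x = 1) ∧
      (∀ x ∈ K, 1 - θ ≤ f x) ∧ (∀ x, x ∉ K → f x = 0) ∧ (∀ x, f x ≤ 1) ∧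
      ∫⁻ x, w x ≠ ∞ ∧ ∀ x, w x = f x + θ * ∫⁻ y, k (x - y) * w y := by
  have h1 : (1 - θ) ≠ 0 := (tsub_pos_of_lt hθ).ne'
  set W : E → ℝ≥0∞ := fun x => ⨆ n, C_it k θ K n x with hWdef
  have hWm : Measurable W := Measurable.iSup (fun n => C_it_measurable k hk θ K hK n)
  have hW1 : ∀ x, W x ≤ 1 := fun x => iSup_le (fun n => C_it_le_one k hk1 θ hθ K n x)
  have hPW : ∀ x, C_P k W x = ⨆ n, C_P k (C_it k θ K n) x := by
    intro x
    unfold C_P
    rw [← lintegral_iSup]
    · refine lintegral_congr (fun y => ?_)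
      rw [hWdef]
      exact ENNReal.mul_iSup _ _
    · intro n
      exact (hk.comp (measurable_const.sub measurable_id)).mul (C_it_measurable k hk θ K hK n)
    · intro m n hmn y
      exact mul_le_mul_right (C_it_monotone k θ K hmn y) _
  have hfix : ∀ x, W x = max (K.indicator 1 x) (θ * C_P k W x) := by
    intro x
    apply le_antisymm
    · refine iSup_le (fun n => ?_)
      cases n with
      | zero => exact zero_le
      | succ n =>
        refine max_le_max le_rfl (mul_le_mul_right ?_ _)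
        rw [hPW]
        exact le_iSup (fun n => C_P k (C_it k θ K n) x) n
    · refine max_le ?_ ?_
      · exact le_trans (le_max_left _ _) (le_iSup (fun n => C_it k θ K n x) 1)
      · rw [hPW, ENNReal.mul_iSup]
        refine iSup_le (fun n => ?_)
        exact le_trans (le_max_right _ _) (le_iSup (fun n => C_it k θ K n x) (n + 1))
  have hP1 : ∀ x, C_P k W x ≤ 1 := C_P_le_one k hk1 hW1
  have hθP : ∀ x, θ * C_P k W x ≤ θ := by
    intro x
    calc θ * C_P k W x ≤ θ * 1 := mul_le_mul_right (hP1 x) _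
      _ = θ := mul_one _
  refine ⟨W, K.indicator (fun x => 1 - θ * C_P k W x), hWm, ?_, hW1, ?_, ?_, ?_, ?_, ?_, ?_⟩
  · exact (measurable_const.sub ((C_P_measurable k hk W hWm).const_mul θ)).indicator hK
  · intro x hx
    rw [hfix x]
    simp only [hx, indicator_of_mem, Pi.one_apply]
    exact max_eq_left ((hθP x).trans hθ.le)
  · intro x hx
    rw [indicator_of_mem hx]
    exact tsub_le_tsub_left (hθP x) 1
  · intro x hx
    rw [indicator_of_notMem hx]
  · intro x
    by_cases hx : x ∈ K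
    · rw [indicator_of_mem hx]; exact tsub_le_self
    · rw [indicator_of_notMem hx]; exact zero_le
  · have hsup : ∫⁻ x, W x = ⨆ n, ∫⁻ x, C_it k θ K n x :=
      lintegral_iSup (fun n => C_it_measurable k hk θ K hK n)
        (fun m n hmn => C_it_monotone k θ K hmn)
    rw [hsup]
    refine ne_top_of_le_ne_top ?_ (iSup_le (fun n => C_it_mass k hk hk1 θ hθ K hK n))
    exact ENNReal.mul_ne_top hKf (ENNReal.inv_ne_top.mpr h1)
  · intro x
    change W x = K.indicator (fun x => 1 - θ * C_P k W x) x + θ * C_P k W x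
    by_cases hx : x ∈ K
    · rw [indicator_of_mem hx, tsub_add_cancel_of_le ((hθP x).trans hθ.le), hfix x]
      simp only [hx, indicator_of_mem, Pi.one_apply]
      exact max_eq_left ((hθP x).trans hθ.le)
    · rw [indicator_of_notMem hx, zero_add, hfix x]
      simp only [hx, not_false_eq_true, indicator_of_notMem]
      exact max_eq_right (zero_le)

end C

end Pool.Agent.Helper85.Cap
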