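import Pool.Agent.Helper85.Cap.Defs

/-!
Module D, part 1: the coupling measure of a symmetric transition kernel and its Dirichlet form.
-/
set_option autoImplicit false
open MeasureTheory Metric Set
open scoped ENNReal

namespace Pool.Agent.Helper85.Cap

section D
variable {E : Type*} [NormedAddCommGroup E] [InnerProductSpace ℝ E] [FiniteDimensional ℝ E]
  [MeasurableSpace E] [BorelSpace E]

/-- the coupling measure -/
noncomputable def cpl (ρ : ℝ → ℝ≥0∞) : Measure (E × E) :=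
  ((volume : Measure E).prod volume).withDensity (fun z => ρ ‖z.1 - z.2‖)

theorem D_meas_kernel (ρ : ℝ → ℝ≥0∞) (hρm : Measurable ρ) :
    Measurable (fun z : E × E => ρ ‖z.1 - z.2‖) :=
  hρm.comp (measurable_fst.sub measurable_snd).norm

theorem D_lintegral_cpl (ρ : ℝ → ℝ≥0∞) (hρm : Measurable ρ) (F : E × E → ℝ≥0∞)
    (hF : Measurable F) :
    ∫⁻ z, F z ∂(cpl ρ) = ∫⁻ x, ∫⁻ y, ρ ‖x - y‖ * F (x, y) := by
  rw [cpl, lintegral_withDensity_eq_lintegral_mul _ (D_meas_kernel ρ hρm) hF,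
    lintegral_prod _ ((D_meas_kernel ρ hρm).mul hF).aemeasurable]
  rfl

theorem D_mass_left (ρ : ℝ → ℝ≥0∞) (hρ1 : ∫⁻ x : E, ρ ‖x‖ = 1) (x : E) :
    ∫⁻ y : E, ρ ‖x - y‖ = 1 := by
  rw [← hρ1]
  exact lintegral_sub_left_eq_self (fun y : E => ρ ‖y‖) x

theorem D_map_fst (ρ : ℝ → ℝ≥0∞) (hρm : Measurable ρ) (hρ1 : ∫⁻ x : E, ρ ‖x‖ = 1) :
    MeasurePreserving Prod.fst (cpl ρ : Measure (E × E)) volume := by
  refine ⟨measurable_fst, ?_⟩
  refine Measure.ext_of_lintegral _ fun F hF => ?_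
  rw [lintegral_map hF measurable_fst,
    D_lintegral_cpl ρ hρm (fun z => F z.1) (hF.comp measurable_fst)]
  refine lintegral_congr fun x => ?_
  simp only
  have hm : Measurable (fun y : E => ρ ‖x - y‖) :=
    hρm.comp (measurable_const.sub measurable_id).norm
  rw [lintegral_mul_const _ hm, D_mass_left ρ hρ1, one_mul]

theorem D_map_swap (ρ : ℝ → ℝ≥0∞) (hρm : Measurable ρ) :
    MeasurePreserving Prod.swap (cpl ρ : Measure (E × E)) (cpl ρ) := by
  refine ⟨measurable_swap, ?_⟩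
  refine Measure.ext_of_lintegral _ fun F hF => ?_
  rw [lintegral_map hF measurable_swap,
    D_lintegral_cpl ρ hρm (fun z => F z.swap) (hF.comp measurable_swap),
    D_lintegral_cpl ρ hρm _ hF]
  rw [lintegral_lintegral_swap]
  · refine lintegral_congr fun x => lintegral_congr fun y => ?_
    rw [norm_sub_rev]; rfl
  · exact ((D_meas_kernel ρ hρm).mul (hF.comp measurable_swap)).aemeasurable

theorem D_map_snd (ρ : ℝ → ℝ≥0∞) (hρm : Measurable ρ) (hρ1 : ∫⁻ x : E, ρ ‖x‖ = 1) :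
    MeasurePreserving Prod.snd (cpl ρ : Measure (E × E)) volume :=
  (D_map_fst ρ hρm hρ1).comp (D_map_swap ρ hρm)

/-- bilinear form of the kernel -/
noncomputable def Bk (ρ : ℝ → ℝ≥0∞) (a b : E → ℝ) : ℝ := ∫ z, a z.1 * b z.2 ∂(cpl ρ)

theorem D_integrable (ρ : ℝ → ℝ≥0∞) (hρm : Measurable ρ) (hρ1 : ∫⁻ x : E, ρ ‖x‖ = 1)
    {a b : E → ℝ} (ha : MemLp a 2 volume) (hb : MemLp b 2 volume) :
    Integrable (fun z : E × E => a z.1 * b z.2) (cpl ρ) := by
  have h1 : MemLp (a ∘ Prod.fst) 2 (cpl ρ) := ha.comp_measurePreserving (D_map_fst ρ hρm hρ1)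
  have h2 : MemLp (b ∘ Prod.snd) 2 (cpl ρ) := hb.comp_measurePreserving (D_map_snd ρ hρm hρ1)
  exact h1.integrable_mul h2

theorem D_Bk_symm (ρ : ℝ → ℝ≥0∞) (hρm : Measurable ρ) (a b : E → ℝ) :
    Bk ρ a b = Bk ρ b a := by
  unfold Bk
  rw [← (D_map_swap ρ hρm).integral_comp' (f := MeasurableEquiv.prodComm)]
  refine integral_congr_ae (Filter.Eventually.of_forall fun z => ?_)
  change a z.swap.1 * b z.swap.2 = b z.1 * a z.2
  simp [mul_comm]

theorem D_sq_fst (ρ : ℝ → ℝ≥0∞) (hρm : Measurable ρ) (hρ1 : ∫⁻ x : E, ρ ‖x‖ = 1)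
    {a : E → ℝ} (ha : MemLp a 2 volume) :
    ∫ z : E × E, a z.1 ^ 2 ∂(cpl ρ) = ∫ x, a x ^ 2 := by
  have := integral_map (μ := (cpl ρ : Measure (E × E))) (φ := Prod.fst) measurable_fst.aemeasurable
    (f := fun x : E => a x ^ 2) (by
      rw [(D_map_fst ρ hρm hρ1).map_eq]
      exact (ha.aestronglyMeasurable.pow 2))
  rw [(D_map_fst ρ hρm hρ1).map_eq] at this
  exact this.symm

theorem D_sq_snd (ρ : ℝ → ℝ≥0∞) (hρm : Measurable ρ) (hρ1 : ∫⁻ x : E, ρ ‖x‖ = 1)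
    {a : E → ℝ} (ha : MemLp a 2 volume) :
    ∫ z : E × E, a z.2 ^ 2 ∂(cpl ρ) = ∫ x, a x ^ 2 := by
  have := integral_map (μ := (cpl ρ : Measure (E × E))) (φ := Prod.snd) measurable_snd.aemeasurable
    (f := fun x : E => a x ^ 2) (by
      rw [(D_map_snd ρ hρm hρ1).map_eq]
      exact (ha.aestronglyMeasurable.pow 2))
  rw [(D_map_snd ρ hρm hρ1).map_eq] at this
  exact this.symm

/-- the bilinear Dirichlet form of `1 - θ P` -/
noncomputable def Ek (ρ : ℝ → ℝ≥0∞) (θ : ℝ) (a b : E → ℝ) : ℝ :=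
  (∫ x, a x * b x) - θ * Bk ρ a b

theorem D_abs_Bk_le (ρ : ℝ → ℝ≥0∞) (hρm : Measurable ρ) (hρ1 : ∫⁻ x : E, ρ ‖x‖ = 1)
    {a : E → ℝ} (ha : MemLp a 2 volume) : |Bk ρ a a| ≤ ∫ x, a x ^ 2 := by
  have i1 : Integrable (fun z : E × E => a z.1 ^ 2) (cpl ρ) := by
    have h1 : MemLp (a ∘ Prod.fst) 2 (cpl ρ) := ha.comp_measurePreserving (D_map_fst ρ hρm hρ1)
    exact h1.integrable_sq
  have i2 : Integrable (fun z : E × E => a z.2 ^ 2) (cpl ρ) := by
    have h1 : MemLp (a ∘ Prod.snd) 2 (cpl ρ) := ha.comp_measurePreserving (D_map_snd ρ hρm hρ1)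
    exact h1.integrable_sq
  have i3 := D_integrable ρ hρm hρ1 ha ha
  have e : ∫ z : E × E, (a z.1 ^ 2 + a z.2 ^ 2) ∂(cpl ρ) = 2 * ∫ x, a x ^ 2 := by
    rw [integral_add i1 i2, D_sq_fst ρ hρm hρ1 ha, D_sq_snd ρ hρm hρ1 ha]; ring
  have u1 : 2 * Bk ρ a a ≤ 2 * ∫ x, a x ^ 2 := by
    rw [← e, Bk, ← integral_const_mul]
    refine integral_mono (i3.const_mul 2) (i1.add i2) fun z => ?_
    simp only
    nlinarith [sq_nonneg (a z.1 - a z.2)]
  have u2 : -(2 * Bk ρ a a) ≤ 2 * ∫ x, a x ^ 2 := by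
    rw [← e, Bk, ← integral_const_mul, ← integral_neg]
    refine integral_mono (i3.const_mul 2).neg (i1.add i2) fun z => ?_
    simp only
    nlinarith [sq_nonneg (a z.1 + a z.2)]
  rw [abs_le]
  constructor <;> linarith

theorem D_Ek_self (ρ : ℝ → ℝ≥0∞) (θ : ℝ) (a : E → ℝ) :
    Ek ρ θ a a = (∫ x, a x ^ 2) - θ * Bk ρ a a := by
  unfold Ek; simp only [sq]

theorem D_Ek_nonneg (ρ : ℝ → ℝ≥0∞) (hρm : Measurable ρ) (hρ1 : ∫⁻ x : E, ρ ‖x‖ = 1)
    (θ : ℝ) (h0 : 0 ≤ θ) (h1 : θ ≤ 1) {a : E → ℝ} (ha : MemLp a 2 volume) : 0 ≤ Ek ρ θ a a := by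
  rw [D_Ek_self]
  have h := D_abs_Bk_le ρ hρm hρ1 ha
  have h2 : 0 ≤ ∫ x, a x ^ 2 := integral_nonneg fun x => sq_nonneg _
  have h3 := (abs_le.1 h).2
  nlinarith

theorem D_Ek_le (ρ : ℝ → ℝ≥0∞) (hρm : Measurable ρ) (hρ1 : ∫⁻ x : E, ρ ‖x‖ = 1)
    (θ : ℝ) (h0 : 0 ≤ θ) (h1 : θ ≤ 1) {a : E → ℝ} (ha : MemLp a 2 volume) :
    Ek ρ θ a a ≤ 2 * ∫ x, a x ^ 2 := by
  rw [D_Ek_self]
  have h := D_abs_Bk_le ρ hρm hρ1 ha
  have h2 : 0 ≤ ∫ x, a x ^ 2 := integral_nonneg fun x => sq_nonneg _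
  have h3 := (abs_le.1 h).1
  nlinarith

/-- quadratic expansion -/
theorem D_Ek_expand (ρ : ℝ → ℝ≥0∞) (hρm : Measurable ρ) (hρ1 : ∫⁻ x : E, ρ ‖x‖ = 1)
    (θ : ℝ) {a b : E → ℝ} (ha : MemLp a 2 volume) (hb : MemLp b 2 volume) (s : ℝ) :
    Ek ρ θ (fun x => a x + s * b x) (fun x => a x + s * b x) =
      Ek ρ θ a a + 2 * s * Ek ρ θ a b + s ^ 2 * Ek ρ θ b b := by
  have iaa : Integrable (fun x => a x * a x) := ha.integrable_mul ha
  have iab : Integrable (fun x => a x * b x) := ha.integrable_mul hb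
  have ibb : Integrable (fun x => b x * b x) := hb.integrable_mul hb
  have jaa := D_integrable ρ hρm hρ1 ha ha
  have jab := D_integrable ρ hρm hρ1 ha hb
  have jba := D_integrable ρ hρm hρ1 hb ha
  have jbb := D_integrable ρ hρm hρ1 hb hb
  have e1 : ∫ x, (a x + s * b x) * (a x + s * b x) =
      (∫ x, a x * a x) + 2 * s * (∫ x, a x * b x) + s ^ 2 * (∫ x, b x * b x) := by
    rw [← integral_const_mul, ← integral_const_mul, ← integral_add' iaa (iab.const_mul _),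
      ← integral_add' (iaa.add (iab.const_mul _)) (ibb.const_mul _)]
    refine integral_congr_ae (Filter.Eventually.of_forall fun x => ?_)
    simp only [Pi.add_apply]
    ring
  have e2 : Bk ρ (fun x => a x + s * b x) (fun x => a x + s * b x) =
      Bk ρ a a + 2 * s * Bk ρ a b + s ^ 2 * Bk ρ b b := by
    have e3 : Bk ρ (fun x => a x + s * b x) (fun x => a x + s * b x) =
      Bk ρ a a + s * Bk ρ a b + s * Bk ρ b a + s ^ 2 * Bk ρ b b := by
      unfold Bk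
      rw [← integral_const_mul, ← integral_const_mul, ← integral_const_mul,
        ← integral_add' jaa (jab.const_mul _),
        ← integral_add' (jaa.add (jab.const_mul _)) (jba.const_mul _),
        ← integral_add' ((jaa.add (jab.const_mul _)).add (jba.const_mul _)) (jbb.const_mul _)]
      refine integral_congr_ae (Filter.Eventually.of_forall fun x => ?_)
      simp only [Pi.add_apply]
      ring
    rw [e3, D_Bk_symm ρ hρm b a]; ring
  unfold Ek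
  simp only [] at e1 e2 ⊢
  rw [e1, e2]; ring

end D

end Pool.Agent.Helper85.Cap
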