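import Pool.Agent.Helper85.Cap.Defs

/-!
Module D, part 2: approximation of potentials by continuous compactly supported functions.
-/
set_option autoImplicit false
open MeasureTheory Metric Set
open scoped ENNReal

namespace Pool.Agent.Helper85.Cap

section D
variable {E : Type*} [NormedAddCommGroup E] [InnerProductSpace ℝ E] [FiniteDimensional ℝ E]
  [MeasurableSpace E] [BorelSpace E]

theorem D_lintegral_sq_le {F : E → ℝ} {δ : ℝ} (hδ : 0 ≤ δ)
    (h : eLpNorm F 2 volume ≤ ENNReal.ofReal δ) :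
    ∫⁻ x, ENNReal.ofReal (F x ^ 2) ≤ ENNReal.ofReal (δ ^ 2) := by
  have h1 := eLpNorm_nnreal_pow_eq_lintegral (μ := (volume : Measure E)) (f := F) (p := 2)
    (by norm_num)
  have h2 : ∫⁻ x, ENNReal.ofReal (F x ^ 2) = ∫⁻ x, ‖F x‖ₑ ^ ((2 : NNReal) : ℝ) := by
    refine lintegral_congr fun x => ?_
    rw [← ofReal_norm, ENNReal.ofReal_rpow_of_nonneg (norm_nonneg _) (by norm_num)]
    congr 1
    have : (((2 : NNReal) : ℝ)) = ((2 : ℕ) : ℝ) := by norm_num
    rw [this, Real.rpow_natCast, Real.norm_eq_abs, sq_abs]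
  rw [h2, ← h1]
  calc eLpNorm F ((2 : NNReal) : ℝ≥0∞) volume ^ ((2 : NNReal) : ℝ)
      ≤ (ENNReal.ofReal δ) ^ ((2 : NNReal) : ℝ) := by
        refine ENNReal.rpow_le_rpow ?_ (by norm_num)
        exact_mod_cast h
    _ = ENNReal.ofReal (δ ^ 2) := by
        rw [ENNReal.ofReal_rpow_of_nonneg hδ (by norm_num)]
        congr 1
        have : (((2 : NNReal) : ℝ)) = ((2 : ℕ) : ℝ) := by norm_num
        rw [this, Real.rpow_natCast]

theorem D_approx (W : E → ℝ) (hW : MemLp W 2 volume) (hW0 : ∀ x, 0 ≤ W x) (K : Set E)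
    (hK : IsCompact K) (hWK : ∀ x ∈ K, W x = 1) (ε : ℝ) (hε : 0 < ε) :
    ∃ h : E → ℝ, Continuous h ∧ HasCompactSupport h ∧ (∀ x, 0 ≤ h x) ∧ (∀ x ∈ K, 1 ≤ h x) ∧
      MemLp h 2 volume ∧ ∫ x, (h x - W x) ^ 2 ≤ ε := by
  set δ : ℝ := Real.sqrt (ε / 4) with hδdef
  have hδ : 0 < δ := Real.sqrt_pos.2 (by positivity)
  have hδ2 : δ ^ 2 = ε / 4 := Real.sq_sqrt (by positivity)
  obtain ⟨h₀, hcs₀, hle₀, hc₀, hm₀⟩ := hW.exists_hasCompactSupport_eLpNorm_sub_le
    (by norm_num : (2 : ℝ≥0∞) ≠ ∞) (ε := ENNReal.ofReal δ) (by simpa using hδ)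
  obtain ⟨U, hKU, hUo, hUv⟩ := K.exists_isOpen_lt_add (μ := (volume : Measure E))
    hK.measure_lt_top.ne (ε := ENNReal.ofReal (ε / 4)) (by simpa using hε)
  obtain ⟨ψ, hψ1, hψ0, hψcs, hψr⟩ := exists_continuous_one_zero_of_isCompact hK
    hUo.isClosed_compl (by
      rw [Set.disjoint_compl_right_iff_subset]; exact hKU)
  have hcont : Continuous (fun x => max (h₀ x) (ψ x)) := hc₀.max ψ.continuous
  have hcs : HasCompactSupport (fun x => max (h₀ x) (ψ x)) := by
    refine HasCompactSupport.intro (K := tsupport h₀ ∪ tsupport ψ)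
      (hcs₀.isCompact.union hψcs.isCompact) fun x hx => ?_
    simp only [Set.mem_union, not_or] at hx
    have h1 : h₀ x = 0 := image_eq_zero_of_notMem_tsupport hx.1
    have h2 : ψ x = 0 := image_eq_zero_of_notMem_tsupport hx.2
    simp [h1, h2]
  refine ⟨fun x => max (h₀ x) (ψ x), hcont, hcs, fun x => le_max_of_le_right (hψr x).1,
    fun x hx => le_max_of_le_right (by rw [hψ1 hx]; simp),
    hcont.memLp_of_hasCompactSupport hcs, ?_⟩
  have hpt : ∀ x, (max (h₀ x) (ψ x) - W x) ^ 2 ≤
      2 * ((W - h₀) x) ^ 2 + 2 * (U \ K).indicator 1 x := by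
    intro x
    simp only [Pi.sub_apply]
    by_cases hxK : x ∈ K
    · have e1 : ψ x = 1 := by rw [hψ1 hxK]; rfl
      have e2 : W x = 1 := hWK x hxK
      have e3 : (U \ K).indicator (1 : E → ℝ) x = 0 := by simp [hxK]
      rw [e1, e2, e3]
      rcases le_total (h₀ x) 1 with h | h
      · rw [max_eq_right h]; nlinarith [sq_nonneg (1 - h₀ x)]
      · rw [max_eq_left h]; nlinarith [sq_nonneg (1 - h₀ x)]
    · by_cases hxU : x ∈ U
      · have e3 : (U \ K).indicator (1 : E → ℝ) x = 1 := by simp [hxK, hxU]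
        rw [e3]
        have h1 := (hψr x).1
        have h2 := (hψr x).2
        have h3 := hW0 x
        rcases le_total (h₀ x) (ψ x) with h | h
        · rw [max_eq_right h]
          rcases le_total (ψ x) (W x) with h' | h'
          · nlinarith [sq_nonneg (W x - h₀ x)]
          · have : (ψ x - W x) ^ 2 ≤ 1 := by nlinarith
            nlinarith [sq_nonneg (W x - h₀ x)]
        · rw [max_eq_left h]; nlinarith [sq_nonneg (W x - h₀ x)]
      · have e1 : ψ x = 0 := by rw [hψ0 hxU]; rfl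
        have e3 : (U \ K).indicator (1 : E → ℝ) x = 0 := by simp [hxU]
        rw [e1, e3]
        have h3 := hW0 x
        rcases le_total (h₀ x) 0 with h | h
        · rw [max_eq_right h]; nlinarith [sq_nonneg (W x - h₀ x)]
        · rw [max_eq_left h]; nlinarith [sq_nonneg (W x - h₀ x)]
  have hUK : volume (U \ K) ≤ ENNReal.ofReal (ε / 4) := by
    rw [measure_sdiff hKU hK.measurableSet.nullMeasurableSet hK.measure_lt_top.ne]
    exact tsub_le_iff_left.2 hUv.le
  have hUKm : MeasurableSet (U \ K) := hUo.measurableSet.diff hK.measurableSet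
  have hmaes : AEStronglyMeasurable (fun x => (max (h₀ x) (ψ x) - W x) ^ 2) volume :=
    (hcont.aestronglyMeasurable.sub hW.aestronglyMeasurable).pow 2
  rw [integral_eq_lintegral_of_nonneg_ae (Filter.Eventually.of_forall fun x => sq_nonneg _) hmaes]
  refine ENNReal.toReal_le_of_le_ofReal hε.le ?_
  calc ∫⁻ x, ENNReal.ofReal ((max (h₀ x) (ψ x) - W x) ^ 2)
      ≤ ∫⁻ x, (2 * ENNReal.ofReal (((W - h₀) x) ^ 2) + 2 * (U \ K).indicator 1 x) := by
        refine lintegral_mono fun x => ?_
        refine (ENNReal.ofReal_le_ofReal (hpt x)).trans ?_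
        have hi : (0 : ℝ) ≤ (U \ K).indicator 1 x := by
          by_cases h : x ∈ U \ K <;> simp [h]
        rw [ENNReal.ofReal_add (by positivity) (by positivity), ENNReal.ofReal_mul (by norm_num),
          ENNReal.ofReal_mul (by norm_num)]
        have : ENNReal.ofReal ((U \ K).indicator (1 : E → ℝ) x) =
            (U \ K).indicator (1 : E → ℝ≥0∞) x := by
          by_cases h : x ∈ U \ K <;> simp [h]
        rw [this]
        norm_num
    _ = 2 * (∫⁻ x, ENNReal.ofReal (((W - h₀) x) ^ 2)) + 2 * volume (U \ K) := by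
        rw [lintegral_add_right' _ (by
          exact ((measurable_one.indicator hUKm).const_mul 2).aemeasurable),
          lintegral_const_mul' _ _ (by norm_num), lintegral_const_mul' _ _ (by norm_num),
          lintegral_indicator_one hUKm]
    _ ≤ 2 * ENNReal.ofReal (ε / 4) + 2 * ENNReal.ofReal (ε / 4) := by
        refine add_le_add (mul_le_mul_right ?_ 2) (mul_le_mul_right hUK 2)
        rw [← hδ2]
        exact D_lintegral_sq_le hδ.le hle₀
    _ = ENNReal.ofReal ε := by
        rw [← two_mul, ← mul_assoc, show (2 : ℝ≥0∞) * 2 = ENNReal.ofReal 4 by norm_num,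
          ← ENNReal.ofReal_mul (by norm_num)]
        congr 1; ring

end D

end Pool.Agent.Helper85.Cap
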