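import Pool.Agent.Helper85.Cap.D1
import Pool.Agent.Helper85.Cap.D2

/-!
Module D, part 3: the duality inequality.
-/
set_option autoImplicit false
open MeasureTheory Metric Set
open scoped ENNReal

namespace Pool.Agent.Helper85.Cap

section D
variable {E : Type*} [NormedAddCommGroup E] [InnerProductSpace ℝ E] [FiniteDimensional ℝ E]
  [MeasurableSpace E] [BorelSpace E]

theorem D_memLp (u : E → ℝ≥0∞) (hu : Measurable u) (C : NNReal) (huC : ∀ x, u x ≤ C)
    (hui : ∫⁻ x, u x ≠ ∞) : MemLp (fun x => (u x).toReal) 2 volume := by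
  rw [memLp_two_iff_integrable_sq hu.ennreal_toReal.aestronglyMeasurable]
  have h : ∀ x, (u x).toReal ^ 2 = (u x ^ 2).toReal := fun x => by rw [ENNReal.toReal_pow]
  simp only [h]
  refine integrable_toReal_of_lintegral_ne_top (hu.pow_const 2).aemeasurable ?_
  have : ∫⁻ x, u x ^ 2 ≤ C * ∫⁻ x, u x := by
    rw [← lintegral_const_mul _ hu]
    refine lintegral_mono fun x => ?_
    rw [sq]
    exact mul_le_mul' (huC x) le_rfl
  exact ne_top_of_le_ne_top (ENNReal.mul_ne_top ENNReal.coe_ne_top hui) this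

theorem D_Bk_eq (ρ : ℝ → ℝ≥0∞) (hρm : Measurable ρ) (a b : E → ℝ) (ha : Measurable a)
    (hb : Measurable b) (ha0 : ∀ x, 0 ≤ a x) (hb0 : ∀ x, 0 ≤ b x) :
    Bk ρ a b = (∫⁻ x, ∫⁻ y, ENNReal.ofReal (a x) * ρ ‖x - y‖ * ENNReal.ofReal (b y)).toReal := by
  have hm : Measurable (fun z : E × E => a z.1 * b z.2) :=
    (ha.comp measurable_fst).mul (hb.comp measurable_snd)
  unfold Bk
  rw [integral_eq_lintegral_of_nonneg_ae (f := fun z : E × E => a z.1 * b z.2)
    (Filter.Eventually.of_forall fun z => mul_nonneg (ha0 z.1) (hb0 z.2)) hm.aestronglyMeasurable,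
    D_lintegral_cpl ρ hρm (fun z => ENNReal.ofReal (a z.1 * b z.2)) hm.ennreal_ofReal]
  congr 1
  refine lintegral_congr fun x => lintegral_congr fun y => ?_
  rw [ENNReal.ofReal_mul (ha0 x)]; ring

/-- If `u = g + θ P u` then `⟨a, (1 - θ P) u⟩ = ⟨a, g⟩`. -/
theorem D_Ek_eq (ρ : ℝ → ℝ≥0∞) (hρm : Measurable ρ) (hρ1 : ∫⁻ x : E, ρ ‖x‖ = 1) (θ : ℝ)
    (h0 : 0 ≤ θ) (a : E → ℝ) (ham : Measurable a) (ha : MemLp a 2 volume) (ha0 : ∀ x, 0 ≤ a x)
    (g u : E → ℝ≥0∞) (hg : Measurable g) (hu : Measurable u) (C : NNReal) (huC : ∀ x, u x ≤ C)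
    (hui : ∫⁻ x, u x ≠ ∞)
    (hueq : ∀ x, u x = g x + ENNReal.ofReal θ * ∫⁻ y, ρ ‖x - y‖ * u y) :
    Ek ρ θ a (fun x => (u x).toReal) = (∫⁻ x, ENNReal.ofReal (a x) * g x).toReal := by
  have hU := D_memLp u hu C huC hui
  have hufin : ∀ x, u x ≠ ∞ := fun x => ne_top_of_le_ne_top ENNReal.coe_ne_top (huC x)
  have hau : Integrable (fun x => a x * (u x).toReal) := ha.integrable_mul hU
  have hBint := D_integrable ρ hρm hρ1 ha hU
  have hpm : Measurable (fun x : E => ∫⁻ y, ρ ‖x - y‖ * u y) := by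
    have : Measurable (fun z : E × E => ρ ‖z.1 - z.2‖ * u z.2) :=
      (D_meas_kernel ρ hρm).mul (hu.comp measurable_snd)
    exact this.lintegral_prod_right'
  -- the two integrals in ENNReal
  have e1 : ∫ x, a x * (u x).toReal = (∫⁻ x, ENNReal.ofReal (a x) * u x).toReal := by
    rw [integral_eq_lintegral_of_nonneg_ae
      (Filter.Eventually.of_forall fun x => mul_nonneg (ha0 x) ENNReal.toReal_nonneg)
      (ham.mul hu.ennreal_toReal).aestronglyMeasurable]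
    congr 1
    refine lintegral_congr fun x => ?_
    rw [ENNReal.ofReal_mul (ha0 x), ENNReal.ofReal_toReal (hufin x)]
  have e1fin : ∫⁻ x, ENNReal.ofReal (a x) * u x ≠ ∞ := by
    have := hau.lintegral_lt_top
    have h2 : ∫⁻ x, ENNReal.ofReal (a x * (u x).toReal) = ∫⁻ x, ENNReal.ofReal (a x) * u x := by
      refine lintegral_congr fun x => ?_
      rw [ENNReal.ofReal_mul (ha0 x), ENNReal.ofReal_toReal (hufin x)]
    rw [h2] at this
    exact this.ne
  have e2 : Bk ρ a (fun x => (u x).toReal) =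
      (∫⁻ x, ENNReal.ofReal (a x) * ∫⁻ y, ρ ‖x - y‖ * u y).toReal := by
    rw [D_Bk_eq ρ hρm a _ ham hu.ennreal_toReal ha0 (fun x => ENNReal.toReal_nonneg)]
    congr 1
    refine lintegral_congr fun x => ?_
    have hm2 : Measurable (fun y : E => ρ ‖x - y‖ * u y) :=
      (hρm.comp (measurable_const.sub measurable_id).norm).mul hu
    rw [← lintegral_const_mul _ hm2]
    refine lintegral_congr fun y => ?_
    rw [ENNReal.ofReal_toReal (hufin y), mul_assoc]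
  have e3 : ∫⁻ x, ENNReal.ofReal (a x) * u x = (∫⁻ x, ENNReal.ofReal (a x) * g x) +
      ENNReal.ofReal θ * ∫⁻ x, ENNReal.ofReal (a x) * ∫⁻ y, ρ ‖x - y‖ * u y := by
    have hm3 : Measurable (fun x => ENNReal.ofReal (a x) * ∫⁻ y, ρ ‖x - y‖ * u y) :=
      ham.ennreal_ofReal.mul hpm
    have hm4 : Measurable (fun x => ENNReal.ofReal (a x) * g x) := ham.ennreal_ofReal.mul hg
    rw [← lintegral_const_mul _ hm3, ← lintegral_add_left hm4]
    refine lintegral_congr fun x => ?_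
    conv_lhs => rw [hueq x]
    ring
  unfold Ek
  rw [e1, e2, e3]
  rw [e3] at e1fin
  obtain ⟨f1, f2⟩ := ENNReal.add_ne_top.1 e1fin
  rw [ENNReal.toReal_add f1 f2, ENNReal.toReal_mul, ENNReal.toReal_ofReal h0]
  ring

theorem D_lintegral_sq_real (a : E → ℝ) (ham : Measurable a) (ha0 : ∀ x, 0 ≤ a x) :
    ∫ x, a x ^ 2 = (∫⁻ x, ENNReal.ofReal (a x) ^ 2).toReal := by
  rw [integral_eq_lintegral_of_nonneg_ae
      (Filter.Eventually.of_forall fun x => sq_nonneg _) (ham.pow_const 2).aestronglyMeasurable]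
  congr 1
  refine lintegral_congr fun x => ?_
  rw [ENNReal.ofReal_pow (ha0 x)]

/-- the duality inequality -/
theorem duality_main (ρ : ℝ → ℝ≥0∞) (hρm : Measurable ρ) (hρ1 : ∫⁻ x : E, ρ ‖x‖ = 1) (θ : ℝ)
    (h0 : 0 ≤ θ) (h1 : θ ≤ 1) (K : Set E) (hK : IsCompact K) (r : ℝ)
    (hvol : volume (ball (0 : E) r) ≤ volume K)
    (hpol : ∀ h : E → ℝ, Continuous h → HasCompactSupport h → (∀ x, 0 ≤ h x) →
      volume (ball (0 : E) r) ≤ volume {x | 1 ≤ h x} →
      ∃ v : E → ℝ, Continuous v ∧ HasCompactSupport v ∧ (∀ x, 0 ≤ v x) ∧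
        (∀ x, ‖x‖ < r → 1 ≤ v x) ∧
        ∫⁻ x, ENNReal.ofReal (v x) ^ 2 = ∫⁻ x, ENNReal.ofReal (h x) ^ 2 ∧
        ∫⁻ x, ∫⁻ y, ENNReal.ofReal (h x) * ρ ‖x - y‖ * ENNReal.ofReal (h y) ≤
          ∫⁻ x, ∫⁻ y, ENNReal.ofReal (v x) * ρ ‖x - y‖ * ENNReal.ofReal (v y))
    (w f : E → ℝ≥0∞) (hw : Measurable w) (hf : Measurable f) (hw1 : ∀ x, w x ≤ 1)
    (hwK : ∀ x ∈ K, w x = 1) (hfK : ∀ x, x ∉ K → f x = 0) (hwi : ∫⁻ x, w x ≠ ∞)
    (hweq : ∀ x, w x = f x + ENNReal.ofReal θ * ∫⁻ y, ρ ‖x - y‖ * w y)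
    (g u : E → ℝ≥0∞) (hg : Measurable g) (hu : Measurable u) (C : NNReal) (huC : ∀ x, u x ≤ C)
    (hui : ∫⁻ x, u x ≠ ∞) (hgr : ∀ x, r ≤ ‖x‖ → g x = 0)
    (hueq : ∀ x, u x = g x + ENNReal.ofReal θ * ∫⁻ y, ρ ‖x - y‖ * u y) (s : ℝ) (hs : 0 ≤ s) :
    2 * s * (∫⁻ x, g x).toReal ≤ (∫⁻ x, f x).toReal + s ^ 2 * (∫⁻ x, g x * u x).toReal := by
  set W : E → ℝ := fun x => (w x).toReal with hWdef
  set U : E → ℝ := fun x => (u x).toReal with hUdef
  have hW : MemLp W 2 volume := D_memLp w hw 1 (by simpa using hw1) hwi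
  have hU : MemLp U 2 volume := D_memLp u hu C huC hui
  have hufin : ∀ x, u x ≠ ∞ := fun x => ne_top_of_le_ne_top ENNReal.coe_ne_top (huC x)
  have hwfin : ∀ x, w x ≠ ∞ := fun x => ne_top_of_le_ne_top ENNReal.one_ne_top (hw1 x)
  have EWW : Ek ρ θ W W = (∫⁻ x, f x).toReal := by
    rw [D_Ek_eq ρ hρm hρ1 θ h0 W hw.ennreal_toReal hW (fun x => ENNReal.toReal_nonneg) f w hf hw 1
      (by simpa using hw1) hwi hweq]
    congr 1
    refine lintegral_congr fun x => ?_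
    by_cases hx : x ∈ K
    · simp [hWdef, hwK x hx]
    · simp [hfK x hx]
  have EUU : Ek ρ θ U U = (∫⁻ x, g x * u x).toReal := by
    rw [D_Ek_eq ρ hρm hρ1 θ h0 U hu.ennreal_toReal hU (fun x => ENNReal.toReal_nonneg) g u hg hu C
      huC hui hueq]
    congr 1
    refine lintegral_congr fun x => ?_
    rw [hUdef, ENNReal.ofReal_toReal (hufin x), mul_comm]
  have key : ∀ τ : ℝ, 0 < τ → 2 * s * (∫⁻ x, g x).toReal ≤
      (1 + τ) * (∫⁻ x, f x).toReal + (1 + τ⁻¹) * (2 * τ ^ 2) +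
        s ^ 2 * (∫⁻ x, g x * u x).toReal := by
    intro τ hτ
    obtain ⟨h, hhc, hhcs, hh0, hhK, hhm, hhW⟩ := D_approx W hW (fun x => ENNReal.toReal_nonneg) K hK
      (fun x hx => by simp [hWdef, hwK x hx]) (τ ^ 2) (by positivity)
    have hvol' : volume (ball (0 : E) r) ≤ volume {x | 1 ≤ h x} :=
      hvol.trans (measure_mono fun x hx => hhK x hx)
    obtain ⟨v, hvc, hvcs, hv0, hv1, hvsq, hven⟩ := hpol h hhc hhcs hh0 hvol'
    have hvm : MemLp v 2 volume := hvc.memLp_of_hasCompactSupport hvcs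
    -- energies of v and h
    have A1 : Ek ρ θ v v ≤ Ek ρ θ h h := by
      rw [D_Ek_self, D_Ek_self, D_lintegral_sq_real v hvc.measurable hv0,
        D_lintegral_sq_real h hhc.measurable hh0, hvsq]
      have : Bk ρ h h ≤ Bk ρ v v := by
        rw [D_Bk_eq ρ hρm h h hhc.measurable hhc.measurable hh0 hh0,
          D_Bk_eq ρ hρm v v hvc.measurable hvc.measurable hv0 hv0]
        refine ENNReal.toReal_mono ?_ hven
        have hi := (D_integrable ρ hρm hρ1 hvm hvm).lintegral_lt_top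
        rw [D_lintegral_cpl ρ hρm (fun z => ENNReal.ofReal (v z.1 * v z.2))
          (((hvc.measurable.comp measurable_fst).mul
            (hvc.measurable.comp measurable_snd)).ennreal_ofReal)] at hi
        refine ne_of_lt (lt_of_eq_of_lt ?_ hi)
        refine lintegral_congr fun x => lintegral_congr fun y => ?_
        rw [ENNReal.ofReal_mul (hv0 x)]; ring
      nlinarith
    have A2 := D_Ek_nonneg ρ hρm hρ1 θ h0 h1 (a := fun x => v x + (-s) * U x)
      (hvm.add (hU.const_mul (-s)))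
    rw [D_Ek_expand ρ hρm hρ1 θ hvm hU (-s), EUU] at A2
    have A3 : (∫⁻ x, g x).toReal ≤ Ek ρ θ v U := by
      rw [D_Ek_eq ρ hρm hρ1 θ h0 v hvc.measurable hvm hv0 g u hg hu C huC hui hueq]
      refine ENNReal.toReal_mono ?_ ?_
      · have hvu : Integrable (fun x => v x * (u x).toReal) := hvm.integrable_mul hU
        refine ne_top_of_le_ne_top hvu.lintegral_lt_top.ne (lintegral_mono fun x => ?_)
        rw [ENNReal.ofReal_mul (hv0 x), ENNReal.ofReal_toReal (hufin x)]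
        refine mul_le_mul' le_rfl ?_
        rw [hueq x]; exact le_self_add
      · refine lintegral_mono fun x => ?_
        by_cases hx : ‖x‖ < r
        · have : (1 : ℝ≥0∞) ≤ ENNReal.ofReal (v x) := by
            rw [ENNReal.one_le_ofReal]; exact hv1 x hx
          calc g x = 1 * g x := (one_mul _).symm
            _ ≤ ENNReal.ofReal (v x) * g x := mul_le_mul' this le_rfl
        · rw [hgr x (not_lt.1 hx)]; exact zero_le
    have hd : MemLp (fun x => h x - W x) 2 volume := hhm.sub hW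
    have B1 : Ek ρ θ h h = Ek ρ θ W W + 2 * 1 * Ek ρ θ W (fun x => h x - W x) +
        1 ^ 2 * Ek ρ θ (fun x => h x - W x) (fun x => h x - W x) := by
      rw [← D_Ek_expand ρ hρm hρ1 θ hW hd 1]
      congr 1 <;> (funext x; ring)
    have B2 := D_Ek_nonneg ρ hρm hρ1 θ h0 h1 (a := fun x => W x + (-τ⁻¹) * (h x - W x))
      (hW.add (hd.const_mul _))
    rw [D_Ek_expand ρ hρm hρ1 θ hW hd (-τ⁻¹), EWW] at B2
    have B3 := D_Ek_le ρ hρm hρ1 θ h0 h1 hd
    have B4 : ∫ x, (h x - W x) ^ 2 ≤ τ ^ 2 := hhW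
    set X := Ek ρ θ W (fun x => h x - W x)
    set Y := Ek ρ θ (fun x => h x - W x) (fun x => h x - W x)
    rw [EWW] at B1
    have hY0 : 0 ≤ Y := D_Ek_nonneg ρ hρm hρ1 θ h0 h1 hd
    have B5 : 2 * X ≤ τ * (∫⁻ x, f x).toReal + τ⁻¹ * Y := by
      have := mul_nonneg hτ.le B2
      have e : τ * ((∫⁻ x, f x).toReal + 2 * -τ⁻¹ * X + (-τ⁻¹) ^ 2 * Y) =
          τ * (∫⁻ x, f x).toReal - 2 * X + τ⁻¹ * Y := by
        field_simp
        ring
      rw [e] at this
      linarith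
    have B6 : Y ≤ 2 * τ ^ 2 := by linarith
    have hti : 0 < τ⁻¹ := inv_pos.2 hτ
    have B7 : (1 + τ⁻¹) * Y ≤ (1 + τ⁻¹) * (2 * τ ^ 2) :=
      mul_le_mul_of_nonneg_left B6 (by positivity)
    have A4 : 2 * s * (∫⁻ x, g x).toReal ≤ 2 * s * Ek ρ θ v U :=
      mul_le_mul_of_nonneg_left A3 (by positivity)
    nlinarith
  refine le_of_forall_pos_le_add fun ε hε => ?_
  set F := (∫⁻ x, f x).toReal
  have hF : 0 ≤ F := ENNReal.toReal_nonneg
  set τ := min 1 (ε / (F + 4)) with hτdef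
  have hτ : 0 < τ := lt_min one_pos (by positivity)
  have hk := key τ hτ
  have e1 : (1 + τ⁻¹) * (2 * τ ^ 2) = 2 * τ ^ 2 + 2 * τ := by field_simp
  rw [e1] at hk
  have h2 : τ ≤ 1 := min_le_left _ _
  have h3 : τ ≤ ε / (F + 4) := min_le_right _ _
  have h4 : τ * (F + 4) ≤ ε := by
    rwa [le_div_iff₀ (by positivity)] at h3
  nlinarith

end D

end Pool.Agent.Helper85.Cap
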