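import Pool.Agent.Helper85.Cap.Defs

/-!
Module E1 of MP_14a161_gt (helper94 for helper85): adapted coordinates of `ℝ⁴` and the
Cauchy-Schwarz lower bound for the area of a shadow.
-/
set_option autoImplicit false
set_option linter.unusedSectionVars false
open MeasureTheory Metric Set Filter Topology
open scoped ENNReal
open Pool.Agent.Helper85.Herm

namespace Pool.Agent.Helper85.Cap

theorem E1_lintegral_succ (n : ℕ) (F : (Fin (n + 1) → ℝ) → ℝ≥0∞) (hF : Measurable F) :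
    ∫⁻ y, F y = ∫⁻ a : ℝ, ∫⁻ z : Fin n → ℝ, F (Fin.cons a z) := by
  have h := (volume_preserving_piFinSuccAbove (fun _ : Fin (n + 1) => ℝ) 0).symm
  rw [← h.lintegral_comp hF]
  have hm : Measurable (fun z : ℝ × (Fin n → ℝ) =>
      F ((MeasurableEquiv.piFinSuccAbove (fun _ : Fin (n + 1) => ℝ) 0).symm z)) :=
    hF.comp h.measurable
  rw [show (volume : Measure (ℝ × (Fin n → ℝ))) = (volume : Measure ℝ).prod volume from rfl,
    lintegral_prod _ hm.aemeasurable]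
  refine lintegral_congr fun a => lintegral_congr fun z => ?_
  rw [MeasurableEquiv.piFinSuccAbove_symm_apply]
  simp [Fin.insertNthEquiv]

theorem E1_lintegral_fin4 (F : (Fin 4 → ℝ) → ℝ≥0∞) (hF : Measurable F) :
    ∫⁻ y, F y = ∫⁻ q : ℝ × ℝ, ∫⁻ p : ℝ × ℝ, F ![q.1, q.2, p.1, p.2] := by
  have hc : ∀ n : ℕ, Measurable (fun z : ℝ × (Fin n → ℝ) => (Fin.cons z.1 z.2 : Fin (n+1) → ℝ)) := by
    intro n
    rw [measurable_pi_iff]
    intro i
    refine Fin.cases ?_ (fun j => ?_) i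
    · exact measurable_fst
    · exact (measurable_pi_apply j).comp measurable_snd
  have h4 : ∫⁻ y, F y = ∫⁻ a : ℝ, ∫⁻ b : ℝ, ∫⁻ c : ℝ, ∫⁻ d : ℝ, F ![a, b, c, d] := by
    rw [E1_lintegral_succ 3 F hF]
    refine lintegral_congr fun a => ?_
    have h1 : Measurable (fun z : Fin 3 → ℝ => F (Fin.cons a z)) :=
      hF.comp ((hc 3).comp (measurable_const.prodMk measurable_id))
    rw [E1_lintegral_succ 2 _ h1]
    refine lintegral_congr fun b => ?_
    have h2 : Measurable (fun z : Fin 2 → ℝ => F (Fin.cons a (Fin.cons b z))) :=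
      h1.comp ((hc 2).comp (measurable_const.prodMk measurable_id))
    rw [E1_lintegral_succ 1 _ h2]
    refine lintegral_congr fun c => ?_
    have h3 : Measurable (fun z : Fin 1 → ℝ => F (Fin.cons a (Fin.cons b (Fin.cons c z)))) :=
      h2.comp ((hc 1).comp (measurable_const.prodMk measurable_id))
    rw [E1_lintegral_succ 0 _ h3]
    refine lintegral_congr fun d => ?_
    rw [lintegral_unique]
    have : (volume : Measure (Fin 0 → ℝ)) univ = 1 := by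
      rw [volume_pi, Measure.pi_univ]; simp
    rw [this, mul_one]
    rfl
  rw [h4]
  have hm : Measurable (fun z : (ℝ × ℝ) × (ℝ × ℝ) => F ![z.1.1, z.1.2, z.2.1, z.2.2]) := by
    apply hF.comp
    rw [measurable_pi_iff]
    intro i
    fin_cases i
    · exact measurable_fst.comp measurable_fst
    · exact measurable_snd.comp measurable_fst
    · exact measurable_fst.comp measurable_snd
    · exact measurable_snd.comp measurable_snd
  have hm2 : Measurable (fun q : ℝ × ℝ => ∫⁻ p : ℝ × ℝ, F ![q.1, q.2, p.1, p.2]) :=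
    hm.lintegral_prod_right'
  have e : ∫⁻ q : ℝ × ℝ, (∫⁻ p : ℝ × ℝ, F ![q.1, q.2, p.1, p.2]) =
      ∫⁻ a : ℝ, ∫⁻ b : ℝ, ∫⁻ p : ℝ × ℝ, F ![a, b, p.1, p.2] :=
    lintegral_prod _ hm2.aemeasurable
  rw [e]
  refine lintegral_congr fun a => lintegral_congr fun b => ?_
  have hm3 : Measurable (fun p : ℝ × ℝ => F ![a, b, p.1, p.2]) :=
    hm.comp (Measurable.prodMk (measurable_const (a := (a, b))) measurable_id)
  exact (lintegral_prod _ hm3.aemeasurable).symm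

theorem E1_scale2 (t : ℝ) (ht : 0 < t) (K : ℝ × ℝ → ℝ≥0∞) (hK : Measurable K) :
    ∫⁻ p : ℝ × ℝ, K (t * p.1, t * p.2) = ENNReal.ofReal ((t ^ 2)⁻¹) * ∫⁻ p, K p := by
  have h := Measure.map_addHaar_smul (volume : Measure (ℝ × ℝ)) ht.ne'
  have hf : Module.finrank ℝ (ℝ × ℝ) = 2 := by simp
  rw [hf] at h
  have h1 : ∫⁻ p : ℝ × ℝ, K (t • p) = ∫⁻ p, K p ∂(Measure.map (t • ·) (volume : Measure (ℝ × ℝ))) :=
    (lintegral_map hK (measurable_const_smul t)).symm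
  rw [h, lintegral_smul_measure, abs_of_pos (by positivity)] at h1
  exact h1

section inner
variable (u v : C2 ≃ₗᵢ[ℝ] C2) (hu : ∀ x, u (u x) = -x) (hv : ∀ x, v (v x) = -x)
    (huv : ∀ x, u (v x) = -v (u x))
include hu in
theorem E1_skew (x y : C2) : inner ℝ (u x) y = - inner ℝ x (u y) := by
  have h := u.inner_map_map x (u y)
  rw [hu, inner_neg_right] at h
  linarith

include hu in
theorem E1_self (x : C2) : inner ℝ x (u x) = (0 : ℝ) := by
  have h := E1_skew u hu x x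
  rw [real_inner_comm] at h
  linarith

include hu hv huv in
theorem E1_uv (x : C2) : inner ℝ (u x) (v x) = (0 : ℝ) := by
  have h1 := E1_skew u hu x (v x)
  have h2 := E1_skew v hv x (u x)
  rw [huv, inner_neg_right, neg_neg] at h1
  rw [real_inner_comm] at h2
  linarith

include hu hv huv in
theorem E1_orthonormal (w : C2) (hw : w ≠ 0) :
    Orthonormal ℝ (![‖w‖⁻¹ • w, ‖w‖⁻¹ • u w, ‖w‖⁻¹ • v w, ‖w‖⁻¹ • u (v w)] : Fin 4 → C2) := by
  have hp : ‖w‖ ≠ 0 := norm_ne_zero_iff.2 hw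
  have o12 : inner ℝ w (u w) = (0 : ℝ) := E1_self u hu w
  have o13 : inner ℝ w (v w) = (0 : ℝ) := E1_self v hv w
  have o23 : inner ℝ (u w) (v w) = (0 : ℝ) := E1_uv u v hu hv huv w
  have o14 : inner ℝ w (u (v w)) = (0 : ℝ) := by
    have := E1_skew u hu w (v w); linarith
  have o24 : inner ℝ (u w) (u (v w)) = (0 : ℝ) := by rw [u.inner_map_map, o13]
  have o34 : inner ℝ (v w) (u (v w)) = (0 : ℝ) := E1_self u hu (v w)
  have c : ∀ x y : C2, inner ℝ x y = (0 : ℝ) → inner ℝ y x = (0 : ℝ) := fun x y h => by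
    rw [real_inner_comm]; exact h
  constructor
  · intro i
    fin_cases i <;> simp [norm_smul, hp]
  · intro i j hij
    fin_cases i <;> fin_cases j <;>
      first
        | exact absurd rfl hij
        | simp [inner_smul_left, inner_smul_right, o12, o13, o14, o23, o24, o34,
            c _ _ o12, c _ _ o13, c _ _ o14, c _ _ o23, c _ _ o24, c _ _ o34]

include hu hv huv in
/-- the orthonormal basis adapted to `w` -/
theorem E1_basis (w : C2) (hw : w ≠ 0) : ∃ b : OrthonormalBasis (Fin 4) ℝ C2,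
    (b : Fin 4 → C2) = ![‖w‖⁻¹ • w, ‖w‖⁻¹ • u w, ‖w‖⁻¹ • v w, ‖w‖⁻¹ • u (v w)] := by
  have ho := E1_orthonormal u v hu hv huv w hw
  have hs := ho.linearIndependent.span_eq_top_of_card_eq_finrank' (by simp)
  exact ⟨OrthonormalBasis.mk ho hs.ge, OrthonormalBasis.coe_mk _ _⟩

include hu hv huv in
theorem lintegral_coords (w : C2) (hw : w ≠ 0) (G : C2 → ℝ≥0∞) (hG : Measurable G) :
    ∫⁻ x, G x = ∫⁻ q : ℝ × ℝ, ∫⁻ p : ℝ × ℝ,
      G ((‖w‖ ^ 2)⁻¹ • (q.1 • w + q.2 • u w) + (p.1 • v w + p.2 • u (v w))) := by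
  obtain ⟨b, hb⟩ := E1_basis u v hu hv huv w hw
  have hp : 0 < ‖w‖ := norm_pos_iff.2 hw
  set t := ‖w‖ with ht
  set F : (Fin 4 → ℝ) → ℝ≥0∞ := fun y => G (b.repr.symm (WithLp.toLp 2 y)) with hF
  have hmp : MeasurePreserving (fun y : Fin 4 → ℝ => b.repr.symm (WithLp.toLp 2 y)) :=
    b.measurePreserving_repr_symm.comp (PiLp.volume_preserving_toLp (Fin 4))
  have hFm : Measurable F := hG.comp hmp.measurable
  have hFe : ∀ a₁ a₂ a₃ a₄ : ℝ, F ![a₁, a₂, a₃, a₄] =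
      G (a₁ • (t⁻¹ • w) + a₂ • (t⁻¹ • u w) + a₃ • (t⁻¹ • v w) + a₄ • (t⁻¹ • u (v w))) := by
    intro a₁ a₂ a₃ a₄
    simp only [hF]
    congr 1
    rw [← b.sum_repr_symm, hb]
    simp [Fin.sum_univ_four]
  have hA : ∫⁻ x, G x = ∫⁻ y, F y := (hmp.lintegral_comp hG).symm
  rw [hA, E1_lintegral_fin4 F hFm]
  simp only [hFe]
  set Φ : ℝ × ℝ → ℝ × ℝ → ℝ≥0∞ := fun q p =>
    G (q.1 • (t⁻¹ • w) + q.2 • (t⁻¹ • u w) + p.1 • (t⁻¹ • v w) + p.2 • (t⁻¹ • u (v w))) with hΦ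
  have hΦm : Measurable (fun z : (ℝ × ℝ) × (ℝ × ℝ) => Φ z.1 z.2) := by
    apply hG.comp
    fun_prop
  clear_value Φ
  have hΦm1 : ∀ q, Measurable (Φ q) := fun q =>
    hΦm.comp (Measurable.prodMk (measurable_const (a := q)) measurable_id)
  have hΦm2 : Measurable (fun q => ∫⁻ p, Φ q p) := hΦm.lintegral_prod_right'
  have e1 : ∀ q p : ℝ × ℝ,
      G ((t ^ 2)⁻¹ • (q.1 • w + q.2 • u w) + (p.1 • v w + p.2 • u (v w))) =
        Φ (t⁻¹ * q.1, t⁻¹ * q.2) (t * p.1, t * p.2) := by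
    intro q p
    simp only [hΦ]
    congr 1
    have h1 : t * p.1 * t⁻¹ = p.1 := by field_simp
    have h2 : t * p.2 * t⁻¹ = p.2 := by field_simp
    have h3 : t⁻¹ * q.1 * t⁻¹ = (t ^ 2)⁻¹ * q.1 := by field_simp
    have h4 : t⁻¹ * q.2 * t⁻¹ = (t ^ 2)⁻¹ * q.2 := by field_simp
    simp only [smul_smul, smul_add, h1, h2, h3, h4]
    abel
  simp only [e1]
  have e2 : ∀ q : ℝ × ℝ, ∫⁻ p : ℝ × ℝ, Φ (t⁻¹ * q.1, t⁻¹ * q.2) (t * p.1, t * p.2) =
      ENNReal.ofReal ((t ^ 2)⁻¹) * ∫⁻ p, Φ (t⁻¹ * q.1, t⁻¹ * q.2) p := fun q =>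
    E1_scale2 t hp _ (hΦm1 _)
  simp only [e2]
  have hm4 : Measurable (fun q : ℝ × ℝ => ∫⁻ p, Φ (t⁻¹ * q.1, t⁻¹ * q.2) p) :=
    hΦm2.comp (by fun_prop)
  rw [lintegral_const_mul _ hm4,
    E1_scale2 t⁻¹ (inv_pos.2 hp) (fun q => ∫⁻ p, Φ q p) hΦm2, ← mul_assoc,
    ← ENNReal.ofReal_mul (by positivity)]
  have : (t ^ 2)⁻¹ * ((t⁻¹) ^ 2)⁻¹ = 1 := by field_simp
  rw [this, ENNReal.ofReal_one, one_mul]
  simp only [hΦ]

omit hu hv huv
theorem qf_measurable (u v : C2 ≃ₗᵢ[ℝ] C2) (f : C2 → ℝ≥0∞) (hf : Measurable f) :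
    Measurable (qf u v f) := by
  have h1 : Measurable (fun z : (C2 × C2) × (ℝ × ℝ) =>
      f z.1.2 * f (z.1.2 + z.2.1 • v z.1.1 + z.2.2 • u (v z.1.1))) := by
    refine (hf.comp (measurable_snd.comp measurable_fst)).mul (hf.comp ?_)
    have : Continuous (fun z : (C2 × C2) × (ℝ × ℝ) =>
      z.1.2 + z.2.1 • v z.1.1 + z.2.2 • u (v z.1.1)) := by fun_prop
    exact this.measurable
  have h2 : Measurable (fun z : C2 × C2 => ∫⁻ p : ℝ × ℝ,
      f z.2 * f (z.2 + p.1 • v z.1 + p.2 • u (v z.1))) := h1.lintegral_prod_right'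
  exact h2.lintegral_prod_right'

end inner

/-- `qf` in adapted coordinates is the integral of the square of the marginal. -/
theorem E1_qf_eq (u v : C2 ≃ₗᵢ[ℝ] C2) (hu : ∀ x, u (u x) = -x) (hv : ∀ x, v (v x) = -x)
    (huv : ∀ x, u (v x) = -v (u x)) (f : C2 → ℝ≥0∞) (hf : Measurable f) (w : C2) (hw : w ≠ 0) :
    qf u v f w = ∫⁻ q : ℝ × ℝ, (∫⁻ p : ℝ × ℝ,
      f ((‖w‖ ^ 2)⁻¹ • (q.1 • w + q.2 • u w) + (p.1 • v w + p.2 • u (v w)))) ^ 2 := by
  have h1 : Measurable (fun z : C2 × (ℝ × ℝ) => f z.1 * f (z.1 + z.2.1 • v w + z.2.2 • u (v w))) := by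
    refine (hf.comp measurable_fst).mul (hf.comp ?_)
    have : Continuous (fun z : C2 × (ℝ × ℝ) => z.1 + z.2.1 • v w + z.2.2 • u (v w)) := by fun_prop
    exact this.measurable
  have h2 : Measurable (fun x : C2 => ∫⁻ p : ℝ × ℝ, f x * f (x + p.1 • v w + p.2 • u (v w))) :=
    h1.lintegral_prod_right'
  rw [qf, lintegral_coords u v hu hv huv w hw _ h2]
  refine lintegral_congr fun q => ?_
  set a : C2 := (‖w‖ ^ 2)⁻¹ • (q.1 • w + q.2 • u w) with ha
  have h3 : Measurable (fun p : ℝ × ℝ => f (a + (p.1 • v w + p.2 • u (v w)))) := by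
    apply hf.comp
    fun_prop
  rw [sq, ← lintegral_mul_const _ h3]
  refine lintegral_congr fun p => ?_
  have h4 : Measurable (fun p' : ℝ × ℝ =>
      f (a + (p.1 • v w + p.2 • u (v w)) + p'.1 • v w + p'.2 • u (v w))) := by
    apply hf.comp
    fun_prop
  rw [lintegral_const_mul _ h4]
  congr 1
  have h5 := lintegral_add_left_eq_self (μ := (volume : Measure (ℝ × ℝ)))
    (fun p' : ℝ × ℝ => f (a + (p'.1 • v w + p'.2 • u (v w)))) p
  rw [← h5]
  refine lintegral_congr fun p' => ?_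
  congr 1
  simp only [Prod.fst_add, Prod.snd_add]
  module

theorem sq_lintegral_le (u v : C2 ≃ₗᵢ[ℝ] C2) (hu : ∀ x, u (u x) = -x) (hv : ∀ x, v (v x) = -x)
    (huv : ∀ x, u (v x) = -v (u x)) (K : Set C2) (hK : IsCompact K) (f : C2 → ℝ≥0∞)
    (hf : Measurable f) (hfK : ∀ x, x ∉ K → f x = 0) (w : C2) (hw : w ≠ 0) :
    (∫⁻ x, f x) ^ 2 ≤ shad u K w * qf u v f w := by
  rw [E1_qf_eq u v hu hv huv f hf w hw, lintegral_coords u v hu hv huv w hw f hf]
  set F : ℝ × ℝ → ℝ≥0∞ := fun q => ∫⁻ p : ℝ × ℝ,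
      f ((‖w‖ ^ 2)⁻¹ • (q.1 • w + q.2 • u w) + (p.1 • v w + p.2 • u (v w))) with hF
  have hFm : Measurable F := by
    have : Measurable (fun z : (ℝ × ℝ) × (ℝ × ℝ) =>
      f ((‖w‖ ^ 2)⁻¹ • (z.1.1 • w + z.1.2 • u w) + (z.2.1 • v w + z.2.2 • u (v w)))) := by
      apply hf.comp
      fun_prop
    exact this.lintegral_prod_right'
  have hp : ‖w‖ ^ 2 ≠ 0 := pow_ne_zero _ (norm_ne_zero_iff.2 hw)
  set S : Set (ℝ × ℝ) := (fun x : C2 => ((inner ℝ x w : ℝ), (inner ℝ x (u w) : ℝ))) '' K with hS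
  have hSm : MeasurableSet S := by
    refine (hK.image ?_).measurableSet
    fun_prop
  have n1 : inner ℝ w w = ‖w‖ ^ 2 := real_inner_self_eq_norm_sq w
  have n2 : inner ℝ (u w) (u w) = ‖w‖ ^ 2 := by rw [u.inner_map_map, n1]
  have o12 : inner ℝ w (u w) = (0 : ℝ) := E1_self u hu w
  have o12' : inner ℝ (u w) w = (0 : ℝ) := by rw [real_inner_comm]; exact o12
  have o13 : inner ℝ (v w) w = (0 : ℝ) := by rw [real_inner_comm]; exact E1_self v hv w
  have o23 : inner ℝ (v w) (u w) = (0 : ℝ) := by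
    rw [real_inner_comm]; exact E1_uv u v hu hv huv w
  have o14 : inner ℝ (u (v w)) w = (0 : ℝ) := by
    rw [E1_skew u hu, real_inner_comm, E1_uv u v hu hv huv w, neg_zero]
  have o24 : inner ℝ (u (v w)) (u w) = (0 : ℝ) := by rw [u.inner_map_map, o13]
  have hF0 : ∀ q, q ∉ S → F q = 0 := by
    intro q hq
    simp only [hF]
    rw [lintegral_eq_zero_iff]
    · refine Eventually.of_forall fun p => ?_
      apply hfK
      intro hx
      apply hq
      refine ⟨_, hx, ?_⟩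
      ext
      · simp only [inner_add_left, inner_smul_left, n1, o12', o13, o14, RCLike.conj_to_real]
        field_simp
        ring
      · simp only [inner_add_left, inner_smul_left, n2, o12, o23, o24, RCLike.conj_to_real]
        field_simp
        ring
    · apply hf.comp
      fun_prop
  have h1 : ∫⁻ q, F q = ∫⁻ q, (S.indicator (1 : ℝ × ℝ → ℝ≥0∞) * F) q := by
    refine lintegral_congr fun q => ?_
    by_cases hq : q ∈ S
    · simp [hq]
    · simp [hq, hF0 q hq]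
  have h2 := ENNReal.lintegral_mul_le_Lp_mul_Lq (volume : Measure (ℝ × ℝ))
    (Real.HolderConjugate.two_two) (f := S.indicator (1 : ℝ × ℝ → ℝ≥0∞)) (g := F)
    ((measurable_const (a := (1 : ℝ≥0∞))).indicator hSm).aemeasurable hFm.aemeasurable
  rw [← h1] at h2
  have h3 : ∫⁻ q, (S.indicator (1 : ℝ × ℝ → ℝ≥0∞) q) ^ (2 : ℝ) = volume S := by
    rw [← lintegral_indicator_one hSm]
    refine lintegral_congr fun q => ?_
    by_cases hq : q ∈ S <;> simp [hq]
  have h4 : ∫⁻ q, F q ^ (2 : ℝ) = ∫⁻ q, F q ^ 2 := by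
    refine lintegral_congr fun q => ?_
    exact ENNReal.rpow_two _
  rw [h3, h4] at h2
  have h5 : (∫⁻ q, F q) ^ 2 ≤ (volume S ^ (1 / 2 : ℝ) * (∫⁻ q, F q ^ 2) ^ (1 / 2 : ℝ)) ^ 2 :=
    pow_le_pow_left' h2 2
  refine h5.trans (le_of_eq ?_)
  have h6 : (1 / 2 : ℝ) * 2 = 1 := by norm_num
  rw [mul_pow, ← ENNReal.rpow_two, ← ENNReal.rpow_two, ← ENNReal.rpow_mul, ← ENNReal.rpow_mul,
    h6, ENNReal.rpow_one, ENNReal.rpow_one]
  rfl

end Pool.Agent.Helper85.Cap
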