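import Pool.Agent.Helper85.Cap.Defs
/-!
Module E2: the change of variables in `∫ ‖w‖⁴ exp(-‖w‖²) qf u v f w`.
-/
set_option autoImplicit false
open MeasureTheory Metric Set
open scoped ENNReal
open Pool.Agent.Helper85.Herm

namespace Pool.Agent.Helper85.Cap

theorem E2_inner (u : C2 ≃ₗᵢ[ℝ] C2) (hu : ∀ x, u (u x) = -x) (y : C2) :
    (inner ℝ y (u y) : ℝ) = 0 := by
  have h1 : (inner ℝ (u y) (u (u y)) : ℝ) = inner ℝ y (u y) := u.inner_map_map y (u y)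
  rw [hu, inner_neg_right, real_inner_comm] at h1
  linarith

theorem E2_norm (u v : C2 ≃ₗᵢ[ℝ] C2) (hu : ∀ x, u (u x) = -x) (p : ℝ × ℝ) (w : C2) :
    ‖p.1 • v w + p.2 • u (v w)‖ = Real.sqrt (p.1 ^ 2 + p.2 ^ 2) * ‖w‖ := by
  have h1 : ‖p.1 • v w + p.2 • u (v w)‖ ^ 2 = (p.1 ^ 2 + p.2 ^ 2) * ‖w‖ ^ 2 := by
    rw [norm_add_sq_real, inner_smul_left, inner_smul_right, E2_inner u hu, norm_smul, norm_smul]
    simp only [mul_zero, add_zero, mul_pow, Real.norm_eq_abs, sq_abs, LinearIsometryEquiv.norm_map]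
    ring
  rw [← Real.sqrt_sq (norm_nonneg (p.1 • v w + p.2 • u (v w))), h1,
    Real.sqrt_mul (by positivity), Real.sqrt_sq (norm_nonneg w)]

theorem E2_iso (u v : C2 ≃ₗᵢ[ℝ] C2) (hu : ∀ x, u (u x) = -x) (p : ℝ × ℝ)
    (hp : 0 < p.1 ^ 2 + p.2 ^ 2) :
    ∃ L : C2 ≃ₗᵢ[ℝ] C2, ∀ w, p.1 • v w + p.2 • u (v w) = Real.sqrt (p.1 ^ 2 + p.2 ^ 2) • L w := by
  have hs : 0 < Real.sqrt (p.1 ^ 2 + p.2 ^ 2) := Real.sqrt_pos.2 hp
  let T : C2 →ₗ[ℝ] C2 := (Real.sqrt (p.1 ^ 2 + p.2 ^ 2))⁻¹ •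
    (p.1 • (v.toLinearEquiv : C2 →ₗ[ℝ] C2) +
      p.2 • ((u.toLinearEquiv : C2 →ₗ[ℝ] C2) ∘ₗ (v.toLinearEquiv : C2 →ₗ[ℝ] C2)))
  have hT : ∀ w, T w = (Real.sqrt (p.1 ^ 2 + p.2 ^ 2))⁻¹ • (p.1 • v w + p.2 • u (v w)) := by
    intro w
    rfl
  have hn : ∀ w, ‖T w‖ = ‖w‖ := by
    intro w
    rw [hT, norm_smul, E2_norm u v hu, Real.norm_of_nonneg (inv_nonneg.2 hs.le),
      inv_mul_cancel_left₀ hs.ne']
  refine ⟨(⟨T, hn⟩ : C2 →ₗᵢ[ℝ] C2).toLinearIsometryEquiv rfl, ?_⟩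
  intro w
  rw [LinearIsometry.toLinearIsometryEquiv_apply]
  change _ = _ • T w
  rw [hT, smul_inv_smul₀ hs.ne']

theorem E2_smul {E : Type*} [NormedAddCommGroup E] [NormedSpace ℝ E] [MeasurableSpace E]
    [BorelSpace E] [FiniteDimensional ℝ E] (μ : Measure E) [μ.IsAddHaarMeasure]
    (G : E → ℝ≥0∞) (hG : Measurable G) (r : ℝ) (hr : 0 < r) :
    ∫⁻ x, G (r • x) ∂μ = ENNReal.ofReal ((r ^ Module.finrank ℝ E)⁻¹) * ∫⁻ x, G x ∂μ := by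
  have h1 : ∫⁻ x, G (r • x) ∂μ = ∫⁻ y, G y ∂(Measure.map (fun x => r • x) μ) := by
    rw [lintegral_map hG (measurable_const_smul r)]
  rw [h1, Measure.map_addHaar_smul μ hr.ne', lintegral_smul_measure,
    abs_of_pos (inv_pos.2 (pow_pos hr _)), smul_eq_mul]

theorem E2_cv (u v : C2 ≃ₗᵢ[ℝ] C2) (hu : ∀ x, u (u x) = -x) (p : ℝ × ℝ)
    (hp : 0 < p.1 ^ 2 + p.2 ^ 2) (f : C2 → ℝ≥0∞) (hf : Measurable f) :
    ∫⁻ w : C2, ENNReal.ofReal (‖w‖ ^ 4 * Real.exp (-‖w‖ ^ 2)) * f (p.1 • v w + p.2 • u (v w)) =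
      ∫⁻ z : C2, ENNReal.ofReal (‖z‖ ^ 4 * ((p.1 ^ 2 + p.2 ^ 2) ^ 4)⁻¹ *
        Real.exp (-(‖z‖ ^ 2 / (p.1 ^ 2 + p.2 ^ 2)))) * f z := by
  obtain ⟨L, hL⟩ := E2_iso u v hu p hp
  set s := Real.sqrt (p.1 ^ 2 + p.2 ^ 2) with hsdef
  have hs : 0 < s := Real.sqrt_pos.2 hp
  have hs2 : s ^ 2 = p.1 ^ 2 + p.2 ^ 2 := Real.sq_sqrt hp.le
  rw [← hs2]
  let G : C2 → ℝ≥0∞ := fun z => ENNReal.ofReal (‖z‖ ^ 4 * (s ^ 4)⁻¹ *
    Real.exp (-(‖z‖ ^ 2 / s ^ 2))) * f z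
  have hG : Measurable G := by
    refine Measurable.mul ?_ hf
    fun_prop
  have h1 : ∀ w : C2, ENNReal.ofReal (‖w‖ ^ 4 * Real.exp (-‖w‖ ^ 2)) *
      f (p.1 • v w + p.2 • u (v w)) = G (s • L w) := by
    intro w
    simp only [G]
    rw [hL, norm_smul, LinearIsometryEquiv.norm_map, Real.norm_of_nonneg hs.le]
    congr 3
    · field_simp
    · congr 1
      field_simp
  simp_rw [h1]
  rw [L.measurePreserving.lintegral_comp (f := fun y => G (s • y))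
    (hG.comp (measurable_const_smul s)), E2_smul volume G hG s hs]
  rw [← lintegral_const_mul _ hG]
  refine lintegral_congr fun z => ?_
  simp only [G]
  rw [← mul_assoc, ← ENNReal.ofReal_mul (by positivity)]
  congr 2
  have : Module.finrank ℝ C2 = 4 := by simp
  rw [this]
  have h4 : (s ^ 2) ^ 4 = s ^ 4 * s ^ 4 := by ring
  rw [h4, mul_inv]
  ring

theorem E2_scale (r : ℝ) (hr : 0 < r) :
    ∫⁻ p : ℝ × ℝ, ENNReal.ofReal (r ^ 4 * ((p.1 ^ 2 + p.2 ^ 2) ^ 4)⁻¹ *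
      Real.exp (-(r ^ 2 / (p.1 ^ 2 + p.2 ^ 2)))) = kap * (ENNReal.ofReal (r ^ 2))⁻¹ := by
  let H : ℝ × ℝ → ℝ≥0∞ := fun p => ENNReal.ofReal (r ^ 4 * ((p.1 ^ 2 + p.2 ^ 2) ^ 4)⁻¹ *
      Real.exp (-(r ^ 2 / (p.1 ^ 2 + p.2 ^ 2))))
  have hH : Measurable H := by
    simp only [H]
    fun_prop
  have h1 := E2_smul (volume : Measure (ℝ × ℝ)) H hH r hr
  have h2 : ∀ p : ℝ × ℝ, H (r • p) = ENNReal.ofReal ((r ^ 4)⁻¹) *
      ENNReal.ofReal (((p.1 ^ 2 + p.2 ^ 2) ^ 4)⁻¹ * Real.exp (-(p.1 ^ 2 + p.2 ^ 2)⁻¹)) := by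
    intro p
    simp only [H, Prod.smul_fst, Prod.smul_snd, smul_eq_mul]
    rw [← ENNReal.ofReal_mul (by positivity)]
    congr 1
    have h3 : (r * p.1) ^ 2 + (r * p.2) ^ 2 = r ^ 2 * (p.1 ^ 2 + p.2 ^ 2) := by ring
    rw [h3]
    have h4 : r ^ 2 / (r ^ 2 * (p.1 ^ 2 + p.2 ^ 2)) = (p.1 ^ 2 + p.2 ^ 2)⁻¹ := by
      rw [← div_div, div_self (by positivity), one_div]
    rw [h4, mul_pow, mul_inv]
    have h5 : (r ^ 2) ^ 4 = r ^ 4 * r ^ 4 := by ring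
    rw [h5, mul_inv]
    have h6 : r ^ 4 * (r ^ 4)⁻¹ = 1 := mul_inv_cancel₀ (by positivity)
    linear_combination (r ^ 4)⁻¹ * ((p.1 ^ 2 + p.2 ^ 2) ^ 4)⁻¹ *
      Real.exp (-(p.1 ^ 2 + p.2 ^ 2)⁻¹) * h6
  simp_rw [h2] at h1
  rw [lintegral_const_mul _ (by fun_prop)] at h1
  have hfr : Module.finrank ℝ (ℝ × ℝ) = 2 := by simp
  rw [hfr] at h1
  change ENNReal.ofReal ((r ^ 4)⁻¹) * kap = _ at h1
  have h7 : ENNReal.ofReal (r ^ 2) * ENNReal.ofReal ((r ^ 2)⁻¹) = 1 := by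
    rw [← ENNReal.ofReal_mul (by positivity), mul_inv_cancel₀ (by positivity),
      ENNReal.ofReal_one]
  have h8 : (ENNReal.ofReal (r ^ 2))⁻¹ = ENNReal.ofReal ((r ^ 2)⁻¹) := by
    rw [ENNReal.ofReal_inv_of_pos (by positivity)]
  have h9 : ENNReal.ofReal ((r ^ 4)⁻¹) = ENNReal.ofReal ((r ^ 2)⁻¹) * ENNReal.ofReal ((r ^ 2)⁻¹) := by
    rw [← ENNReal.ofReal_mul (by positivity)]
    congr 1
    rw [← mul_inv]
    congr 1
    ring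
  calc ∫⁻ p : ℝ × ℝ, ENNReal.ofReal (r ^ 4 * ((p.1 ^ 2 + p.2 ^ 2) ^ 4)⁻¹ *
      Real.exp (-(r ^ 2 / (p.1 ^ 2 + p.2 ^ 2))))
      = (ENNReal.ofReal (r ^ 2) * ENNReal.ofReal ((r ^ 2)⁻¹)) * ∫⁻ p, H p := by
        rw [h7, one_mul]
    _ = ENNReal.ofReal (r ^ 2) * (ENNReal.ofReal ((r ^ 4)⁻¹) * kap) := by
        rw [mul_assoc, h1]
    _ = (ENNReal.ofReal (r ^ 2) * ENNReal.ofReal ((r ^ 2)⁻¹)) *
          (ENNReal.ofReal ((r ^ 2)⁻¹) * kap) := by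
        rw [h9]; ring
    _ = kap * (ENNReal.ofReal (r ^ 2))⁻¹ := by
        rw [h7, one_mul, h8, mul_comm]

/-! ### Module E2 -/
theorem lintegral_qf (u v : C2 ≃ₗᵢ[ℝ] C2) (hu : ∀ x, u (u x) = -x) (hv : ∀ x, v (v x) = -x)
    (huv : ∀ x, u (v x) = -v (u x)) (f : C2 → ℝ≥0∞) (hf : Measurable f) :
    ∫⁻ w : C2, ENNReal.ofReal (‖w‖ ^ 4 * Real.exp (-‖w‖ ^ 2)) * qf u v f w =
      kap * ∫⁻ x : C2, ∫⁻ y : C2, f x * (ENNReal.ofReal (‖x - y‖ ^ 2))⁻¹ * f y := by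
  have hum : Measurable u := u.continuous.measurable
  have hvm : Measurable v := v.continuous.measurable
  set W : C2 → ℝ≥0∞ := fun w => ENNReal.ofReal (‖w‖ ^ 4 * Real.exp (-‖w‖ ^ 2)) with hW
  have hWm : Measurable W := by rw [hW]; fun_prop
  have hF : Measurable (fun q : (C2 × C2) × (ℝ × ℝ) =>
      f q.1.2 * f (q.1.2 + q.2.1 • v q.1.1 + q.2.2 • u (v q.1.1))) := by
    fun_prop
  have hF' : ∀ w x : C2, Measurable (fun p : ℝ × ℝ =>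
      f x * f (x + p.1 • v w + p.2 • u (v w))) := by
    intro w x; fun_prop
  -- step 1
  have h1 : ∀ w : C2, W w * qf u v f w = ∫⁻ x : C2, ∫⁻ p : ℝ × ℝ,
      W w * (f x * f (x + p.1 • v w + p.2 • u (v w))) := by
    intro w
    rw [qf, ← lintegral_const_mul]
    · refine lintegral_congr fun x => ?_
      rw [lintegral_const_mul _ (hF' w x)]
    · exact Measurable.lintegral_prod_right' (f := fun q : C2 × (ℝ × ℝ) =>
        f q.1 * f (q.1 + q.2.1 • v w + q.2.2 • u (v w))) (by fun_prop)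
  have h2 : ∫⁻ w : C2, W w * qf u v f w = ∫⁻ x : C2, ∫⁻ w : C2, ∫⁻ p : ℝ × ℝ,
      W w * (f x * f (x + p.1 • v w + p.2 • u (v w))) := by
    simp_rw [h1]
    rw [lintegral_lintegral_swap]
    refine Measurable.aemeasurable ?_
    exact Measurable.lintegral_prod_right' (f := fun q : (C2 × C2) × (ℝ × ℝ) =>
      W q.1.1 * (f q.1.2 * f (q.1.2 + q.2.1 • v q.1.1 + q.2.2 • u (v q.1.1)))) (by fun_prop)
  have h3 : ∀ x : C2, ∫⁻ w : C2, ∫⁻ p : ℝ × ℝ,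
      W w * (f x * f (x + p.1 • v w + p.2 • u (v w))) =
      ∫⁻ p : ℝ × ℝ, ∫⁻ w : C2, W w * (f x * f (x + p.1 • v w + p.2 • u (v w))) := by
    intro x
    rw [lintegral_lintegral_swap]
    refine Measurable.aemeasurable ?_
    fun_prop
  have h4 : ∀ x : C2, ∫⁻ p : ℝ × ℝ, ∫⁻ w : C2, W w * (f x * f (x + p.1 • v w + p.2 • u (v w))) =
      ∫⁻ p : ℝ × ℝ, ∫⁻ z : C2, f x * (ENNReal.ofReal (‖z‖ ^ 4 * ((p.1 ^ 2 + p.2 ^ 2) ^ 4)⁻¹ *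
        Real.exp (-(‖z‖ ^ 2 / (p.1 ^ 2 + p.2 ^ 2)))) * f (x + z)) := by
    intro x
    refine lintegral_congr_ae ?_
    have h0 : ∀ᵐ p : ℝ × ℝ, p ≠ 0 := by
      exact compl_mem_ae_iff.2 (measure_singleton (0 : ℝ × ℝ))
    filter_upwards [h0] with p hp
    have hp' : 0 < p.1 ^ 2 + p.2 ^ 2 := by
      rcases eq_or_ne p.1 0 with h | h
      · have : p.2 ≠ 0 := by
          intro h'
          exact hp (Prod.ext h h')
        positivity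
      · positivity
    have h5 := E2_cv u v hu p hp' (fun z => f (x + z)) (by fun_prop)
    have h6 : ∀ w : C2, W w * (f x * f (x + p.1 • v w + p.2 • u (v w))) =
        f x * (ENNReal.ofReal (‖w‖ ^ 4 * Real.exp (-‖w‖ ^ 2)) *
          (fun z => f (x + z)) (p.1 • v w + p.2 • u (v w))) := by
      intro w
      simp only [hW, add_assoc]
      ring
    simp_rw [h6]
    rw [lintegral_const_mul _ (by fun_prop), h5, lintegral_const_mul _ (by fun_prop)]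
  have h5 : ∀ x : C2, ∫⁻ p : ℝ × ℝ, ∫⁻ z : C2, f x * (ENNReal.ofReal (‖z‖ ^ 4 *
        ((p.1 ^ 2 + p.2 ^ 2) ^ 4)⁻¹ * Real.exp (-(‖z‖ ^ 2 / (p.1 ^ 2 + p.2 ^ 2)))) * f (x + z)) =
      ∫⁻ z : C2, ∫⁻ p : ℝ × ℝ, f x * (ENNReal.ofReal (‖z‖ ^ 4 *
        ((p.1 ^ 2 + p.2 ^ 2) ^ 4)⁻¹ * Real.exp (-(‖z‖ ^ 2 / (p.1 ^ 2 + p.2 ^ 2)))) * f (x + z)) := by
    intro x
    rw [lintegral_lintegral_swap]
    refine Measurable.aemeasurable ?_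
    fun_prop
  have h6 : ∀ x : C2, ∫⁻ z : C2, ∫⁻ p : ℝ × ℝ, f x * (ENNReal.ofReal (‖z‖ ^ 4 *
        ((p.1 ^ 2 + p.2 ^ 2) ^ 4)⁻¹ * Real.exp (-(‖z‖ ^ 2 / (p.1 ^ 2 + p.2 ^ 2)))) * f (x + z)) =
      ∫⁻ z : C2, kap * (f x * (ENNReal.ofReal (‖z‖ ^ 2))⁻¹ * f (x + z)) := by
    intro x
    refine lintegral_congr_ae ?_
    have h0 : ∀ᵐ z : C2, z ≠ 0 := by
      exact compl_mem_ae_iff.2 (measure_singleton (0 : C2))
    filter_upwards [h0] with z hz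
    rw [lintegral_const_mul _ (by fun_prop), lintegral_mul_const _ (by fun_prop),
      E2_scale ‖z‖ (norm_pos_iff.2 hz)]
    ring
  rw [h2]
  simp_rw [h3, h4, h5, h6]
  have h7 : ∀ x : C2, ∫⁻ z : C2, kap * (f x * (ENNReal.ofReal (‖z‖ ^ 2))⁻¹ * f (x + z)) =
      kap * ∫⁻ y : C2, f x * (ENNReal.ofReal (‖x - y‖ ^ 2))⁻¹ * f y := by
    intro x
    rw [lintegral_const_mul _ (by fun_prop)]
    congr 1
    rw [← lintegral_add_left_eq_self (μ := (volume : Measure C2))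
      (fun y => f x * (ENNReal.ofReal (‖x - y‖ ^ 2))⁻¹ * f y) x]
    refine lintegral_congr fun z => ?_
    rw [sub_add_cancel_left, norm_neg]
  simp_rw [h7]
  rw [lintegral_const_mul]
  exact Measurable.lintegral_prod_right' (f := fun q : C2 × C2 =>
    f q.1 * (ENNReal.ofReal (‖q.1 - q.2‖ ^ 2))⁻¹ * f q.2) (by fun_prop)

end Pool.Agent.Helper85.Cap
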