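import Pool.Agent.Helper85.Cap.E1

/-!
Module F of MP_14a161_gt (helper94 for helper85): thin spherical shells and a Gaussian moment.
-/
set_option autoImplicit false
set_option linter.unusedSectionVars false
open MeasureTheory Metric Set Filter Topology
open scoped ENNReal
open Pool.Agent.Helper85.Herm

namespace Pool.Agent.Helper85.Cap

theorem F_ball (r : ℝ) (hr : 0 ≤ r) :
    volume (ball (0 : C2) r) = ENNReal.ofReal (Real.pi ^ 2 / 2 * r ^ 4) := by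
  rw [InnerProductSpace.volume_ball_of_dim_even (k := 2) (by simp) (0 : C2) r]
  have h1 : Module.finrank ℝ C2 = 4 := by simp
  rw [h1, ← ENNReal.ofReal_pow hr, ← ENNReal.ofReal_mul (by positivity)]
  congr 1
  norm_num
  ring

theorem F_shell_set (r η : ℝ) (hr : 0 < r) (hη1 : η < 1) :
    {x : C2 | r ^ 2 * (1 - η) ≤ ‖x‖ ^ 2 ∧ ‖x‖ ^ 2 < r ^ 2} =
      ball 0 r \ ball 0 (r * Real.sqrt (1 - η)) := by
  ext x
  have h1 : 0 ≤ 1 - η := by linarith
  have h2 : (r * Real.sqrt (1 - η)) ^ 2 = r ^ 2 * (1 - η) := by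
    rw [mul_pow, Real.sq_sqrt h1]
  simp only [Set.mem_ofPred_eq, Set.mem_sdiff, mem_ball, dist_zero_right, not_lt]
  rw [← h2, sq_le_sq₀ (by positivity) (norm_nonneg _), sq_lt_sq₀ (norm_nonneg _) hr.le]
  exact and_comm

theorem F_shell_meas (r η : ℝ) :
    MeasurableSet {x : C2 | r ^ 2 * (1 - η) ≤ ‖x‖ ^ 2 ∧ ‖x‖ ^ 2 < r ^ 2} := by
  have h1 : Measurable (fun x : C2 => ‖x‖ ^ 2) := by fun_prop
  exact (measurableSet_le measurable_const h1).inter (measurableSet_lt h1 measurable_const)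

theorem F_shell_measurable (r η : ℝ) : Measurable (shell r η) :=
  (measurable_const (a := (1 : ℝ≥0∞))).indicator (F_shell_meas r η)

theorem shell_mass (r η : ℝ) (hr : 0 < r) (hη : 0 < η) (hη1 : η < 1) :
    ∫⁻ x, shell r η x = ENNReal.ofReal (Real.pi ^ 2 * r ^ 4 * (η - η ^ 2 / 2)) := by
  unfold shell
  rw [lintegral_indicator_one (F_shell_meas r η), F_shell_set r η hr hη1]
  have h1 : 0 ≤ 1 - η := by linarith
  have hs : Real.sqrt (1 - η) ≤ 1 := Real.sqrt_le_one.2 (by linarith)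
  rw [measure_sdiff (ball_subset_ball (by nlinarith)) measurableSet_ball.nullMeasurableSet
    measure_ball_lt_top.ne, F_ball r hr.le, F_ball _ (by positivity), ← ENNReal.ofReal_sub _
    (by positivity)]
  congr 1
  have h4 : (r * Real.sqrt (1 - η)) ^ 4 = r ^ 4 * (1 - η) ^ 2 := by
    have : Real.sqrt (1 - η) ^ 4 = (Real.sqrt (1 - η) ^ 2) ^ 2 := by ring
    rw [mul_pow, this, Real.sq_sqrt h1]
  rw [h4]
  ring

/-- area of a disc -/
theorem F_disc (s : ℝ) : volume {p : ℝ × ℝ | p.1 ^ 2 + p.2 ^ 2 < s} =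
    ENNReal.ofReal (Real.pi * s) := by
  rcases le_or_gt s 0 with hs | hs
  · have h1 : {p : ℝ × ℝ | p.1 ^ 2 + p.2 ^ 2 < s} = ∅ := by
      ext p
      simp only [Set.mem_ofPred_eq, mem_empty_iff_false, iff_false, not_lt]
      exact hs.trans (by positivity)
    rw [h1, measure_empty, ENNReal.ofReal_of_nonpos]
    exact mul_nonpos_of_nonneg_of_nonpos Real.pi_pos.le hs
  · have hm : MeasurableSet {p : ℝ × ℝ | p.1 ^ 2 + p.2 ^ 2 < s} :=
      measurableSet_lt (by fun_prop) measurable_const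
    rw [← Complex.volume_preserving_equiv_real_prod.measure_preimage hm.nullMeasurableSet]
    have h1 : Complex.measurableEquivRealProd ⁻¹' {p : ℝ × ℝ | p.1 ^ 2 + p.2 ^ 2 < s} =
        ball (0 : ℂ) (Real.sqrt s) := by
      ext z
      simp only [mem_preimage, Set.mem_ofPred_eq, mem_ball, dist_zero_right,
        Complex.measurableEquivRealProd_apply]
      rw [Real.lt_sqrt (norm_nonneg _), Complex.sq_norm, Complex.normSq_apply]
      constructor <;> intro h <;> nlinarith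
    rw [h1, Complex.volume_ball, ← ENNReal.ofReal_pow (Real.sqrt_nonneg _), Real.sq_sqrt hs.le]
    rw [ENNReal.ofReal_mul Real.pi_pos.le, mul_comm]
    congr 1
    exact (ENNReal.ofReal_coe_nnreal (p := NNReal.pi)).symm

/-- area of an annulus -/
theorem F_annulus (a b : ℝ) (hab : a ≤ b) :
    volume {p : ℝ × ℝ | a ≤ p.1 ^ 2 + p.2 ^ 2 ∧ p.1 ^ 2 + p.2 ^ 2 < b} ≤
      ENNReal.ofReal (Real.pi * (b - a)) := by
  have hm : ∀ s : ℝ, MeasurableSet {p : ℝ × ℝ | p.1 ^ 2 + p.2 ^ 2 < s} := fun s =>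
    measurableSet_lt (by fun_prop) measurable_const
  rcases le_or_gt a 0 with ha | ha
  · have h1 : {p : ℝ × ℝ | a ≤ p.1 ^ 2 + p.2 ^ 2 ∧ p.1 ^ 2 + p.2 ^ 2 < b} ⊆
        {p : ℝ × ℝ | p.1 ^ 2 + p.2 ^ 2 < b} := fun p hp => hp.2
    refine (measure_mono h1).trans ?_
    rw [F_disc]
    apply ENNReal.ofReal_le_ofReal
    apply mul_le_mul_of_nonneg_left _ Real.pi_pos.le
    linarith
  · have h1 : {p : ℝ × ℝ | a ≤ p.1 ^ 2 + p.2 ^ 2 ∧ p.1 ^ 2 + p.2 ^ 2 < b} =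
        {p : ℝ × ℝ | p.1 ^ 2 + p.2 ^ 2 < b} \ {p : ℝ × ℝ | p.1 ^ 2 + p.2 ^ 2 < a} := by
      ext p
      simp only [Set.mem_ofPred_eq, Set.mem_sdiff, not_lt]
      exact and_comm
    have h2 : {p : ℝ × ℝ | p.1 ^ 2 + p.2 ^ 2 < a} ⊆ {p : ℝ × ℝ | p.1 ^ 2 + p.2 ^ 2 < b} :=
      fun p hp => lt_of_lt_of_le hp hab
    rw [h1, measure_sdiff h2 (hm a).nullMeasurableSet (by rw [F_disc]; exact ENNReal.ofReal_ne_top),
      F_disc, F_disc, ← ENNReal.ofReal_sub _ (by positivity)]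
    apply ENNReal.ofReal_le_ofReal
    linarith [mul_sub Real.pi b a]

theorem F_norm_sq (u v : C2 ≃ₗᵢ[ℝ] C2) (hu : ∀ x, u (u x) = -x) (hv : ∀ x, v (v x) = -x)
    (huv : ∀ x, u (v x) = -v (u x)) (w : C2) (hw : w ≠ 0) (q p : ℝ × ℝ) :
    ‖(‖w‖ ^ 2)⁻¹ • (q.1 • w + q.2 • u w) + (p.1 • v w + p.2 • u (v w))‖ ^ 2 =
      (q.1 ^ 2 + q.2 ^ 2) / ‖w‖ ^ 2 + ‖w‖ ^ 2 * (p.1 ^ 2 + p.2 ^ 2) := by
  have hp : ‖w‖ ^ 2 ≠ 0 := pow_ne_zero _ (norm_ne_zero_iff.2 hw)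
  have n1 : inner ℝ w w = ‖w‖ ^ 2 := real_inner_self_eq_norm_sq w
  have n2 : inner ℝ (u w) (u w) = ‖w‖ ^ 2 := by rw [u.inner_map_map, n1]
  have n3 : inner ℝ (v w) (v w) = ‖w‖ ^ 2 := by rw [v.inner_map_map, n1]
  have n4 : inner ℝ (u (v w)) (u (v w)) = ‖w‖ ^ 2 := by rw [u.inner_map_map, n3]
  have o12 : inner ℝ w (u w) = (0 : ℝ) := E1_self u hu w
  have o13 : inner ℝ w (v w) = (0 : ℝ) := E1_self v hv w
  have o23 : inner ℝ (u w) (v w) = (0 : ℝ) := E1_uv u v hu hv huv w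
  have o14 : inner ℝ w (u (v w)) = (0 : ℝ) := by
    have := E1_skew u hu w (v w); linarith
  have o24 : inner ℝ (u w) (u (v w)) = (0 : ℝ) := by rw [u.inner_map_map, o13]
  have o34 : inner ℝ (v w) (u (v w)) = (0 : ℝ) := E1_self u hu (v w)
  have o21 : inner ℝ (u w) w = (0 : ℝ) := by rw [real_inner_comm]; exact o12
  have o31 : inner ℝ (v w) w = (0 : ℝ) := by rw [real_inner_comm]; exact o13
  have o32 : inner ℝ (v w) (u w) = (0 : ℝ) := by rw [real_inner_comm]; exact o23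
  have o41 : inner ℝ (u (v w)) w = (0 : ℝ) := by rw [real_inner_comm]; exact o14
  have o42 : inner ℝ (u (v w)) (u w) = (0 : ℝ) := by rw [real_inner_comm]; exact o24
  have o43 : inner ℝ (u (v w)) (v w) = (0 : ℝ) := by rw [real_inner_comm]; exact o34
  rw [← real_inner_self_eq_norm_sq]
  simp only [inner_add_left, inner_add_right, inner_smul_left, inner_smul_right, n1, n2, n3, n4,
    o12, o13, o14, o23, o24, o34, o21, o31, o41, o32, o42, o43, RCLike.conj_to_real]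
  field_simp
  ring

theorem shell_qf (u v : C2 ≃ₗᵢ[ℝ] C2) (hu : ∀ x, u (u x) = -x) (hv : ∀ x, v (v x) = -x)
    (huv : ∀ x, u (v x) = -v (u x)) (r η : ℝ) (hr : 0 < r) (hη : 0 < η) (hη1 : η < 1)
    (w : C2) (hw : w ≠ 0) :
    qf u v (shell r η) w ≤ ENNReal.ofReal (Real.pi ^ 3 * r ^ 6 * η ^ 2 / ‖w‖ ^ 2) := by
  have _ := hη1
  rw [E1_qf_eq u v hu hv huv _ (F_shell_measurable r η) w hw]
  have ht : 0 < ‖w‖ := norm_pos_iff.2 hw
  set t := ‖w‖ with ht'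
  set S : Set (ℝ × ℝ) := {q | q.1 ^ 2 + q.2 ^ 2 < r ^ 2 * t ^ 2} with hS
  have hSm : MeasurableSet S := measurableSet_lt (by fun_prop) measurable_const
  have key : ∀ q : ℝ × ℝ, (∫⁻ p : ℝ × ℝ, shell r η ((t ^ 2)⁻¹ • (q.1 • w + q.2 • u w) +
      (p.1 • v w + p.2 • u (v w)))) ^ 2 ≤
      S.indicator (fun _ => ENNReal.ofReal (Real.pi * (r ^ 2 * η / t ^ 2)) ^ 2) q := by
    intro q
    have e1 : ∀ p : ℝ × ℝ, shell r η ((t ^ 2)⁻¹ • (q.1 • w + q.2 • u w) +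
        (p.1 • v w + p.2 • u (v w))) =
        {p : ℝ × ℝ | (r ^ 2 * (1 - η) - (q.1 ^ 2 + q.2 ^ 2) / t ^ 2) / t ^ 2 ≤
          p.1 ^ 2 + p.2 ^ 2 ∧ p.1 ^ 2 + p.2 ^ 2 <
            (r ^ 2 - (q.1 ^ 2 + q.2 ^ 2) / t ^ 2) / t ^ 2}.indicator 1 p := by
      intro p
      have hn := F_norm_sq u v hu hv huv w hw q p
      have ht2 : 0 < t ^ 2 := by positivity
      have e2 : ((t ^ 2)⁻¹ • (q.1 • w + q.2 • u w) + (p.1 • v w + p.2 • u (v w)) ∈
          {x : C2 | r ^ 2 * (1 - η) ≤ ‖x‖ ^ 2 ∧ ‖x‖ ^ 2 < r ^ 2}) ↔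
          p ∈ {p : ℝ × ℝ | (r ^ 2 * (1 - η) - (q.1 ^ 2 + q.2 ^ 2) / t ^ 2) / t ^ 2 ≤
          p.1 ^ 2 + p.2 ^ 2 ∧ p.1 ^ 2 + p.2 ^ 2 <
            (r ^ 2 - (q.1 ^ 2 + q.2 ^ 2) / t ^ 2) / t ^ 2} := by
        simp only [Set.mem_ofPred_eq]
        rw [hn, div_le_iff₀ ht2, lt_div_iff₀ ht2]
        constructor <;> rintro ⟨h1, h2⟩ <;> constructor <;> nlinarith
      unfold shell
      by_cases hp : p ∈ {p : ℝ × ℝ | (r ^ 2 * (1 - η) - (q.1 ^ 2 + q.2 ^ 2) / t ^ 2) / t ^ 2 ≤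
          p.1 ^ 2 + p.2 ^ 2 ∧ p.1 ^ 2 + p.2 ^ 2 <
            (r ^ 2 - (q.1 ^ 2 + q.2 ^ 2) / t ^ 2) / t ^ 2}
      · rw [indicator_of_mem (e2.2 hp), indicator_of_mem hp]
        rfl
      · rw [indicator_of_notMem (fun h => hp (e2.1 h)), indicator_of_notMem hp]
    have hq0 : 0 ≤ q.1 ^ 2 + q.2 ^ 2 := by positivity
    have hAm : MeasurableSet {p : ℝ × ℝ |
        (r ^ 2 * (1 - η) - (q.1 ^ 2 + q.2 ^ 2) / t ^ 2) / t ^ 2 ≤
          p.1 ^ 2 + p.2 ^ 2 ∧ p.1 ^ 2 + p.2 ^ 2 <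
            (r ^ 2 - (q.1 ^ 2 + q.2 ^ 2) / t ^ 2) / t ^ 2} := by
      have hpm : Measurable (fun p : ℝ × ℝ => p.1 ^ 2 + p.2 ^ 2) := by fun_prop
      exact (measurableSet_le measurable_const hpm).inter (measurableSet_lt hpm measurable_const)
    simp only [e1]
    rw [lintegral_indicator_one hAm]
    by_cases hq : q ∈ S
    · rw [indicator_of_mem hq]
      refine pow_le_pow_left' ?_ 2
      refine (F_annulus _ _ ?_).trans (ENNReal.ofReal_le_ofReal ?_)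
      · apply div_le_div_of_nonneg_right _ (by positivity)
        nlinarith [mul_pos (pow_pos hr 2) hη]
      · apply mul_le_mul_of_nonneg_left _ Real.pi_pos.le
        rw [← sub_div]
        apply div_le_div_of_nonneg_right _ (by positivity)
        linarith
    · rw [indicator_of_notMem hq]
      have hempty : {p : ℝ × ℝ |
        (r ^ 2 * (1 - η) - (q.1 ^ 2 + q.2 ^ 2) / t ^ 2) / t ^ 2 ≤
          p.1 ^ 2 + p.2 ^ 2 ∧ p.1 ^ 2 + p.2 ^ 2 <
            (r ^ 2 - (q.1 ^ 2 + q.2 ^ 2) / t ^ 2) / t ^ 2} = ∅ := by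
        ext p
        simp only [Set.mem_ofPred_eq, mem_empty_iff_false, iff_false, not_and, not_lt]
        intro _
        have hq' : r ^ 2 * t ^ 2 ≤ q.1 ^ 2 + q.2 ^ 2 := not_lt.1 hq
        have h3 : r ^ 2 ≤ (q.1 ^ 2 + q.2 ^ 2) / t ^ 2 := by
          rw [le_div_iff₀ (by positivity)]; exact hq'
        have h4 : (r ^ 2 - (q.1 ^ 2 + q.2 ^ 2) / t ^ 2) / t ^ 2 ≤ 0 :=
          div_nonpos_of_nonpos_of_nonneg (by linarith) (by positivity)
        exact h4.trans (by positivity)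
      rw [hempty, measure_empty]
      simp
  refine (lintegral_mono key).trans ?_
  rw [lintegral_indicator hSm, setLIntegral_const, hS, F_disc,
    ← ENNReal.ofReal_pow (by positivity), ← ENNReal.ofReal_mul (by positivity)]
  apply ENNReal.ofReal_le_ofReal
  apply le_of_eq
  field_simp

theorem gauss_moment : ∫⁻ w : C2, ENNReal.ofReal (‖w‖ ^ 2 * Real.exp (-‖w‖ ^ 2)) =
    ENNReal.ofReal (2 * Real.pi ^ 2) := by
  have hdim : Module.finrank ℝ C2 = 4 := by simp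
  have e1 : ∀ y ∈ Ioi (0 : ℝ), y ^ (Module.finrank ℝ C2 - 1) • (y ^ 2 * Real.exp (-y ^ 2)) =
      y ^ (5 : ℝ) * Real.exp (-y ^ (2 : ℝ)) := by
    intro y hy
    rw [hdim, smul_eq_mul, Real.rpow_two, show (5 : ℝ) = ((5 : ℕ) : ℝ) by norm_num,
      Real.rpow_natCast]
    ring
  have hi : Integrable (fun w : C2 => ‖w‖ ^ 2 * Real.exp (-‖w‖ ^ 2)) := by
    rw [integrable_fun_norm_addHaar (volume : Measure C2)
      (f := fun y : ℝ => y ^ 2 * Real.exp (-y ^ 2))]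
    rw [integrableOn_congr_fun e1 measurableSet_Ioi]
    exact integrableOn_rpow_mul_exp_neg_rpow (by norm_num) (by norm_num)
  rw [← ofReal_integral_eq_lintegral_ofReal hi (Eventually.of_forall fun w => by positivity)]
  congr 1
  rw [integral_fun_norm_addHaar (volume : Measure C2) (fun y : ℝ => y ^ 2 * Real.exp (-y ^ 2)),
    setIntegral_congr_fun measurableSet_Ioi e1, integral_rpow_mul_exp_neg_rpow (by norm_num)
      (by norm_num), hdim]
  have h1 : (volume : Measure C2).real (ball 0 1) = Real.pi ^ 2 / 2 := by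
    rw [measureReal_def, F_ball 1 zero_le_one, ENNReal.toReal_ofReal (by positivity)]
    ring
  have h2 : Real.Gamma ((5 + 1) / 2) = 2 := by
    rw [show ((5 : ℝ) + 1) / 2 = (2 : ℕ) + 1 by norm_num, Real.Gamma_nat_eq_factorial]
    norm_num
  rw [h1, h2]
  simp only [nsmul_eq_mul, smul_eq_mul]
  norm_num
  ring

end Pool.Agent.Helper85.Cap
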