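import Pool.Agent.Helper85.Cap.D3
import Pool.Agent.Helper85.Cap.A
import Pool.Agent.Helper85.Cap.B
import Pool.Agent.Helper85.Cap.C
import Pool.Agent.Helper85.Cap.E1
import Pool.Agent.Helper85.Cap.E2
import Pool.Agent.Helper85.Cap.F

/-!
Assembly, part 1: the potential theoretic input.
-/
set_option autoImplicit false
open MeasureTheory Metric Set
open scoped ENNReal
open Pool.Agent.Helper85.Herm

namespace Pool.Agent.Helper85.Cap

/-- `u = g + (lam - μ) R_μ g` -/
noncomputable def green (lam μ : ℝ) (g : C2 → ℝ≥0∞) (x : C2) : ℝ≥0∞ :=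
  g x + ENNReal.ofReal (lam - μ) * ∫⁻ y, res μ ‖x - y‖ * g y

theorem G_meas_res (μ : ℝ) : Measurable (fun z : C2 × C2 => res μ ‖z.1 - z.2‖) :=
  (res_measurable μ).comp (measurable_fst.sub measurable_snd).norm

theorem G_meas_res' (μ : ℝ) (x : C2) : Measurable (fun y : C2 => res μ ‖x - y‖) :=
  (res_measurable μ).comp (measurable_const.sub measurable_id).norm

theorem G_meas_int (μ : ℝ) (g : C2 → ℝ≥0∞) (hg : Measurable g) :
    Measurable (fun x : C2 => ∫⁻ y, res μ ‖x - y‖ * g y) := by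
  have : Measurable (fun z : C2 × C2 => res μ ‖z.1 - z.2‖ * g z.2) :=
    (G_meas_res μ).mul (hg.comp measurable_snd)
  exact this.lintegral_prod_right'

theorem green_measurable (lam μ : ℝ) (g : C2 → ℝ≥0∞) (hg : Measurable g) :
    Measurable (green lam μ g) :=
  hg.add ((G_meas_int μ g hg).const_mul _)

theorem G_res_mass (μ : ℝ) (hμ : 0 < μ) (x : C2) :
    ∫⁻ y : C2, res μ ‖x - y‖ = (ENNReal.ofReal μ)⁻¹ := by
  rw [← res_mass μ hμ]
  exact lintegral_sub_left_eq_self (fun y : C2 => res μ ‖y‖) x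

/-- the kernel identity `R_λ g + (λ-μ) R_λ R_μ g = R_μ g` -/
theorem G_kernel (lam μ : ℝ) (hμ : 0 < μ) (hl : μ ≤ lam) (g : C2 → ℝ≥0∞) (hg : Measurable g)
    (x : C2) : ∫⁻ y, res lam ‖x - y‖ * green lam μ g y = ∫⁻ y, res μ ‖x - y‖ * g y := by
  unfold green
  have m1 : Measurable (fun y : C2 => res lam ‖x - y‖ * g y) := (G_meas_res' lam x).mul hg
  have e1 : ∫⁻ y, res lam ‖x - y‖ * (g y + ENNReal.ofReal (lam - μ) * ∫⁻ z, res μ ‖y - z‖ * g z) =
      (∫⁻ y, res lam ‖x - y‖ * g y) +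
        ∫⁻ y, ∫⁻ z, ENNReal.ofReal (lam - μ) * (res lam ‖x - y‖ * (res μ ‖y - z‖ * g z)) := by
    rw [← lintegral_add_left m1]
    refine lintegral_congr fun y => ?_
    have m2 : Measurable (fun z : C2 => res μ ‖y - z‖ * g z) := (G_meas_res' μ y).mul hg
    rw [lintegral_const_mul _ (m2.const_mul _), lintegral_const_mul _ m2]
    ring
  have m3 : Measurable (fun p : C2 × C2 =>
      ENNReal.ofReal (lam - μ) * (res lam ‖x - p.1‖ * (res μ ‖p.1 - p.2‖ * g p.2))) :=
    (((G_meas_res' lam x).comp measurable_fst).mul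
      ((G_meas_res μ).mul (hg.comp measurable_snd))).const_mul _
  have e2 : ∫⁻ y : C2, ∫⁻ z, ENNReal.ofReal (lam - μ) * (res lam ‖x - y‖ * (res μ ‖y - z‖ * g z)) =
      ∫⁻ z, (ENNReal.ofReal (lam - μ) * ∫⁻ y, res lam ‖x - z - y‖ * res μ ‖y‖) * g z := by
    rw [lintegral_lintegral_swap m3.aemeasurable]
    refine lintegral_congr fun z => ?_
    have m4 : Measurable (fun y : C2 => res lam ‖x - z - y‖ * res μ ‖y‖) :=
      (G_meas_res' lam (x - z)).mul ((res_measurable μ).comp measurable_norm)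
    rw [← lintegral_const_mul _ m4, ← lintegral_mul_const _ (m4.const_mul _)]
    rw [← lintegral_add_right_eq_self _ z]
    refine lintegral_congr fun y => ?_
    have h1 : x - (y + z) = x - z - y := by abel
    have h2 : y + z - z = y := by abel
    rw [h1, h2]; ring
  rw [e1, e2, ← lintegral_add_left m1]
  refine lintegral_congr fun z => ?_
  rw [res_identity lam μ hμ hl (x - z)]
  ring

theorem green_eq (lam μ : ℝ) (hμ : 0 < μ) (hl : μ < lam) (g : C2 → ℝ≥0∞) (hg : Measurable g)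
    (x : C2) : green lam μ g x = g x + ENNReal.ofReal ((lam - μ) / lam) *
      ∫⁻ y, (ENNReal.ofReal lam * res lam ‖x - y‖) * green lam μ g y := by
  have hlam : 0 < lam := hμ.trans hl
  have e : ∫⁻ y, (ENNReal.ofReal lam * res lam ‖x - y‖) * green lam μ g y =
      ENNReal.ofReal lam * ∫⁻ y, res μ ‖x - y‖ * g y := by
    have m : Measurable (fun y : C2 => res lam ‖x - y‖ * green lam μ g y) :=
      (G_meas_res' lam x).mul (green_measurable lam μ g hg)
    rw [← G_kernel lam μ hμ hl.le g hg x, ← lintegral_const_mul _ m]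
    refine lintegral_congr fun y => by ring
  rw [e, ← mul_assoc, ← ENNReal.ofReal_mul (by
    apply div_nonneg <;> linarith), div_mul_cancel₀ _ hlam.ne']
  rfl

theorem green_le (lam μ : ℝ) (hμ : 0 < μ) (hl : μ < lam) (g : C2 → ℝ≥0∞)
    (hg1 : ∀ x, g x ≤ 1) (x : C2) : green lam μ g x ≤ (Real.toNNReal (lam / μ) : ℝ≥0∞) := by
  have h1 : ∫⁻ y, res μ ‖x - y‖ * g y ≤ (ENNReal.ofReal μ)⁻¹ := by
    rw [← G_res_mass μ hμ x]
    refine lintegral_mono fun y => ?_
    calc res μ ‖x - y‖ * g y ≤ res μ ‖x - y‖ * 1 := mul_le_mul' le_rfl (hg1 y)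
      _ = _ := mul_one _
  calc green lam μ g x ≤ 1 + ENNReal.ofReal (lam - μ) * (ENNReal.ofReal μ)⁻¹ :=
        add_le_add (hg1 x) (mul_le_mul' le_rfl h1)
    _ = (Real.toNNReal (lam / μ) : ℝ≥0∞) := by
        rw [← ENNReal.ofReal_inv_of_pos hμ, ← ENNReal.ofReal_mul (by linarith),
          ← ENNReal.ofReal_one, ← ENNReal.ofReal_add zero_le_one (by
            apply mul_nonneg; linarith; positivity)]
        change ENNReal.ofReal _ = ENNReal.ofReal _
        congr 1
        field_simp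
        ring

theorem green_lintegral (lam μ : ℝ) (hμ : 0 < μ) (g : C2 → ℝ≥0∞) (hg : Measurable g)
    (hgi : ∫⁻ x, g x ≠ ∞) : ∫⁻ x, green lam μ g x ≠ ∞ := by
  unfold green
  rw [lintegral_add_left hg, lintegral_const_mul _ (G_meas_int μ g hg)]
  refine ENNReal.add_ne_top.2 ⟨hgi, ENNReal.mul_ne_top ENNReal.ofReal_ne_top ?_⟩
  have m : Measurable (fun z : C2 × C2 => res μ ‖z.1 - z.2‖ * g z.2) :=
    (G_meas_res μ).mul (hg.comp measurable_snd)
  rw [lintegral_lintegral_swap m.aemeasurable]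
  have : ∀ y : C2, ∫⁻ x : C2, res μ ‖x - y‖ * g y = (ENNReal.ofReal μ)⁻¹ * g y := by
    intro y
    have m' : Measurable (fun x : C2 => res μ ‖x - y‖) :=
      (res_measurable μ).comp (measurable_id.sub measurable_const).norm
    rw [lintegral_mul_const _ m', ← G_res_mass μ hμ y]
    congr 1
    refine lintegral_congr fun x => ?_
    rw [norm_sub_rev]
  simp only [this]
  rw [lintegral_const_mul _ hg]
  exact ENNReal.mul_ne_top (ENNReal.inv_ne_top.2 (by simpa using hμ)) hgi

end Pool.Agent.Helper85.Cap
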