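import Pool.Agent.Helper85.Cap.G1

/-!
Assembly, part 2: the inequality for a fixed shell and a fixed resolvent parameter.
-/
set_option autoImplicit false
open MeasureTheory Metric Set
open scoped ENNReal
open Pool.Agent.Helper85.Herm

namespace Pool.Agent.Helper85.Cap

theorem G_amgm (F S Q : ℝ≥0∞) (h : F ^ 2 ≤ S * Q) (τ t : ℝ) (hτ : 0 < τ) (ht : 0 ≤ t) :
    2 * F * ENNReal.ofReal t ≤ ENNReal.ofReal τ * S + ENNReal.ofReal (τ⁻¹ * t ^ 2) * Q := by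
  rcases ht.eq_or_lt with rfl | ht
  · simp
  by_cases hS : S = ∞
  · subst hS
    rw [ENNReal.mul_top (by simpa using hτ)]
    simp
  by_cases hQ : Q = ∞
  · subst hQ
    rw [ENNReal.mul_top (by
      have : 0 < τ⁻¹ * t ^ 2 := by positivity
      simpa using this)]
    simp
  have hF : F ≠ ∞ := by
    intro hF
    rw [hF] at h
    have : (∞ : ℝ≥0∞) ^ 2 = ∞ := by simp
    rw [this, top_le_iff] at h
    exact ENNReal.mul_ne_top hS hQ h
  lift F to NNReal using hF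
  lift S to NNReal using hS
  lift Q to NNReal using hQ
  have h' : (F : ℝ) ^ 2 ≤ S * Q := by exact_mod_cast h
  have key : 2 * (F : ℝ) * t ≤ τ * S + (τ⁻¹ * t ^ 2) * Q := by
    have hti : 0 < τ⁻¹ := inv_pos.2 hτ
    have hS0 : (0 : ℝ) ≤ S := S.2
    have hQ0 : (0 : ℝ) ≤ Q := Q.2
    have hF0 : (0 : ℝ) ≤ F := F.2
    have e : (τ * S) * (τ⁻¹ * t ^ 2 * Q) = t ^ 2 * (S * Q) := by field_simp
    have h1 : (2 * F * t) ^ 2 ≤ (τ * S + (τ⁻¹ * t ^ 2) * Q) ^ 2 := by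
      have h2 : (F : ℝ) ^ 2 * t ^ 2 ≤ (τ * S) * (τ⁻¹ * t ^ 2 * Q) := by
        rw [e]; nlinarith [sq_nonneg t]
      nlinarith [sq_nonneg (τ * S - (τ⁻¹ * t ^ 2) * Q)]
    exact (pow_le_pow_iff_left₀ (by positivity) (by positivity) two_ne_zero).1 h1
  have e1 : 2 * (F : ℝ≥0∞) * ENNReal.ofReal t = ENNReal.ofReal (2 * F * t) := by
    rw [ENNReal.ofReal_mul (by positivity), ENNReal.ofReal_mul (by norm_num)]
    simp
  have e2 : ENNReal.ofReal τ * (S : ℝ≥0∞) + ENNReal.ofReal (τ⁻¹ * t ^ 2) * Q =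
      ENNReal.ofReal (τ * S + (τ⁻¹ * t ^ 2) * Q) := by
    rw [ENNReal.ofReal_add (by positivity) (by positivity), ENNReal.ofReal_mul (p := τ) hτ.le,
      ENNReal.ofReal_mul (p := τ⁻¹ * t ^ 2) (by positivity)]
    simp
  rw [e1, e2]
  exact ENNReal.ofReal_le_ofReal key

theorem G_inv_sq (t : ℝ) :
    (ENNReal.ofReal (t ^ 2))⁻¹ = ENNReal.ofReal (4 * Real.pi ^ 2) * res 0 t := by
  have hp : (0 : ℝ) < 4 * Real.pi ^ 2 := by positivity
  have h0 : ENNReal.ofReal (4 * Real.pi ^ 2) ≠ 0 := by simp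
  rw [res_zero, ENNReal.ofReal_mul hp.le, ENNReal.mul_inv (Or.inl h0)
    (Or.inl ENNReal.ofReal_ne_top), ← mul_assoc, ENNReal.mul_inv_cancel h0 ENNReal.ofReal_ne_top,
    one_mul]

theorem G_I2 (f : C2 → ℝ≥0∞) (hf : Measurable f) :
    ∫⁻ x : C2, ∫⁻ y : C2, f x * (ENNReal.ofReal (‖x - y‖ ^ 2))⁻¹ * f y =
      ENNReal.ofReal (4 * Real.pi ^ 2) * ∫⁻ x : C2, f x * ∫⁻ y : C2, res 0 ‖x - y‖ * f y := by
  have m0 : Measurable (fun x : C2 => f x * ∫⁻ y : C2, res 0 ‖x - y‖ * f y) :=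
    hf.mul (G_meas_int 0 f hf)
  rw [← lintegral_const_mul _ m0]
  refine lintegral_congr fun x => ?_
  have m : Measurable (fun y : C2 => res 0 ‖x - y‖ * f y) := (G_meas_res' 0 x).mul hf
  rw [← mul_assoc, ← lintegral_const_mul _ m]
  refine lintegral_congr fun y => ?_
  rw [G_inv_sq]
  ring

/-- the complex line inequality, integrated -/
theorem G_lines (u v : C2 ≃ₗᵢ[ℝ] C2) (hu : ∀ x, u (u x) = -x) (hv : ∀ x, v (v x) = -x)
    (huv : ∀ x, u (v x) = -v (u x)) (K : Set C2) (hK : IsCompact K) (f : C2 → ℝ≥0∞)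
    (hf : Measurable f) (hfK : ∀ x, x ∉ K → f x = 0) (τ : ℝ) (hτ : 0 < τ) :
    2 * (∫⁻ x, f x) * ENNReal.ofReal (2 * Real.pi ^ 2) ≤
      ENNReal.ofReal τ * (∫⁻ w : C2, ENNReal.ofReal (Real.exp (-‖w‖ ^ 2)) * shad u K w) +
        ENNReal.ofReal τ⁻¹ * (kap * (ENNReal.ofReal (4 * Real.pi ^ 2) *
          ∫⁻ x : C2, f x * ∫⁻ y : C2, res 0 ‖x - y‖ * f y)) := by
  rw [← gauss_moment, ← G_I2 f hf, ← lintegral_qf u v hu hv huv f hf]
  have m1 : Measurable (fun w : C2 => ENNReal.ofReal (‖w‖ ^ 2 * Real.exp (-‖w‖ ^ 2))) := by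
    fun_prop
  have m2 : Measurable (fun w : C2 => ENNReal.ofReal (‖w‖ ^ 4 * Real.exp (-‖w‖ ^ 2)) *
      qf u v f w) := by
    refine Measurable.mul (by fun_prop) (qf_measurable u v f hf)
  rw [← lintegral_const_mul _ m1, ← lintegral_const_mul' _ _ ENNReal.ofReal_ne_top,
    ← lintegral_const_mul _ m2, ← lintegral_add_right _ (m2.const_mul _)]
  have hae : ∀ᵐ w : C2, w ≠ 0 := by
    have : (volume : Measure C2) {0} = 0 := measure_singleton 0
    rw [ae_iff]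
    simp
  refine lintegral_mono_ae (hae.mono fun w hw => ?_)
  have h := sq_lintegral_le u v hu hv huv K hK f hf hfK w hw
  have h2 := G_amgm _ _ _ h τ (‖w‖ ^ 2) hτ (by positivity)
  have he : 0 ≤ Real.exp (-‖w‖ ^ 2) := (Real.exp_pos _).le
  have h3 := mul_le_mul' (le_refl (ENNReal.ofReal (Real.exp (-‖w‖ ^ 2)))) h2
  have e1 : ENNReal.ofReal (Real.exp (-‖w‖ ^ 2)) * (2 * (∫⁻ x, f x) * ENNReal.ofReal (‖w‖ ^ 2)) =
      2 * (∫⁻ x, f x) * ENNReal.ofReal (‖w‖ ^ 2 * Real.exp (-‖w‖ ^ 2)) := by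
    rw [ENNReal.ofReal_mul (p := ‖w‖ ^ 2) (by positivity)]; ring
  have e2 : ENNReal.ofReal (Real.exp (-‖w‖ ^ 2)) * (ENNReal.ofReal τ * shad u K w +
      ENNReal.ofReal (τ⁻¹ * (‖w‖ ^ 2) ^ 2) * qf u v f w) =
      ENNReal.ofReal τ * (ENNReal.ofReal (Real.exp (-‖w‖ ^ 2)) * shad u K w) +
      ENNReal.ofReal τ⁻¹ * (ENNReal.ofReal (‖w‖ ^ 4 * Real.exp (-‖w‖ ^ 2)) * qf u v f w) := by
    have e3 : (‖w‖ ^ 2) ^ 2 = ‖w‖ ^ 4 := by ring
    rw [e3, ENNReal.ofReal_mul (p := τ⁻¹) (by positivity),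
      ENNReal.ofReal_mul (p := ‖w‖ ^ 4) (by positivity)]
    ring
  rw [e1, e2] at h3
  exact h3

theorem kap_ne_zero : kap ≠ 0 := by
  unfold kap
  have hm : Measurable (fun p : ℝ × ℝ => ENNReal.ofReal (((p.1 ^ 2 + p.2 ^ 2) ^ 4)⁻¹ *
      Real.exp (-(p.1 ^ 2 + p.2 ^ 2)⁻¹))) := by fun_prop
  rw [← pos_iff_ne_zero, lintegral_pos_iff_support hm]
  have hsub : ({(0 : ℝ × ℝ)}ᶜ : Set (ℝ × ℝ)) ⊆ Function.support (fun p : ℝ × ℝ =>
      ENNReal.ofReal (((p.1 ^ 2 + p.2 ^ 2) ^ 4)⁻¹ * Real.exp (-(p.1 ^ 2 + p.2 ^ 2)⁻¹))) := by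
    intro p hp
    have hp' : p ≠ 0 := hp
    have : 0 < p.1 ^ 2 + p.2 ^ 2 := by
      rcases eq_or_ne p.1 0 with h | h
      · have h2 : p.2 ≠ 0 := fun h2 => hp' (Prod.ext h h2)
        positivity
      · positivity
    have h3 : 0 < ((p.1 ^ 2 + p.2 ^ 2) ^ 4)⁻¹ * Real.exp (-(p.1 ^ 2 + p.2 ^ 2)⁻¹) := by positivity
    simpa using h3
  refine lt_of_lt_of_le ?_ (measure_mono hsub)
  rw [measure_compl (measurableSet_singleton _) (by simp)]
  simp

/-- `∫ f (1-θP)⁻¹ f = ∫ f` for the equilibrium charge -/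
theorem G_equil (lam μ : ℝ) (hμ : 0 < μ) (hl : μ < lam) (K : Set C2) (hK : IsCompact K)
    (w f : C2 → ℝ≥0∞) (hw : Measurable w) (hf : Measurable f) (hw1 : ∀ x, w x ≤ 1)
    (hwK : ∀ x ∈ K, w x = 1) (hfK : ∀ x, x ∉ K → f x = 0) (hf1 : ∀ x, f x ≤ 1)
    (hwi : ∫⁻ x, w x ≠ ∞)
    (hweq : ∀ x, w x = f x + ENNReal.ofReal ((lam - μ) / lam) *
      ∫⁻ y, (ENNReal.ofReal lam * res lam ‖x - y‖) * w y) :
    ∫⁻ x, f x * green lam μ f x = ∫⁻ x, f x ∧ ∫⁻ x, f x ≠ ∞ := by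
  have hlam : 0 < lam := hμ.trans hl
  set ρ : ℝ → ℝ≥0∞ := fun t => ENNReal.ofReal lam * res lam t with hρdef
  have hρm : Measurable ρ := (res_measurable lam).const_mul _
  have hρ1 : ∫⁻ x : C2, ρ ‖x‖ = 1 := by
    simp only [hρdef]
    have m : Measurable (fun x : C2 => res lam ‖x‖) := (res_measurable lam).comp measurable_norm
    rw [lintegral_const_mul _ m, res_mass lam hlam,
      ENNReal.mul_inv_cancel (by simpa using hlam) ENNReal.ofReal_ne_top]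
  have hθ0 : 0 ≤ (lam - μ) / lam := by apply div_nonneg <;> linarith
  have hfi : ∫⁻ x, f x ≠ ∞ := by
    have : ∫⁻ x, f x ≤ volume K := by
      rw [← lintegral_indicator_one hK.measurableSet]
      refine lintegral_mono fun x => ?_
      by_cases hx : x ∈ K
      · simpa [hx] using hf1 x
      · simp [hfK x hx]
    exact ne_top_of_le_ne_top hK.measure_lt_top.ne this
  have hgm := green_measurable lam μ f hf
  have hgle := green_le lam μ hμ hl f hf1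
  have hgi := green_lintegral lam μ hμ f hf hfi
  have hW : MemLp (fun x => (w x).toReal) 2 volume := D_memLp w hw 1 (by simpa using hw1) hwi
  have hU : MemLp (fun x => (green lam μ f x).toReal) 2 volume := D_memLp _ hgm _ hgle hgi
  have hgfin : ∀ x, green lam μ f x ≠ ∞ := fun x => ne_top_of_le_ne_top ENNReal.coe_ne_top (hgle x)
  have hwfin : ∀ x, w x ≠ ∞ := fun x => ne_top_of_le_ne_top ENNReal.one_ne_top (hw1 x)
  have a1 := D_Ek_eq ρ hρm hρ1 ((lam - μ) / lam) hθ0 (fun x => (w x).toReal) hw.ennreal_toReal hW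
    (fun x => ENNReal.toReal_nonneg) f (green lam μ f) hf hgm _ hgle hgi
    (green_eq lam μ hμ hl f hf)
  have a2 := D_Ek_eq ρ hρm hρ1 ((lam - μ) / lam) hθ0 (fun x => (green lam μ f x).toReal)
    hgm.ennreal_toReal hU (fun x => ENNReal.toReal_nonneg) f w hf hw 1 (by simpa using hw1) hwi hweq
  have a3 : Ek ρ ((lam - μ) / lam) (fun x => (w x).toReal) (fun x => (green lam μ f x).toReal) =
      Ek ρ ((lam - μ) / lam) (fun x => (green lam μ f x).toReal) (fun x => (w x).toReal) := by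
    unfold Ek
    rw [D_Bk_symm ρ hρm]
    congr 1
    refine integral_congr_ae (Filter.Eventually.of_forall fun x => mul_comm _ _)
  refine ⟨?_, hfi⟩
  have b1 : ∫⁻ x, ENNReal.ofReal (w x).toReal * f x = ∫⁻ x, f x := by
    refine lintegral_congr fun x => ?_
    by_cases hx : x ∈ K
    · simp [hwK x hx]
    · simp [hfK x hx]
  have b2 : ∫⁻ x, ENNReal.ofReal (green lam μ f x).toReal * f x =
      ∫⁻ x, f x * green lam μ f x := by
    refine lintegral_congr fun x => ?_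
    rw [ENNReal.ofReal_toReal (hgfin x), mul_comm]
  have b3 : ∫⁻ x, f x * green lam μ f x ≠ ∞ := by
    have : ∫⁻ x, f x * green lam μ f x ≤ (Real.toNNReal (lam / μ) : ℝ≥0∞) * ∫⁻ x, f x := by
      rw [← lintegral_const_mul _ hf]
      refine lintegral_mono fun x => ?_
      rw [mul_comm]
      exact mul_le_mul' (hgle x) le_rfl
    exact ne_top_of_le_ne_top (ENNReal.mul_ne_top ENNReal.coe_ne_top hfi) this
  rw [a1, a2, b1, b2, ENNReal.toReal_eq_toReal_iff' hfi b3] at a3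
  exact a3.symm

end Pool.Agent.Helper85.Cap
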