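import Pool.Agent.Helper85.Cap.G2

/-!
Assembly, part 3: the sharp inequality for the complex line average.
-/
set_option autoImplicit false
open MeasureTheory Metric Set
open scoped ENNReal
open Pool.Agent.Helper85.Herm

namespace Pool.Agent.Helper85.Cap

theorem shell_measurable (r η : ℝ) : Measurable (shell r η) := by
  unfold shell
  refine measurable_one.indicator ?_
  have m : Measurable (fun x : C2 => ‖x‖ ^ 2) := by fun_prop
  exact (measurableSet_le measurable_const m).inter (measurableSet_lt m measurable_const)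

theorem shell_le (r η : ℝ) (x : C2) : shell r η x ≤ 1 := by
  unfold shell
  by_cases h : x ∈ {x : C2 | r ^ 2 * (1 - η) ≤ ‖x‖ ^ 2 ∧ ‖x‖ ^ 2 < r ^ 2}
  · rw [Set.indicator_of_mem h]; simp
  · rw [Set.indicator_of_notMem h]; simp

theorem shell_zero (r η : ℝ) (hr : 0 < r) (x : C2) (hx : r ≤ ‖x‖) : shell r η x = 0 := by
  unfold shell
  refine Set.indicator_of_notMem ?_ _
  simp only [Set.mem_setOf_eq, not_and, not_lt]
  intro _
  nlinarith [norm_nonneg x]

theorem shell_sq (r η : ℝ) (x : C2) : shell r η x * shell r η x = shell r η x := by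
  unfold shell
  by_cases h : x ∈ {x : C2 | r ^ 2 * (1 - η) ≤ ‖x‖ ^ 2 ∧ ‖x‖ ^ 2 < r ^ 2}
  · simp [Set.indicator_of_mem h]
  · simp [Set.indicator_of_notMem h]

/-- Newtonian energy -/
noncomputable def newt (f : C2 → ℝ≥0∞) : ℝ≥0∞ := ∫⁻ x : C2, f x * ∫⁻ y : C2, res 0 ‖x - y‖ * f y

/-- bounds for the shell -/
theorem shell_newt (r η : ℝ) (hr : 0 < r) (hη : 0 < η) (hη1 : η < 1)
    (u v : C2 ≃ₗᵢ[ℝ] C2) (hu : ∀ x, u (u x) = -x) (hv : ∀ x, v (v x) = -x)
    (huv : ∀ x, u (v x) = -v (u x)) :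
    kap * (ENNReal.ofReal (4 * Real.pi ^ 2) * newt (shell r η)) ≤
      ENNReal.ofReal (Real.pi ^ 3 * r ^ 6 * η ^ 2 * (2 * Real.pi ^ 2)) := by
  have hm := shell_measurable r η
  unfold newt
  rw [← G_I2 _ hm, ← lintegral_qf u v hu hv huv _ hm]
  have hae : ∀ᵐ w : C2, w ≠ 0 := by
    have : (volume : Measure C2) {0} = 0 := measure_singleton 0
    rw [ae_iff]
    simp
  have m1 : Measurable (fun w : C2 => ENNReal.ofReal (‖w‖ ^ 2 * Real.exp (-‖w‖ ^ 2))) := by
    fun_prop
  rw [ENNReal.ofReal_mul (by positivity), ← gauss_moment, ← lintegral_const_mul _ m1]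
  refine lintegral_mono_ae (hae.mono fun w hw => ?_)
  have h := shell_qf u v hu hv huv r η hr hη hη1 w hw
  have hw' : 0 < ‖w‖ := norm_pos_iff.2 hw
  refine (mul_le_mul' le_rfl h).trans (le_of_eq ?_)
  rw [← ENNReal.ofReal_mul (by positivity), ← ENNReal.ofReal_mul (by positivity)]
  congr 1
  field_simp

theorem shell_newt_pos (r η : ℝ) (hr : 0 < r) (hη : 0 < η) (hη1 : η < 1) :
    newt (shell r η) ≠ 0 := by
  have hm := shell_measurable r η
  have hmass := shell_mass r η hr hη hη1
  have hpos : 0 < Real.pi ^ 2 * r ^ 4 * (η - η ^ 2 / 2) := by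
    have : 0 < η - η ^ 2 / 2 := by nlinarith
    positivity
  have hle : res 0 (2 * r) * (∫⁻ x, shell r η x) * (∫⁻ x, shell r η x) ≤ newt (shell r η) := by
    unfold newt
    rw [mul_comm, ← lintegral_mul_const _ hm]
    refine lintegral_mono fun x => ?_
    by_cases hx : ‖x‖ < r
    · refine mul_le_mul' le_rfl ?_
      rw [← lintegral_const_mul _ hm]
      refine lintegral_mono fun y => ?_
      by_cases hy : ‖y‖ < r
      · refine mul_le_mul' (res_antitone 0 (norm_nonneg _) (by simp; positivity) ?_) le_rfl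
        calc ‖x - y‖ ≤ ‖x‖ + ‖y‖ := norm_sub_le x y
          _ ≤ 2 * r := by linarith
      · rw [shell_zero r η hr y (not_lt.1 hy)]; simp
    · rw [shell_zero r η hr x (not_lt.1 hx)]; simp
  intro h0
  rw [h0, hmass] at hle
  have h1 : res 0 (2 * r) ≠ 0 := by
    rw [res_zero]; exact ENNReal.inv_ne_zero.2 ENNReal.ofReal_ne_top
  have h2 : ENNReal.ofReal (Real.pi ^ 2 * r ^ 4 * (η - η ^ 2 / 2)) ≠ 0 := by
    simpa using hpos
  have h3 := mul_ne_zero (mul_ne_zero h1 h2) h2
  exact h3 (le_antisymm hle zero_le)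

/-- the inequality for fixed parameters -/
theorem G_fixed (u v : C2 ≃ₗᵢ[ℝ] C2) (hu : ∀ x, u (u x) = -x) (hv : ∀ x, v (v x) = -x)
    (huv : ∀ x, u (v x) = -v (u x)) (K : Set C2) (hK : IsCompact K) (r : ℝ) (hr : 0 < r)
    (hvol : volume (ball (0 : C2) r) ≤ volume K) (A : ℝ) (hA0 : 0 ≤ A)
    (hA : ∫⁻ w : C2, ENNReal.ofReal (Real.exp (-‖w‖ ^ 2)) * shad u K w = ENNReal.ofReal A)
    (ε η : ℝ) (hε : 0 < ε) (hε1 : ε < 1) (hη : 0 < η) (hη1 : η < 1) :
    (1 - ε) * (1 - η / 2) ^ 2 * (Real.pi * r ^ 2) * (2 * Real.pi ^ 2) ≤ A := by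
  -- bound for the diameter
  obtain ⟨R₀, hR₀⟩ := hK.isBounded.subset_closedBall (0 : C2)
  set D : ℝ := 2 * |R₀| + 1 with hD
  have hDpos : 0 < D := by positivity
  have hKD : ∀ x ∈ K, ∀ y ∈ K, ‖x - y‖ ≤ D := by
    intro x hx y hy
    have h1 : ‖x‖ ≤ R₀ := by simpa using hR₀ hx
    have h2 : ‖y‖ ≤ R₀ := by simpa using hR₀ hy
    have h3 : R₀ ≤ |R₀| := le_abs_self _
    calc ‖x - y‖ ≤ ‖x‖ + ‖y‖ := norm_sub_le x y
      _ ≤ D := by rw [hD]; linarith
  obtain ⟨μ, hμ, hμD⟩ := res_lower D ε hDpos hε hε1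
  -- finiteness
  set g := shell r η with hgdef
  have hgm : Measurable g := shell_measurable r η
  have hg1 : ∀ x, g x ≤ 1 := shell_le r η
  have hmass : ∫⁻ x, g x = ENNReal.ofReal (Real.pi ^ 2 * r ^ 4 * (η - η ^ 2 / 2)) :=
    shell_mass r η hr hη hη1
  set G : ℝ := Real.pi ^ 2 * r ^ 4 * (η - η ^ 2 / 2) with hGdef
  have hGpos : 0 < G := by
    have : 0 < η - η ^ 2 / 2 := by nlinarith
    positivity
  have hgi : ∫⁻ x, g x ≠ ∞ := by rw [hmass]; exact ENNReal.ofReal_ne_top
  have hsn := shell_newt r η hr hη hη1 u v hu hv huv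
  have hnpos := shell_newt_pos r η hr hη hη1
  have hp4 : ENNReal.ofReal (4 * Real.pi ^ 2) ≠ 0 := by simp
  have hkapfin : kap ≠ ∞ := by
    intro h
    rw [h, ENNReal.top_mul (mul_ne_zero hp4 hnpos)] at hsn
    exact ENNReal.ofReal_ne_top (top_le_iff.1 hsn)
  have hnfin : newt g ≠ ∞ := by
    intro h
    rw [hgdef] at h
    rw [h, ENNReal.mul_top hp4, ENNReal.mul_top kap_ne_zero] at hsn
    exact ENNReal.ofReal_ne_top (top_le_iff.1 hsn)
  set k : ℝ := kap.toReal with hk
  set ig : ℝ := (newt g).toReal with hig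
  have hk0 : 0 ≤ k := ENNReal.toReal_nonneg
  have hig0 : 0 ≤ ig := ENNReal.toReal_nonneg
  have hkig : k * (4 * Real.pi ^ 2 * ig) ≤ Real.pi ^ 3 * r ^ 6 * η ^ 2 * (2 * Real.pi ^ 2) := by
    have := ENNReal.toReal_mono ENNReal.ofReal_ne_top hsn
    rw [ENNReal.toReal_mul, ENNReal.toReal_mul, ENNReal.toReal_ofReal (by positivity),
      ENNReal.toReal_ofReal (by positivity)] at this
    exact this
  -- the inequality for every lam
  have main : ∀ lam : ℝ, μ < lam →
      (1 - ε) * (lam - μ) * G ^ 2 * (2 * Real.pi ^ 2) ^ 2 ≤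
        4 * Real.pi ^ 2 * k * A * (G + (lam - μ) * ig) := by
    intro lam hl
    have hlam : 0 < lam := hμ.trans hl
    have hlm : 0 < lam - μ := by linarith
    set ρ : ℝ → ℝ≥0∞ := fun t => ENNReal.ofReal lam * res lam t with hρdef
    have hρm : Measurable ρ := (res_measurable lam).const_mul _
    have hρa : AntitoneOn ρ (Ici 0) := fun a ha b hb hab =>
      mul_le_mul' le_rfl (res_antitone lam ha hb hab)
    have hρ1 : ∫⁻ x : C2, ρ ‖x‖ = 1 := by
      simp only [hρdef]
      have m : Measurable (fun x : C2 => res lam ‖x‖) := (res_measurable lam).comp measurable_norm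
      rw [lintegral_const_mul _ m, res_mass lam hlam,
        ENNReal.mul_inv_cancel (by simpa using hlam) ENNReal.ofReal_ne_top]
    have hθ0 : 0 ≤ (lam - μ) / lam := by positivity
    have hθ1 : (lam - μ) / lam < 1 := by
      rw [div_lt_one hlam]; linarith
    obtain ⟨w, f, hw, hf, hw1, hwK, hfθ, hfK, hf1, hwi, hweq⟩ :=
      equilibrium (fun x : C2 => ρ ‖x‖) (hρm.comp measurable_norm) hρ1
        (ENNReal.ofReal ((lam - μ) / lam)) (by
          rw [← ENNReal.ofReal_one]
          exact (ENNReal.ofReal_lt_ofReal_iff one_pos).2 hθ1) K hK.measurableSet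
        hK.measure_lt_top.ne
    obtain ⟨heq, hfi⟩ := G_equil lam μ hμ hl K hK w f hw hf hw1 hwK hfK hf1 hwi hweq
    set F : ℝ := (∫⁻ x, f x).toReal with hF
    have hFofReal : ∫⁻ x, f x = ENNReal.ofReal F := (ENNReal.ofReal_toReal hfi).symm
    have hF0 : 0 ≤ F := ENNReal.toReal_nonneg
    have hFpos : 0 < F := by
      refine ENNReal.toReal_pos ?_ hfi
      have hvolK : 0 < volume K := lt_of_lt_of_le (measure_ball_pos volume (0 : C2) hr) hvol
      have h1 : (1 - ENNReal.ofReal ((lam - μ) / lam)) * volume K ≤ ∫⁻ x, f x := by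
        rw [← lintegral_indicator_const hK.measurableSet]
        refine lintegral_mono fun x => ?_
        by_cases hx : x ∈ K
        · rw [Set.indicator_of_mem hx]; exact hfθ x hx
        · rw [Set.indicator_of_notMem hx]; exact zero_le
      intro h0
      rw [h0] at h1
      have h2 : (1 - ENNReal.ofReal ((lam - μ) / lam)) ≠ 0 := by
        rw [← ENNReal.ofReal_one, ← ENNReal.ofReal_sub _ hθ0]
        simpa using hθ1
      exact mul_ne_zero h2 hvolK.ne' (le_antisymm h1 zero_le)
    -- Newtonian energy of f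
    have hnf : ENNReal.ofReal ((lam - μ) * (1 - ε)) * newt f ≤ ENNReal.ofReal F := by
      rw [← hFofReal, ← heq]
      unfold newt
      have m0 : Measurable (fun x : C2 => f x * ∫⁻ y : C2, res 0 ‖x - y‖ * f y) :=
        hf.mul (G_meas_int 0 f hf)
      rw [← lintegral_const_mul _ m0]
      refine lintegral_mono fun x => ?_
      by_cases hx : x ∈ K
      · have h1 : ENNReal.ofReal (1 - ε) * ∫⁻ y : C2, res 0 ‖x - y‖ * f y ≤
            ∫⁻ y : C2, res μ ‖x - y‖ * f y := by
          have m : Measurable (fun y : C2 => res 0 ‖x - y‖ * f y) := (G_meas_res' 0 x).mul hf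
          rw [← lintegral_const_mul _ m]
          refine lintegral_mono fun y => ?_
          by_cases hy : y ∈ K
          · rw [← mul_assoc]
            exact mul_le_mul' (hμD _ (norm_nonneg _) (hKD x hx y hy)) le_rfl
          · rw [hfK y hy]; simp
        calc ENNReal.ofReal ((lam - μ) * (1 - ε)) * (f x * ∫⁻ y : C2, res 0 ‖x - y‖ * f y)
            = f x * (ENNReal.ofReal (lam - μ) * (ENNReal.ofReal (1 - ε) *
              ∫⁻ y : C2, res 0 ‖x - y‖ * f y)) := by
              rw [ENNReal.ofReal_mul hlm.le]; ring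
          _ ≤ f x * (ENNReal.ofReal (lam - μ) * ∫⁻ y : C2, res μ ‖x - y‖ * f y) :=
              mul_le_mul' le_rfl (mul_le_mul' le_rfl h1)
          _ ≤ f x * green lam μ f x := mul_le_mul' le_rfl le_add_self
      · rw [hfK x hx]; simp
    have hnffin : newt f ≠ ∞ := by
      intro h
      rw [h, ENNReal.mul_top (by
        have : 0 < (lam - μ) * (1 - ε) := mul_pos hlm (by linarith)
        simpa using this)] at hnf
      exact ENNReal.ofReal_ne_top (top_le_iff.1 hnf)
    set nf : ℝ := (newt f).toReal with hnfdef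
    have hnf0 : 0 ≤ nf := ENNReal.toReal_nonneg
    have hnf' : (lam - μ) * (1 - ε) * nf ≤ F := by
      have := ENNReal.toReal_mono ENNReal.ofReal_ne_top hnf
      rwa [ENNReal.toReal_mul, ENNReal.toReal_ofReal (by
        exact mul_nonneg hlm.le (by linarith)), ENNReal.toReal_ofReal hF0] at this
    -- lines
    have hlines : ∀ τ : ℝ, 0 < τ → 2 * F * (2 * Real.pi ^ 2) ≤ τ * A +
        τ⁻¹ * (k * (4 * Real.pi ^ 2 * nf)) := by
      intro τ hτ
      have h := G_lines u v hu hv huv K hK f hf hfK τ hτ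
      rw [hA, hFofReal] at h
      have hfin : ENNReal.ofReal τ * ENNReal.ofReal A + ENNReal.ofReal τ⁻¹ *
          (kap * (ENNReal.ofReal (4 * Real.pi ^ 2) * newt f)) ≠ ∞ := by
        refine ENNReal.add_ne_top.2 ⟨ENNReal.mul_ne_top ENNReal.ofReal_ne_top
          ENNReal.ofReal_ne_top, ENNReal.mul_ne_top ENNReal.ofReal_ne_top
          (ENNReal.mul_ne_top hkapfin (ENNReal.mul_ne_top ENNReal.ofReal_ne_top hnffin))⟩
      have h2 := ENNReal.toReal_mono hfin h
      rw [ENNReal.toReal_add (ENNReal.add_ne_top.1 hfin).1 (ENNReal.add_ne_top.1 hfin).2] at h2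
      simp only [ENNReal.toReal_mul] at h2
      rw [ENNReal.toReal_ofReal hτ.le, ENNReal.toReal_ofReal hA0,
        ENNReal.toReal_ofReal (inv_pos.2 hτ).le, ENNReal.toReal_ofReal hF0,
        ENNReal.toReal_ofReal (by positivity), ENNReal.toReal_ofReal (by positivity)] at h2
      simpa using h2
    -- duality
    have hdual : ∀ s : ℝ, 0 ≤ s → 2 * s * G ≤ F + s ^ 2 * (G + (lam - μ) * ig) := by
      intro s hs
      have h := duality_main ρ hρm hρ1 ((lam - μ) / lam) hθ0 hθ1.le K hK r hvol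
        (fun h hc hcs h0 hv => polar_main ρ hρm hρa (by rw [hρ1]; exact ENNReal.one_ne_top) h hc hcs
          h0 r hv) w f hw hf hw1 hwK hfK hwi hweq g (green lam μ g) hgm
        (green_measurable lam μ g hgm) _ (green_le lam μ hμ hl g hg1)
        (green_lintegral lam μ hμ g hgm hgi) (fun x hx => shell_zero r η hr x hx)
        (green_eq lam μ hμ hl g hgm) s hs
      rw [hmass, ENNReal.toReal_ofReal hGpos.le] at h
      refine h.trans ?_
      have h2 : (∫⁻ x, g x * green lam μ g x).toReal ≤ G + (lam - μ) * ig := by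
        have h3 : ∫⁻ x, g x * green lam μ g x ≤ ENNReal.ofReal G + ENNReal.ofReal (lam - μ) *
            newt g := by
          rw [← hmass]
          unfold newt green
          have m0 : Measurable (fun x : C2 => g x * ∫⁻ y : C2, res 0 ‖x - y‖ * g y) :=
            hgm.mul (G_meas_int 0 g hgm)
          rw [← lintegral_const_mul _ m0, ← lintegral_add_left hgm]
          refine lintegral_mono fun x => ?_
          rw [mul_add]
          refine add_le_add (le_of_eq (shell_sq r η x)) ?_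
          rw [mul_left_comm]
          refine mul_le_mul' le_rfl (mul_le_mul' le_rfl (lintegral_mono fun y => ?_))
          exact mul_le_mul' (res_le μ _ hμ.le) le_rfl
        have h4 : ENNReal.ofReal G + ENNReal.ofReal (lam - μ) * newt g ≠ ∞ :=
          ENNReal.add_ne_top.2 ⟨ENNReal.ofReal_ne_top,
            ENNReal.mul_ne_top ENNReal.ofReal_ne_top hnfin⟩
        have h5 := ENNReal.toReal_mono h4 h3
        rwa [ENNReal.toReal_add ENNReal.ofReal_ne_top
          (ENNReal.mul_ne_top ENNReal.ofReal_ne_top hnfin), ENNReal.toReal_mul,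
          ENNReal.toReal_ofReal hGpos.le, ENNReal.toReal_ofReal hlm.le] at h5
      have := mul_le_mul_of_nonneg_left h2 (sq_nonneg s)
      linarith
    -- combine
    set m : ℝ := 2 * Real.pi ^ 2 with hm
    have hmpos : 0 < m := by positivity
    have hm1 : 1 < m := by
      have := Real.pi_gt_three
      rw [hm]; nlinarith
    set c : ℝ := k * (4 * Real.pi ^ 2 * nf) with hc
    have hc0 : 0 ≤ c := by positivity
    have hApos : 0 < A := by
      rcases hA0.eq_or_lt with h | h
      · exfalso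
        have h1 := hlines ((c + 1) / F) (by positivity)
        rw [← h, mul_zero, zero_add] at h1
        have h2 : 2 * F * m * ((c + 1) / F) ≤ c := by
          have := mul_le_mul_of_nonneg_right h1 (by positivity : 0 ≤ (c + 1) / F)
          have e : ((c + 1) / F)⁻¹ * c * ((c + 1) / F) = c := by field_simp
          rwa [e] at this
        have h3 : 2 * F * m * ((c + 1) / F) = 2 * m * (c + 1) := by field_simp
        rw [h3] at h2
        nlinarith
      · exact h
    -- F^2 m^2 ≤ A c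
    have hFm : F ^ 2 * m ^ 2 ≤ A * c := by
      have h1 := hlines (F * m / A) (by positivity)
      have e1 : F * m / A * A = F * m := by field_simp
      have e2 : (F * m / A)⁻¹ * c = A * c / (F * m) := by field_simp
      rw [e1, e2] at h1
      have h2 : F * m ≤ A * c / (F * m) := by linarith
      rw [le_div_iff₀ (by positivity)] at h2
      nlinarith
    -- F (lam-μ)(1-ε) m^2 ≤ 4π² k A
    have h5 : F * ((lam - μ) * (1 - ε)) * m ^ 2 ≤ 4 * Real.pi ^ 2 * k * A := by
      have h6 : (lam - μ) * (1 - ε) * (F ^ 2 * m ^ 2) ≤ (lam - μ) * (1 - ε) * (A * c) :=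
        mul_le_mul_of_nonneg_left hFm (mul_nonneg hlm.le (by linarith))
      have h7 : (lam - μ) * (1 - ε) * (A * c) ≤ A * (k * (4 * Real.pi ^ 2 * F)) := by
        have : (lam - μ) * (1 - ε) * (A * c) = A * k * (4 * Real.pi ^ 2) *
          ((lam - μ) * (1 - ε) * nf) := by rw [hc]; ring
        rw [this]
        have := mul_le_mul_of_nonneg_left hnf' (by positivity : 0 ≤ A * k * (4 * Real.pi ^ 2))
        linarith
      have h8 : F * (F * ((lam - μ) * (1 - ε)) * m ^ 2) ≤ F * (4 * Real.pi ^ 2 * k * A) := by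
        nlinarith
      exact le_of_mul_le_mul_left h8 hFpos
    have hQ : 0 < G + (lam - μ) * ig := by positivity
    have h9 : G ^ 2 ≤ F * (G + (lam - μ) * ig) := by
      have := hdual (G / (G + (lam - μ) * ig)) (by positivity)
      have e1 : 2 * (G / (G + (lam - μ) * ig)) * G = 2 * (G ^ 2 / (G + (lam - μ) * ig)) := by ring
      have e2 : (G / (G + (lam - μ) * ig)) ^ 2 * (G + (lam - μ) * ig) =
        G ^ 2 / (G + (lam - μ) * ig) := by field_simp
      rw [e1, e2] at this
      have h10 : G ^ 2 / (G + (lam - μ) * ig) ≤ F := by linarith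
      rwa [div_le_iff₀ hQ] at h10
    have h11 : (1 - ε) * (lam - μ) * m ^ 2 * G ^ 2 ≤ (1 - ε) * (lam - μ) * m ^ 2 *
        (F * (G + (lam - μ) * ig)) :=
      mul_le_mul_of_nonneg_left h9 (by
        have : 0 ≤ 1 - ε := by linarith
        positivity)
    have h12 := mul_le_mul_of_nonneg_right h5 hQ.le
    nlinarith
  -- limit lam → ∞
  have hlim : (1 - ε) * G ^ 2 * (2 * Real.pi ^ 2) ^ 2 ≤ 4 * Real.pi ^ 2 * k * A * ig := by
    refine le_of_forall_pos_le_add fun δ hδ => ?_
    set B : ℝ := 4 * Real.pi ^ 2 * k * A * G with hB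
    have hB0 : 0 ≤ B := by positivity
    set t : ℝ := (B + 1) / δ with ht
    have htpos : 0 < t := by positivity
    have h := main (μ + t) (by linarith)
    have e : μ + t - μ = t := by ring
    rw [e] at h
    have h1 : B ≤ δ * t := by
      rw [ht]; field_simp; linarith
    have h2 : t * ((1 - ε) * G ^ 2 * (2 * Real.pi ^ 2) ^ 2) ≤
        t * (4 * Real.pi ^ 2 * k * A * ig + δ) := by nlinarith
    exact le_of_mul_le_mul_left h2 htpos
  -- final arithmetic
  have h1 : (1 - ε) * G ^ 2 * (2 * Real.pi ^ 2) ^ 2 ≤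
      A * (Real.pi ^ 3 * r ^ 6 * η ^ 2 * (2 * Real.pi ^ 2)) := by
    have := mul_le_mul_of_nonneg_left hkig hA0
    nlinarith
  have e1 : (1 - ε) * G ^ 2 * (2 * Real.pi ^ 2) ^ 2 =
      ((1 - ε) * (1 - η / 2) ^ 2 * (Real.pi * r ^ 2) * (2 * Real.pi ^ 2)) *
        (Real.pi ^ 3 * r ^ 6 * η ^ 2 * (2 * Real.pi ^ 2)) := by
    rw [hGdef]; ring
  rw [e1] at h1
  exact le_of_mul_le_mul_right h1 (by positivity)

/-- **Sharp inequality for the complex line average of shadows.** -/
theorem G_sharp (u v : C2 ≃ₗᵢ[ℝ] C2) (hu : ∀ x, u (u x) = -x) (hv : ∀ x, v (v x) = -x)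
    (huv : ∀ x, u (v x) = -v (u x)) (K : Set C2) (hK : IsCompact K) (r : ℝ) (hr : 0 < r)
    (hvol : volume (ball (0 : C2) r) ≤ volume K) (A : ℝ) (hA0 : 0 ≤ A)
    (hA : ∫⁻ w : C2, ENNReal.ofReal (Real.exp (-‖w‖ ^ 2)) * shad u K w = ENNReal.ofReal A) :
    (Real.pi * r ^ 2) * (2 * Real.pi ^ 2) ≤ A := by
  set X : ℝ := (Real.pi * r ^ 2) * (2 * Real.pi ^ 2) with hX
  have hX0 : 0 < X := by positivity
  refine le_of_forall_pos_le_add fun δ hδ => ?_
  set ε : ℝ := min (1 / 2) (δ / (4 * X)) with hε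
  have hε0 : 0 < ε := by positivity
  have hε1 : ε < 1 := lt_of_le_of_lt (min_le_left _ _) (by norm_num)
  have hε2 : ε ≤ δ / (4 * X) := min_le_right _ _
  have h := G_fixed u v hu hv huv K hK r hr hvol A hA0 hA ε ε hε0 hε1 hε0 hε1
  have h1 : ε * (4 * X) ≤ δ := by
    rwa [le_div_iff₀ (by positivity)] at hε2
  have h2 : (1 - ε) * (1 - ε / 2) ^ 2 * (Real.pi * r ^ 2) * (2 * Real.pi ^ 2) =
      (1 - ε) * (1 - ε / 2) ^ 2 * X := by rw [hX]; ring
  rw [h2] at h
  have h3 : 1 - 2 * ε ≤ (1 - ε) * (1 - ε / 2) ^ 2 := by nlinarith [sq_nonneg ε]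
  have h4 := mul_le_mul_of_nonneg_right h3 hX0.le
  nlinarith

end Pool.Agent.Helper85.Cap
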